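import Pool.Agent.H723.PT.Ineq
import Pool.Agent.H723.QS.QRoth

set_option autoImplicit false

open Finset

namespace Pool.Agent.H723.PT

open Pool.Agent.H393R2.RothNS

variable {m : ℕ}

theorem tr_le (q : Ideal (Pm m)) : tr q ≤ m := by
  unfold tr
  apply Finset.sup_le
  intro E _
  calc #E ≤ #(univ : Finset (Fin m)) := Finset.card_le_univ E
    _ = m := by simp

theorem tr_lt_of_mem {q : Ideal (Pm m)} (hq : q.IsPrime) {f : Pm m} (hf : f ∈ q) (hf0 : f ≠ 0) :
    tr q < m := by
  have h1 : (⊥ : Ideal (Pm m)) < q := by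
    rw [bot_lt_iff_ne_bot]
    intro h
    rw [h, Ideal.mem_bot] at hf
    exact hf0 hf
  exact (tr_lt Ideal.isPrime_bot hq h1).trans_le (tr_le _)

/-- exchange of one element -/
theorem ind_swap {p : Ideal (Pm m)} (hp : p.IsPrime) (E : Finset (Fin m)) (hE : Ind p E)
    (i : Fin m) (hi : i ∉ E) (htr : tr p = #E) (hind : Ind p {i}) :
    ∃ j ∈ E, Ind p (insert i (E.erase j)) := by
  classical
  have key : ∀ k : ℕ, k + 1 ≤ #E → ∃ E' : Finset (Fin m), i ∈ E' ∧ E' ⊆ insert i E ∧ Ind p E' ∧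
      #E' = k + 1 := by
    intro k
    induction k with
    | zero =>
      intro _
      exact ⟨{i}, by simp, by simp, hind, by simp⟩
    | succ k ih =>
      intro hk
      obtain ⟨E', h1, h2, h3, h4⟩ := ih (by omega)
      obtain ⟨i', hi'1, hi'2, hi'3⟩ := ind_exchange hp E' E h3 hE (by omega)
      refine ⟨insert i' E', Finset.mem_insert_of_mem h1, ?_, hi'3, ?_⟩
      · rw [Finset.insert_subset_iff]
        exact ⟨Finset.mem_insert_of_mem hi'1, h2⟩
      · rw [Finset.card_insert_of_notMem hi'2, h4]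
  have hE1 : 1 ≤ #E := by
    have := card_le_tr hind
    rw [htr] at this
    simpa using this
  obtain ⟨E', h1, h2, h3, h4⟩ := key (#E - 1) (by omega)
  have h5 : #(insert i E \ E') = 1 := by
    rw [Finset.card_sdiff_of_subset h2, Finset.card_insert_of_notMem hi, h4]
    omega
  obtain ⟨j, hj⟩ := Finset.card_eq_one.mp h5
  have hjm : j ∈ insert i E \ E' := by rw [hj]; simp
  rw [Finset.mem_sdiff, Finset.mem_insert] at hjm
  have hji : j ≠ i := by
    intro h; exact hjm.2 (h ▸ h1)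
  have hjE : j ∈ E := hjm.1.resolve_left hji
  refine ⟨j, hjE, ?_⟩
  have h6 : E' = insert i (E.erase j) := by
    apply Finset.eq_of_subset_of_card_le
    · intro a ha
      have h7 := h2 ha
      rw [Finset.mem_insert] at h7 ⊢
      rcases h7 with h7 | h7
      · exact Or.inl h7
      · right
        rw [Finset.mem_erase]
        refine ⟨?_, h7⟩
        intro haj
        exact hjm.2 (haj ▸ ha)
    · rw [Finset.card_insert_of_notMem (by
        rw [Finset.mem_erase]; intro h; exact hi h.2), Finset.card_erase_of_mem hjE, h4]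
  rw [← h6]
  exact h3

theorem prod_swap (E : Finset (Fin m)) (i j : Fin m) (hi : i ∉ E) (hj : j ∈ E)
    (f : Fin m → ℝ) : (∏ k ∈ (insert i (E.erase j))ᶜ, f k) * f i = (∏ k ∈ Eᶜ, f k) * f j := by
  classical
  have hij : i ≠ j := fun h => hi (h ▸ hj)
  have h1 : (insert i (E.erase j))ᶜ = insert j (Eᶜ.erase i) := by
    ext k
    simp only [Finset.mem_compl, Finset.mem_insert, Finset.mem_erase]
    by_cases hk : k = j
    · subst hk
      simp [hij.symm]
    · by_cases hki : k = i
      · subst hki; simp [hk]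
      · simp [hk, hki]
  have h2 : Eᶜ = insert i (Eᶜ.erase i) := by
    rw [Finset.insert_erase]
    exact Finset.mem_compl.mpr hi
  rw [h1, Finset.prod_insert (by
    rw [Finset.mem_erase, Finset.mem_compl]; intro h; exact h.2 hj)]
  conv_rhs => rw [h2]
  rw [Finset.prod_insert (by simp)]
  ring

theorem DD_support {R : Type*} [CommRing R] (P : MvPolynomial (Fin m) R) (r : Fin m → ℕ)
    (hP : ∀ a ∈ P.support, ∀ h, a h ≤ r h) (κ : Fin m →₀ ℕ) :
    ∀ a ∈ (DD κ P).support, ∀ h, a h ≤ r h := by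
  intro a ha h
  rw [MvPolynomial.mem_support_iff, coeff_DD] at ha
  have h1 : a + κ ∈ P.support := by
    rw [MvPolynomial.mem_support_iff]
    intro h0; apply ha; rw [h0, mul_zero]
  have h2 := hP _ h1 h
  simp only [Finsupp.add_apply] at h2
  omega

theorem DD_eq_zero {R : Type*} [CommRing R] (P : MvPolynomial (Fin m) R) (r : Fin m → ℕ)
    (hP : ∀ a ∈ P.support, ∀ h, a h ≤ r h) (κ : Fin m →₀ ℕ) (hκ : ∃ h, r h < κ h) :
    DD κ P = 0 := by
  ext a
  rw [coeff_DD, MvPolynomial.coeff_zero]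
  by_cases h1 : a + κ ∈ P.support
  · obtain ⟨h, hh⟩ := hκ
    have h2 := hP _ h1 h
    simp only [Finsupp.add_apply] at h2
    omega
  · rw [MvPolynomial.notMem_support_iff.mp h1, mul_zero]

theorem l1_zsmul_nat (c : ℕ) (P : Zm m) : l1 ((c : ℤ) • P) ≤ c * l1 P := by
  rw [MvPolynomial.smul_eq_C_mul]
  refine (l1_mul _ _).trans ?_
  apply mul_le_mul_of_nonneg_right _ (l1_nonneg P)
  have : (MvPolynomial.C (c : ℤ) : Zm m) = MvPolynomial.monomial 0 (c : ℤ) := rfl
  rw [this, l1_monomial]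
  simp

/-- the new parameter -/
noncomputable def om2 (m : ℕ) (σ : ℝ) : ℝ := (σ / ((m : ℝ) + 1) ^ 3) ^ m / ((m : ℝ) + 2) ^ 3

theorem om2_pos (m : ℕ) (σ : ℝ) (hσ : 0 < σ) : 0 < om2 m σ := by
  unfold om2; positivity

end Pool.Agent.H723.PT
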