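import Pool.Agent.H723.PT.Stm

set_option autoImplicit false

open Finset

namespace Pool.Agent.H723.PT

open Pool.Agent.H393R2.RothNS

variable {m : ℕ}

/-- pull back to polynomials -/
noncomputable def pb (x : Fin m → ℚ) (I : Ideal (Rx x)) : Ideal (Pm m) :=
  I.comap (algebraMap (Pm m) (Rx x))

theorem mem_pb (x : Fin m → ℚ) (I : Ideal (Rx x)) (f : Pm m) :
    f ∈ pb x I ↔ algebraMap (Pm m) (Rx x) f ∈ I := Iff.rfl

/-- chains of ideals generated by successive non-zero-divisors -/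
inductive Ch (x : Fin m → ℚ) (adm : Zm m → Prop) : ℕ → Ideal (Rx x) → Prop
  | zero : Ch x adm 0 ⊥
  | succ {j : ℕ} {I : Ideal (Rx x)} (G : Zm m) : Ch x adm j I → adm G →
      Nz (algebraMap (Pm m) (Rx x) (toQ G)) I →
      Ch x adm (j + 1) (I ⊔ Ideal.span {algebraMap (Pm m) (Rx x) (toQ G)})

theorem nu_pos (J : Ideal (Pm m)) (n : Fin m → ℕ) (H : ℕ) (hH : 1 ≤ H) : 1 ≤ nu J n H := by
  unfold nu
  have h1 : (0 : Zm m) ∈ Bx n H := by
    refine ⟨by simp, fun a => ?_⟩
    simp only [MvPolynomial.coeff_zero]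
    exact ⟨le_refl _, by exact_mod_cast hH⟩
  exact (Set.ncard_pos ((Bx_finite n H).image _)).mpr ⟨_, _, h1, rfl⟩

theorem nu_iter (J J' : Ideal (Pm m)) (G : Zm m) (d n : Fin m → ℕ) (g H : ℕ) (hH : 1 ≤ H)
    (hd : ∀ a ∈ G.support, ∀ i, a i ≤ d i) (hg : l1 G ≤ g) (hz : Nz (toQ G) J) (hJ : J ≤ J')
    (hG : toQ G ∈ J') (τ : ℕ) :
    nu J' n H ^ τ ≤ nu J (n + τ • d) ((2 * g + 1) ^ τ * H) := by
  induction τ with
  | zero =>
    rw [pow_zero]
    exact nu_pos _ _ _ (by simpa using hH)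
  | succ τ ih =>
    have h1 := nu_step J J' G d (n + τ • d) g ((2 * g + 1) ^ τ * H) hd hg hz hJ hG
    have h2 : nu J' n H ≤ nu J' (n + τ • d + d) ((2 * g + 1) ^ τ * H) := by
      apply nu_mono (le_refl _)
      · intro i
        simp only [Pi.add_apply]
        omega
      · exact Nat.le_mul_of_pos_left _ (by positivity)
    calc nu J' n H ^ (τ + 1) = nu J' n H * nu J' n H ^ τ := by ring
      _ ≤ nu J' (n + τ • d + d) ((2 * g + 1) ^ τ * H) *
          nu J (n + τ • d) ((2 * g + 1) ^ τ * H) := Nat.mul_le_mul h2 ih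
      _ ≤ _ := h1
      _ = nu J (n + (τ + 1) • d) ((2 * g + 1) ^ (τ + 1) * H) := by
          congr 1
          · rw [add_assoc, add_smul, one_smul]
          · ring

theorem nz_pb (x : Fin m → ℚ) (I : Ideal (Rx x)) (f : Pm m)
    (h : Nz (algebraMap (Pm m) (Rx x) f) I) : Nz f (pb x I) := by
  intro y hy
  rw [mem_pb, map_mul] at hy
  exact h _ hy

/-- the counting inequality along a chain -/
theorem ch_count {x : Fin m → ℚ} {adm : Zm m → Prop} {d : Fin m → ℕ} {g : ℕ}
    (hadm : ∀ G, adm G → (∀ a ∈ G.support, ∀ i, a i ≤ d i) ∧ l1 G ≤ g) :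
    ∀ (s : ℕ) (I : Ideal (Rx x)), Ch x adm s I → ∀ (n : Fin m → ℕ) (H : ℕ), 1 ≤ H → ∀ τ : ℕ,
      nu (pb x I) n H ^ (τ ^ s) ≤ ((2 * g + 1) ^ (s * τ) * H) ^ (∏ i, (n i + s * τ * d i + 1)) := by
  intro s I h
  induction h with
  | zero =>
    intro n H hH τ
    simpa using nu_le (pb x ⊥) n H
  | @succ j I G hch hG hz ih =>
    intro n H hH τ
    obtain ⟨hd, hg⟩ := hadm G hG
    have h1 := nu_iter (pb x I) (pb x (I ⊔ Ideal.span {algebraMap (Pm m) (Rx x) (toQ G)})) G d n g
      H hH hd hg (nz_pb x I _ hz) (Ideal.comap_mono le_sup_left)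
      (Ideal.mem_sup_right (Ideal.subset_span rfl)) τ
    have h2 := ih (n + τ • d) ((2 * g + 1) ^ τ * H) (by
      have : 1 ≤ (2 * g + 1) ^ τ := Nat.one_le_pow _ _ (by omega)
      nlinarith) τ
    calc nu (pb x (I ⊔ Ideal.span {algebraMap (Pm m) (Rx x) (toQ G)})) n H ^ (τ ^ (j + 1))
        = (nu (pb x (I ⊔ Ideal.span {algebraMap (Pm m) (Rx x) (toQ G)})) n H ^ τ) ^ (τ ^ j) := by
          rw [← pow_mul, pow_succ']
      _ ≤ (nu (pb x I) (n + τ • d) ((2 * g + 1) ^ τ * H)) ^ (τ ^ j) := Nat.pow_le_pow_left h1 _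
      _ ≤ _ := h2
      _ = _ := by
          congr 1
          · rw [← mul_assoc, ← pow_add]; congr 2; ring
          · apply Finset.prod_congr rfl
            intro i _
            simp only [Pi.add_apply, Pi.smul_apply, smul_eq_mul]
            ring

/-- `Je` is saturated with respect to the complement of `p` -/
theorem Je_sat {p : Ideal (Pm m)} (hp : p.IsPrime) (d : Fin m → ℕ) (ε : ℝ) {g f : Pm m}
    (hg : g ∉ p) (h : g * f ∈ Je p d ε) : f ∈ Je p d ε := by
  classical
  rw [mem_Je] at h ⊢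
  have key : ∀ N : ℕ, ∀ κ : Fin m →₀ ℕ, κ.degree = N → wt d κ < ε → DD κ f ∈ p := by
    intro N
    induction N using Nat.strong_induction_on with
    | _ N ih =>
      intro κ hκN hκ
      have h1 := h κ hκ
      rw [DD_mul] at h1
      have hmem : ((0 : Fin m →₀ ℕ), κ) ∈ Finset.HasAntidiagonal.antidiagonal κ := by
        rw [Finset.HasAntidiagonal.mem_antidiagonal]; simp
      rw [← Finset.add_sum_erase _ _ hmem] at h1
      have h2 : ∑ y ∈ (Finset.HasAntidiagonal.antidiagonal κ).erase ((0 : Fin m →₀ ℕ), κ),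
          DD y.1 g * DD y.2 f ∈ p := by
        apply Ideal.sum_mem
        intro y hy
        rw [Finset.mem_erase, Finset.HasAntidiagonal.mem_antidiagonal] at hy
        apply Ideal.mul_mem_left
        have hy1 : y.1 ≠ 0 := by
          intro h0
          apply hy.1
          have : y.2 = κ := by rw [← hy.2, h0, zero_add]
          exact Prod.ext h0 this
        have hdeg : y.1.degree + y.2.degree = N := by
          rw [← hκN, ← hy.2, map_add]
        have hpos : 0 < y.1.degree := by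
          rw [Nat.pos_iff_ne_zero]
          intro h0
          exact hy1 ((Finsupp.degree_eq_zero_iff _).mp h0)
        apply ih y.2.degree (by omega) y.2 rfl
        have h3 : wt d κ = wt d y.1 + wt d y.2 := by rw [← wt_add, hy.2]
        have h4 := wt_nonneg d y.1
        linarith
      have h3 : DD (0 : Fin m →₀ ℕ) g * DD κ f ∈ p := by
        have := p.sub_mem h1 h2
        simpa using this
      rw [DD_zero'] at h3
      exact (hp.mem_or_mem h3).resolve_left hg
  intro κ hκ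
  exact key _ κ rfl hκ

theorem pb_map_Je {x : Fin m → ℚ} {p : Ideal (Pm m)} (hp : p.IsPrime) (hpx : p ≤ Mx x)
    (d : Fin m → ℕ) (ε : ℝ) (I : Ideal (Rx x))
    (hI : I ≤ (Je p d ε).map (algebraMap (Pm m) (Rx x))) : pb x I ≤ Je p d ε := by
  intro f hf
  have h1 := hI hf
  rw [IsLocalization.mem_map_algebraMap_iff (Mx x).primeCompl (Rx x)] at h1
  obtain ⟨⟨⟨a, ha⟩, ⟨c, hc⟩⟩, h2⟩ := h1
  simp only at h2
  rw [← map_mul] at h2
  obtain ⟨⟨e, he⟩, h3⟩ := (IsLocalization.eq_iff_exists (Mx x).primeCompl (Rx x)).mp h2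
  simp only at h3
  have h4 : (e * c) * f ∈ Je p d ε := by
    have : (e * c) * f = e * a := by rw [← h3]; ring
    rw [this]
    exact Ideal.mul_mem_left _ _ ha
  refine Je_sat hp d ε ?_ h4
  intro h5
  have h6 : e * c ∈ Mx x := hpx h5
  rcases (inferInstance : (Mx x).IsPrime).mem_or_mem h6 with h7 | h7
  · exact he h7
  · exact hc h7

theorem ch_le_map {x : Fin m → ℚ} {adm : Zm m → Prop} {K : Ideal (Pm m)}
    (hadm : ∀ G, adm G → toQ G ∈ K) :
    ∀ (s : ℕ) (I : Ideal (Rx x)), Ch x adm s I → I ≤ K.map (algebraMap (Pm m) (Rx x)) := by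
  intro s I h
  induction h with
  | zero => exact bot_le
  | @succ j I G hch hG hz ih =>
    apply sup_le ih
    rw [Ideal.span_le, Set.singleton_subset_iff]
    exact Ideal.mem_map_of_mem _ (hadm G hG)

end Pool.Agent.H723.PT
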