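import Mathlib
import Pool.Graph.R_seed8.H393R2.Roth5

/-!
# Definitions for a quantitative Roth lemma by the product theorem

Everything is about `A = ℚ[X_1, …, X_m]`.  `DD κ` is the divided (Hasse) derivative and
`wt d κ = ∑ κ_i / d_i` (library, `H393R2.RothNS`).
-/

set_option autoImplicit false

open Finset

namespace Pool.Agent.H723.PT

open Pool.Agent.H393R2.RothNS

/-- `z` is not a zero divisor modulo the ideal `J` -/
def Nz {R : Type*} [CommRing R] (z : R) (J : Ideal R) : Prop := ∀ y, z * y ∈ J → y ∈ J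

/-- `R ⧸ J` has a regular sequence of length `n` -/
def Dp {R : Type*} [CommRing R] [IsLocalRing R] : ℕ → Ideal R → Prop
  | 0, J => J ≠ ⊤
  | n + 1, J => ∃ z ∈ IsLocalRing.maximalIdeal R, Nz z J ∧ Dp n (J ⊔ Ideal.span {z})

/-- the polynomial ring -/
abbrev Pm (m : ℕ) := MvPolynomial (Fin m) ℚ

/-- polynomials with integer coefficients -/
abbrev Zm (m : ℕ) := MvPolynomial (Fin m) ℤ

/-- from integral to rational coefficients -/
noncomputable def toQ {m : ℕ} : Zm m →+* Pm m := MvPolynomial.map (Int.castRingHom ℚ)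

/-- the maximal ideal of the point `x` -/
noncomputable def Mx {m : ℕ} (x : Fin m → ℚ) : Ideal (Pm m) := RingHom.ker (MvPolynomial.eval x)

instance {m : ℕ} (x : Fin m → ℚ) : (Mx x).IsPrime := RingHom.ker_isPrime _

theorem mem_Mx {m : ℕ} (x : Fin m → ℚ) (f : Pm m) : f ∈ Mx x ↔ MvPolynomial.eval x f = 0 :=
  RingHom.mem_ker

/-- the local ring at `x` -/
abbrev Rx {m : ℕ} (x : Fin m → ℚ) := Localization.AtPrime (Mx x)

/-- the variables of `E` are algebraically independent modulo `q` -/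
def Ind {m : ℕ} (q : Ideal (Pm m)) (E : Finset (Fin m)) : Prop := ∀ f ∈ q, f.vars ⊆ E → f = 0

open Classical in
/-- the transcendence degree of `A ⧸ q` -/
noncomputable def tr {m : ℕ} (q : Ideal (Pm m)) : ℕ :=
  ((univ : Finset (Finset (Fin m))).filter (Ind q)).sup Finset.card

/-- integer polynomials with degrees at most `n i` and coefficients in `[0, H)` -/
def Bx {m : ℕ} (n : Fin m → ℕ) (H : ℕ) : Set (Zm m) :=
  {f | (∀ a ∈ f.support, ∀ i, a i ≤ n i) ∧ ∀ a, 0 ≤ f.coeff a ∧ f.coeff a < (H : ℤ)}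

/-- the number of the classes modulo `J` of the polynomials of `Bx n H` -/
noncomputable def nu {m : ℕ} (J : Ideal (Pm m)) (n : Fin m → ℕ) (H : ℕ) : ℕ :=
  Set.ncard ((fun f : Zm m => Ideal.Quotient.mk J (toQ f)) '' Bx n H)

/-- the generic Taylor expansion: the coefficient of `T ^ κ` is `DD κ f` -/
noncomputable def Th {m : ℕ} : Pm m →+* MvPolynomial (Fin m) (Pm m) :=
  (TT (R := Pm m) (fun i => MvPolynomial.X i)).toRingHom.comp
    (MvPolynomial.map (MvPolynomial.C : ℚ →+* Pm m))

theorem coeff_Th {m : ℕ} (f : Pm m) (κ : Fin m →₀ ℕ) : (Th f).coeff κ = DD κ f := by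
  have h1 : (Th f).coeff κ = MvPolynomial.eval (fun i => (MvPolynomial.X i : Pm m))
      (DD κ (MvPolynomial.map (MvPolynomial.C : ℚ →+* Pm m) f)) := by
    rw [← coeff_TT]; rfl
  rw [h1, ← DD_map, MvPolynomial.eval_map, MvPolynomial.eval₂_eta]

/-- Leibniz -/
theorem DD_mul {m : ℕ} (f g : Pm m) (κ : Fin m →₀ ℕ) :
    DD κ (f * g) = ∑ x ∈ Finset.HasAntidiagonal.antidiagonal κ, DD x.1 f * DD x.2 g := by
  classical
  rw [← coeff_Th, map_mul, MvPolynomial.coeff_mul]
  apply Finset.sum_congr rfl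
  intro x _
  rw [coeff_Th, coeff_Th]

theorem DD_zero' {m : ℕ} (f : Pm m) : DD 0 f = f := by
  ext κ
  rw [coeff_DD]
  simp [ch]

theorem DD_DD {m : ℕ} (f : Pm m) (κ μ : Fin m →₀ ℕ) :
    DD κ (DD μ f) = (ch (κ + μ) μ : ℚ) • DD (κ + μ) f := by
  ext a
  rw [coeff_DD, coeff_DD, MvPolynomial.coeff_smul, coeff_DD, smul_eq_mul, ← mul_assoc,
    ← mul_assoc, add_assoc]
  congr 1
  have key : ∀ x y z : ℕ, (x + y).choose y * (x + (y + z)).choose z
      = (y + z).choose z * (x + (y + z)).choose (y + z) := by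
    intro x y z
    have h := Nat.choose_mul (n := x + (y + z)) (k := y + z) (s := z) (by omega)
    have e1 : x + (y + z) - z = x + y := by omega
    have e2 : y + z - z = y := by omega
    rw [e1, e2] at h
    rw [mul_comm ((y + z).choose z), h, mul_comm]
  have h1 : ch (a + κ) κ * ch (a + (κ + μ)) μ = ch (κ + μ) μ * ch (a + (κ + μ)) (κ + μ) := by
    unfold ch
    rw [← Finset.prod_mul_distrib, ← Finset.prod_mul_distrib]
    apply Finset.prod_congr rfl
    intro i _
    simpa using key (a i) (κ i) (μ i)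
  exact_mod_cast h1

/-- the elements of index at least `ε` along `p` -/
noncomputable def Je {m : ℕ} (p : Ideal (Pm m)) (d : Fin m → ℕ) (ε : ℝ) : Ideal (Pm m) where
  carrier := {f | ∀ κ, wt d κ < ε → DD κ f ∈ p}
  zero_mem' := by
    intro κ _
    rw [map_zero]; exact p.zero_mem
  add_mem' := by
    intro f g hf hg κ hκ
    rw [map_add]; exact p.add_mem (hf κ hκ) (hg κ hκ)
  smul_mem' := by
    intro a f hf κ hκ
    rw [smul_eq_mul, DD_mul]
    apply Ideal.sum_mem
    intro x hx
    apply Ideal.mul_mem_left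
    apply hf
    rw [Finset.HasAntidiagonal.mem_antidiagonal] at hx
    have h1 : wt d κ = wt d x.1 + wt d x.2 := by rw [← wt_add, hx]
    have h2 := wt_nonneg d x.1
    linarith

theorem mem_Je {m : ℕ} (p : Ideal (Pm m)) (d : Fin m → ℕ) (ε : ℝ) (f : Pm m) :
    f ∈ Je p d ε ↔ ∀ κ, wt d κ < ε → DD κ f ∈ p := Iff.rfl

theorem ind_iff {m : ℕ} (q : Ideal (Pm m)) (E : Finset (Fin m)) :
    Ind q E ↔ AlgebraicIndependent ℚ
      (fun i : {i // i ∈ E} => (Ideal.Quotient.mk q (MvPolynomial.X (i : Fin m)))) := by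
  classical
  have key : ∀ f : MvPolynomial {i // i ∈ E} ℚ,
      MvPolynomial.aeval (fun i : {i // i ∈ E} =>
        (Ideal.Quotient.mk q (MvPolynomial.X (i : Fin m)))) f =
      Ideal.Quotient.mk q (MvPolynomial.rename (Subtype.val) f) := by
    intro f
    induction f using MvPolynomial.induction_on with
    | C c =>
      simp only [MvPolynomial.aeval_C, MvPolynomial.rename_C]
      rfl
    | add p q hp hq => simp only [map_add, hp, hq]
    | mul_X p i hp => simp only [map_mul, hp, MvPolynomial.aeval_X, MvPolynomial.rename_X]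
  rw [AlgebraicIndependent, injective_iff_map_eq_zero]
  constructor
  · intro h f hf
    rw [key, Ideal.Quotient.eq_zero_iff_mem] at hf
    have h1 := h _ hf (by
      intro i hi
      have := MvPolynomial.vars_rename Subtype.val f hi
      rw [Finset.mem_image] at this
      obtain ⟨j, _, hj⟩ := this
      rw [← hj]; exact j.2)
    exact (MvPolynomial.rename_injective _ Subtype.val_injective) (by rw [h1, map_zero])
  · intro h f hf hv
    obtain ⟨g, hg⟩ := MvPolynomial.exists_rename_eq_of_vars_subset_range f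
      (Subtype.val : {i // i ∈ E} → Fin m) Subtype.val_injective (by
        intro i hi
        exact ⟨⟨i, hv hi⟩, rfl⟩)
    have h1 := h g (by rw [key, hg]; exact Ideal.Quotient.eq_zero_iff_mem.mpr hf)
    rw [← hg, h1, map_zero]

theorem Ind.mono {m : ℕ} {q : Ideal (Pm m)} {E E' : Finset (Fin m)} (h : Ind q E) (hE : E' ⊆ E) :
    Ind q E' := fun f hf hv => h f hf (hv.trans hE)

theorem Ind.anti {m : ℕ} {p q : Ideal (Pm m)} {E : Finset (Fin m)} (h : Ind q E) (hpq : p ≤ q) :
    Ind p E := fun f hf hv => h f (hpq hf) hv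

theorem ind_empty {m : ℕ} {q : Ideal (Pm m)} (hq : q ≠ ⊤) : Ind q ∅ := by
  intro f hf hv
  have h1 : f.vars = ∅ := Finset.subset_empty.mp hv
  rw [MvPolynomial.vars_eq_empty_iff_eq_C] at h1
  obtain ⟨c, hc⟩ : ∃ c, MvPolynomial.C c = f := ⟨_, h1.symm⟩
  by_contra h0
  apply hq
  rw [Ideal.eq_top_iff_one]
  have hc0 : c ≠ 0 := by
    intro h; apply h0; rw [← hc, h, map_zero]
  have : (1 : Pm m) = MvPolynomial.C c⁻¹ * f := by
    rw [← hc, ← map_mul, inv_mul_cancel₀ hc0, map_one]
  rw [this]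
  exact q.mul_mem_left _ hf

theorem card_le_tr {m : ℕ} {q : Ideal (Pm m)} {E : Finset (Fin m)} (h : Ind q E) : #E ≤ tr q := by
  classical
  unfold tr
  exact Finset.le_sup (f := Finset.card) (by simpa using h)

theorem exists_tr {m : ℕ} {q : Ideal (Pm m)} (hq : q ≠ ⊤) : ∃ E, Ind q E ∧ #E = tr q := by
  classical
  have hne : ((univ : Finset (Finset (Fin m))).filter (Ind q)).Nonempty :=
    ⟨∅, by simpa using ind_empty hq⟩
  obtain ⟨E, hE, h⟩ := Finset.exists_mem_eq_sup _ hne Finset.card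
  refine ⟨E, by simpa using hE, ?_⟩
  unfold tr
  rw [h]

end Pool.Agent.H723.PT
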