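import Pool.Agent.H723.PT.Step

set_option autoImplicit false

open Finset

namespace Pool.Agent.H723.PT

open Pool.Agent.H393R2.RothNS

variable {m : ℕ}

/-- the common part of the two inequalities -/
theorem count_core {x : Fin m → ℚ} {adm : Zm m → Prop} {d : Fin m → ℕ} {g : ℕ}
    (hadm : ∀ G, adm G → (∀ a ∈ G.support, ∀ i, a i ≤ d i) ∧ l1 G ≤ g)
    {p : Ideal (Pm m)} (hp : p.IsPrime) (hpx : p ≤ Mx x) (ε : ℝ)
    (hJe : ∀ G, adm G → toQ G ∈ Je p d ε) (s : ℕ) (I : Ideal (Rx x)) (hI : Ch x adm s I)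
    (S : Finset (Fin m)) (gg : Fin m → Zm m) (hg1 : ∀ i ∈ S, toQ (gg i) ∈ p)
    (hg2 : ∀ i ∈ S, DD (Finsupp.single i 1) (toQ (gg i)) ∉ p)
    (hg3 : ∀ i ∈ S, ∀ j ∈ S, j ≠ i → j ∉ (gg i).vars)
    (Cs : Finset (Fin m →₀ ℕ)) (hC : ∀ c ∈ Cs, c.support ⊆ S ∧ wt d c < ε) :
    ∃ D : ℕ, 1 ≤ D ∧ ∀ (t h : ℕ), 1 ≤ h → ∀ (E : Finset (Fin m)) (Ψ : Finset (Zm m)),
      (∀ ψ ∈ Ψ, ψ ∈ Bx (fun i => if i ∈ E then t * d i else 0) h) →
      (∀ ψ ∈ Ψ, ∀ ψ' ∈ Ψ, ψ ≠ ψ' → toQ ψ - toQ ψ' ∉ p) →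
      #Ψ ^ (#Cs * t ^ s) ≤
        ((2 * g + 1) ^ (s * t) * (D * h)) ^ (∏ i, ((s + 1) * d i * t + (D + 1))) := by
  classical
  obtain ⟨D, hD⟩ := nu_Je_ge p hp d ε S gg hg1 hg2 hg3 Cs hC
  refine ⟨D + 1, by omega, ?_⟩
  intro t h hh E Ψ hΨ hΨ2
  have h1 := hD (fun i => if i ∈ E then t * d i else 0) h hh Ψ hΨ hΨ2
  have hle : pb x I ≤ Je p d ε := pb_map_Je hp hpx d ε I (ch_le_map hJe s I hI)
  have h2 : nu (Je p d ε) (fun i => (if i ∈ E then t * d i else 0) + D) (D * h) ≤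
      nu (pb x I) (fun i => t * d i + (D + 1)) ((D + 1) * h) := by
    apply nu_mono hle
    · intro i
      split_ifs <;> omega
    · exact Nat.mul_le_mul_right _ (by omega)
  have h3 := ch_count hadm s I hI (fun i => t * d i + (D + 1)) ((D + 1) * h)
    (Nat.one_le_iff_ne_zero.mpr (by positivity)) t
  calc #Ψ ^ (#Cs * t ^ s) = (#Ψ ^ #Cs) ^ (t ^ s) := by rw [pow_mul]
    _ ≤ (nu (pb x I) (fun i => t * d i + (D + 1)) ((D + 1) * h)) ^ (t ^ s) :=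
        Nat.pow_le_pow_left (h1.trans h2) _
    _ ≤ _ := h3
    _ = _ := by
        congr 1
        apply Finset.prod_congr rfl
        intro i _
        ring

theorem prod_split (E : Finset (Fin m)) (f : Fin m → ℝ) :
    ∏ i, f i = (∏ i ∈ E, f i) * ∏ i ∈ Eᶜ, f i := (Finset.prod_mul_prod_compl E f).symm

/-- **The geometric inequality.** -/
theorem geo_ineq {x : Fin m → ℚ} {adm : Zm m → Prop} {d : Fin m → ℕ} {g : ℕ}
    (hd0 : ∀ i, 0 < d i)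
    (hadm : ∀ G, adm G → (∀ a ∈ G.support, ∀ i, a i ≤ d i) ∧ l1 G ≤ g)
    {p : Ideal (Pm m)} (hp : p.IsPrime) (hpx : p ≤ Mx x) (ε : ℝ) (hε : 0 < ε)
    (hJe : ∀ G, adm G → toQ G ∈ Je p d ε) (s : ℕ) (I : Ideal (Rx x)) (hI : Ch x adm s I)
    (E₀ E₁ : Finset (Fin m)) (hE0 : Ind p E₀) (hE1 : Ind p E₁) (hc0 : #E₀ + s = m)
    (hc1 : #E₁ + s = m) (htr : tr p = #E₁) (hs : 0 < s) :
    ∏ i ∈ E₁ᶜ, (ε / s * d i) ≤ (s + 1) ^ m * ∏ i ∈ E₀ᶜ, (d i : ℝ) := by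
  classical
  have hS : #(E₁ᶜ) = s := by
    rw [Finset.card_compl, Fintype.card_fin]; omega
  have hSne : (E₁ᶜ).Nonempty := by rw [← Finset.card_pos, hS]; exact hs
  obtain ⟨Cs, hC, hCcard⟩ := exists_Cs d hd0 ε hε E₁ᶜ hSne
  rw [hS] at hCcard
  have hgex : ∀ i : Fin m, ∃ gi : Zm m, i ∈ E₁ᶜ →
      toQ gi ∈ p ∧ DD (Finsupp.single i 1) (toQ gi) ∉ p ∧ gi.vars ⊆ insert i E₁ := by
    intro i
    by_cases hi : i ∈ E₁ᶜ
    · rw [Finset.mem_compl] at hi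
      have hni : ¬ Ind p (insert i E₁) := by
        intro hcon
        have := card_le_tr hcon
        rw [Finset.card_insert_of_notMem hi] at this
        omega
      obtain ⟨gi, h1, h2, h3⟩ := exists_g hp E₁ hE1 i hi hni
      exact ⟨gi, fun _ => ⟨h1, h2, h3⟩⟩
    · exact ⟨0, fun h => absurd h hi⟩
  choose gg hgg using hgex
  obtain ⟨D, hD1, hD⟩ := count_core hadm hp hpx ε hJe s I hI E₁ᶜ gg (fun i hi => (hgg i hi).1)
    (fun i hi => (hgg i hi).2.1) (fun i hi j hj hji hcon => by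
      have h1 := (hgg i hi).2.2 hcon
      rw [Finset.mem_insert] at h1
      rcases h1 with h1 | h1
      · exact hji h1
      · exact (Finset.mem_compl.mp hj) h1) Cs hC
  have key : ∀ t : ℕ, 1 ≤ t →
      ((#Cs : ℝ) * ∏ e ∈ E₀, (d e : ℝ)) * (t : ℝ) ^ m ≤
        ∏ i : Fin m, ((((s + 1) * d i : ℕ) : ℝ) * t + ((D + 1 : ℕ) : ℝ)) := by
    intro t ht
    have h1 : ∀ h : ℕ, 1 ≤ h →
        h ^ ((∏ e ∈ E₀, (t * d e + 1)) * (#Cs * t ^ s)) ≤
          (((2 * g + 1) ^ (s * t) * D) * h) ^ (∏ i, ((s + 1) * d i * t + (D + 1))) := by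
      intro h hh
      obtain ⟨Ψ, hΨ1, hΨ2, hΨ3⟩ := psi_ind p E₀ hE0 (fun e => t * d e) h
      have h2 := hD t h hh E₀ Ψ hΨ1 hΨ2
      rw [hΨ3, ← pow_mul, ← mul_assoc ((2 * g + 1) ^ (s * t))] at h2
      exact h2
    have h2 := le_of_pow_le _ _ _ h1
    have h3 : (#Cs * ∏ e ∈ E₀, d e) * t ^ m ≤ (∏ e ∈ E₀, (t * d e + 1)) * (#Cs * t ^ s) := by
      have h4 : t ^ #E₀ * ∏ e ∈ E₀, d e ≤ ∏ e ∈ E₀, (t * d e + 1) := by
        rw [← Finset.prod_const, ← Finset.prod_mul_distrib]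
        apply Finset.prod_le_prod'
        intro e _
        omega
      have hpw : t ^ m = t ^ #E₀ * t ^ s := by rw [← pow_add, hc0]
      calc (#Cs * ∏ e ∈ E₀, d e) * t ^ m = (t ^ #E₀ * ∏ e ∈ E₀, d e) * (#Cs * t ^ s) := by
            rw [hpw]; ring
        _ ≤ _ := Nat.mul_le_mul_right _ h4
    have h5 := h3.trans h2
    exact_mod_cast h5
  have h2 := lead_le m _ _ _ (fun i => by positivity) (fun i => by positivity) key
  have h3 : ∏ i : Fin m, (((s + 1) * d i : ℕ) : ℝ) = (s + 1 : ℝ) ^ m * ∏ i, (d i : ℝ) := by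
    push_cast
    rw [Finset.prod_mul_distrib, Finset.prod_const, Finset.card_univ, Fintype.card_fin]
  rw [h3, prod_split E₀ (fun i => (d i : ℝ))] at h2
  have hpos : 0 < ∏ e ∈ E₀, (d e : ℝ) :=
    Finset.prod_pos (fun e _ => by exact_mod_cast hd0 e)
  have h4 : (#Cs : ℝ) ≤ (s + 1 : ℝ) ^ m * ∏ i ∈ E₀ᶜ, (d i : ℝ) := by
    have h5 : (#Cs : ℝ) * ∏ e ∈ E₀, (d e : ℝ) ≤
        ((s + 1 : ℝ) ^ m * ∏ i ∈ E₀ᶜ, (d i : ℝ)) * ∏ e ∈ E₀, (d e : ℝ) := by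
      calc _ ≤ _ := h2
        _ = _ := by ring
    exact le_of_mul_le_mul_right h5 hpos
  exact hCcard.trans h4

/-- **The arithmetic inequality.** -/
theorem arith_ineq {x : Fin m → ℚ} {adm : Zm m → Prop} {d : Fin m → ℕ} {g : ℕ}
    (hd0 : ∀ i, 0 < d i)
    (hadm : ∀ G, adm G → (∀ a ∈ G.support, ∀ i, a i ≤ d i) ∧ l1 G ≤ g)
    {p : Ideal (Pm m)} (hp : p.IsPrime) (hpx : p ≤ Mx x) (ε : ℝ) (hε : 0 < ε)
    (hJe : ∀ G, adm G → toQ G ∈ Je p d ε) (s : ℕ) (I : Ideal (Rx x)) (hI : Ch x adm s I)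
    (E : Finset (Fin m)) (hE : Ind p E) (hc : #E + s = m) (htr : tr p = #E) (i₀ : Fin m)
    (hi₀ : i₀ ∉ E) (a b : ℤ) (hab : IsCoprime a b) (hb : b ≠ 0)
    (hx : MvPolynomial.X i₀ - MvPolynomial.C ((a : ℚ) / b) ∈ p) :
    (∏ i ∈ Eᶜ, (ε / s * d i)) * (d i₀ * Real.log (max |(a : ℝ)| |(b : ℝ)|)) ≤
      s * Real.log (2 * g + 1) * ((s + 1) ^ m * ∏ i ∈ Eᶜ, (d i : ℝ)) := by
  classical
  have hS : #(Eᶜ) = s := by
    rw [Finset.card_compl, Fintype.card_fin]; omega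
  have hSne : (Eᶜ).Nonempty := ⟨i₀, Finset.mem_compl.mpr hi₀⟩
  have hs : 0 < s := by rw [← hS]; exact Finset.card_pos.mpr hSne
  obtain ⟨Cs, hC, hCcard⟩ := exists_Cs d hd0 ε hε Eᶜ hSne
  rw [hS] at hCcard
  have hgex : ∀ i : Fin m, ∃ gi : Zm m, i ∈ Eᶜ →
      toQ gi ∈ p ∧ DD (Finsupp.single i 1) (toQ gi) ∉ p ∧ gi.vars ⊆ insert i E := by
    intro i
    by_cases hi : i ∈ Eᶜ
    · rw [Finset.mem_compl] at hi
      have hni : ¬ Ind p (insert i E) := by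
        intro hcon
        have := card_le_tr hcon
        rw [Finset.card_insert_of_notMem hi] at this
        omega
      obtain ⟨gi, h1, h2, h3⟩ := exists_g hp E hE i hi hni
      exact ⟨gi, fun _ => ⟨h1, h2, h3⟩⟩
    · exact ⟨0, fun h => absurd h hi⟩
  choose gg hgg using hgex
  obtain ⟨D, hD1, hD⟩ := count_core hadm hp hpx ε hJe s I hI Eᶜ gg (fun i hi => (hgg i hi).1)
    (fun i hi => (hgg i hi).2.1) (fun i hi j hj hji hcon => by
      have h1 := (hgg i hi).2.2 hcon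
      rw [Finset.mem_insert] at h1
      rcases h1 with h1 | h1
      · exact hji h1
      · exact (Finset.mem_compl.mp hj) h1) Cs hC
  set h₀ : ℕ := max a.natAbs b.natAbs with hh₀
  have hh1 : 1 ≤ h₀ := by
    have : 1 ≤ b.natAbs := Int.natAbs_pos.mpr hb
    exact this.trans (le_max_right _ _)
  have hh₀R : (h₀ : ℝ) = max |(a : ℝ)| |(b : ℝ)| := by
    rw [hh₀]
    push_cast
    rw [Nat.cast_natAbs, Nat.cast_natAbs]
    push_cast
    rfl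
  rw [← hh₀R]
  have hlog0 : 0 ≤ Real.log h₀ := Real.log_nonneg (by exact_mod_cast hh1)
  have hG1 : (1 : ℝ) ≤ 2 * g + 1 := by
    have : (0 : ℝ) ≤ g := Nat.cast_nonneg _
    linarith
  have hlogG : 0 ≤ Real.log (2 * g + 1) := Real.log_nonneg hG1
  have hDh : (1 : ℝ) ≤ (D : ℝ) * h₀ := by
    have h1 : 1 ≤ D * h₀ := Nat.one_le_iff_ne_zero.mpr (by positivity)
    exact_mod_cast h1
  have hlogD : 0 ≤ Real.log ((D : ℝ) * h₀) := Real.log_nonneg hDh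
  have hEi : ∏ e ∈ insert i₀ E, (d e : ℝ) = d i₀ * ∏ e ∈ E, (d e : ℝ) :=
    Finset.prod_insert hi₀
  have key : ∀ t : ℕ, 1 ≤ t →
      ((#Cs : ℝ) * Real.log h₀ * ∏ e ∈ insert i₀ E, (d e : ℝ)) * (t : ℝ) ^ (m + 1) ≤
        ∏ i : Fin (m + 1), ((Fin.cons (s * Real.log (2 * g + 1))
          (fun i => (((s + 1) * d i : ℕ) : ℝ)) : Fin (m + 1) → ℝ) i * t +
          (Fin.cons (Real.log ((D : ℝ) * h₀)) (fun _ => ((D + 1 : ℕ) : ℝ)) : Fin (m + 1) → ℝ) i) := by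
    intro t ht
    rw [Fin.prod_univ_succ]
    simp only [Fin.cons_zero, Fin.cons_succ]
    obtain ⟨Ψ, hΨ1, hΨ2, hΨ3⟩ := psi_rat p E hE i₀ hi₀ a b hab hb hx (fun e => t * d e)
    have h2 := hD t h₀ hh1 (insert i₀ E) Ψ hΨ1 hΨ2
    rw [hΨ3, ← pow_mul] at h2
    have h3 : (h₀ : ℝ) ^ ((∏ e ∈ insert i₀ E, (t * d e + 1)) * (#Cs * t ^ s)) ≤
        ((2 * g + 1 : ℝ) ^ (s * t) * (D * h₀)) ^ (∏ i, ((s + 1) * d i * t + (D + 1))) := by
      exact_mod_cast h2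
    have h4 := Real.log_le_log (by positivity) h3
    rw [Real.log_pow, Real.log_pow, Real.log_mul (by positivity) (by positivity), Real.log_pow]
      at h4
    have h5 : ((∏ e ∈ insert i₀ E, d e : ℕ) : ℝ) * (#Cs : ℝ) * (t : ℝ) ^ (m + 1) ≤
        (((∏ e ∈ insert i₀ E, (t * d e + 1)) * (#Cs * t ^ s) : ℕ) : ℝ) := by
      have h6 : t ^ #(insert i₀ E) * ∏ e ∈ insert i₀ E, d e ≤
          ∏ e ∈ insert i₀ E, (t * d e + 1) := by
        rw [← Finset.prod_const, ← Finset.prod_mul_distrib]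
        apply Finset.prod_le_prod'
        intro e _
        omega
      have h7 : (∏ e ∈ insert i₀ E, d e) * #Cs * t ^ (m + 1) ≤
          (∏ e ∈ insert i₀ E, (t * d e + 1)) * (#Cs * t ^ s) := by
        calc (∏ e ∈ insert i₀ E, d e) * #Cs * t ^ (m + 1)
            = (t ^ #(insert i₀ E) * ∏ e ∈ insert i₀ E, d e) * (#Cs * t ^ s) := by
              have hpw : t ^ (m + 1) = t ^ (#E + 1) * t ^ s := by
                rw [← pow_add]; congr 1; omega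
              rw [Finset.card_insert_of_notMem hi₀, hpw]
              ring
          _ ≤ _ := Nat.mul_le_mul_right _ h6
      exact_mod_cast h7
    have h8 : ((∏ e ∈ insert i₀ E, d e : ℕ) : ℝ) = ∏ e ∈ insert i₀ E, (d e : ℝ) := by push_cast; rfl
    rw [h8] at h5
    calc ((#Cs : ℝ) * Real.log h₀ * ∏ e ∈ insert i₀ E, (d e : ℝ)) * (t : ℝ) ^ (m + 1)
        = (∏ e ∈ insert i₀ E, (d e : ℝ)) * (#Cs : ℝ) * (t : ℝ) ^ (m + 1) * Real.log h₀ := by ring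
      _ ≤ (((∏ e ∈ insert i₀ E, (t * d e + 1)) * (#Cs * t ^ s) : ℕ) : ℝ) * Real.log h₀ :=
          mul_le_mul_of_nonneg_right h5 hlog0
      _ ≤ _ := h4
      _ = _ := by
          push_cast
          ring
  have h2 := lead_le (m + 1) _ _ _ (fun i => by
      refine Fin.cases ?_ (fun i => ?_) i
      · simp only [Fin.cons_zero]; positivity
      · simp only [Fin.cons_succ]; positivity) (fun i => by
      refine Fin.cases ?_ (fun i => ?_) i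
      · simp only [Fin.cons_zero]; exact hlogD
      · simp only [Fin.cons_succ]; positivity) key
  rw [Fin.prod_univ_succ] at h2
  simp only [Fin.cons_zero, Fin.cons_succ] at h2
  have h3 : ∏ i : Fin m, (((s + 1) * d i : ℕ) : ℝ) = (s + 1 : ℝ) ^ m * ∏ i, (d i : ℝ) := by
    push_cast
    rw [Finset.prod_mul_distrib, Finset.prod_const, Finset.card_univ, Fintype.card_fin]
  rw [h3, prod_split E (fun i => (d i : ℝ)), hEi] at h2
  have hpos : 0 < ∏ e ∈ E, (d e : ℝ) :=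
    Finset.prod_pos (fun e _ => by exact_mod_cast hd0 e)
  have h4 : (#Cs : ℝ) * (d i₀ * Real.log h₀) ≤
      s * Real.log (2 * g + 1) * ((s + 1 : ℝ) ^ m * ∏ i ∈ Eᶜ, (d i : ℝ)) := by
    have h5 : ((#Cs : ℝ) * (d i₀ * Real.log h₀)) * ∏ e ∈ E, (d e : ℝ) ≤
        (s * Real.log (2 * g + 1) * ((s + 1 : ℝ) ^ m * ∏ i ∈ Eᶜ, (d i : ℝ))) *
          ∏ e ∈ E, (d e : ℝ) := by
      calc _ = (#Cs : ℝ) * Real.log h₀ * (d i₀ * ∏ e ∈ E, (d e : ℝ)) := by ring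
        _ ≤ _ := h2
        _ = _ := by ring
    exact le_of_mul_le_mul_right h5 hpos
  refine le_trans ?_ h4
  exact mul_le_mul_of_nonneg_right hCcard (by positivity)

end Pool.Agent.H723.PT
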