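import Pool.Agent.H723.PT.Num

set_option autoImplicit false

open Finset

namespace Pool.Agent.H723.PT

open Pool.Agent.H393R2.RothNS Pool.Agent.H723.QS

theorem card_Iic_le {m : ℕ} (r : Fin m → ℕ) :
    #(Finset.Iic (Finsupp.equivFunOnFinite.symm r : Fin m →₀ ℕ)) ≤ ∏ i, (r i + 1) := by
  classical
  have h3 : #(Finset.Iic (Finsupp.equivFunOnFinite.symm r : Fin m →₀ ℕ)) ≤
      #(Fintype.piFinset (fun i => Finset.range (r i + 1))) := by
    apply Finset.card_le_card_of_injOn (fun κ : Fin m →₀ ℕ => (κ : Fin m → ℕ))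
    · intro κ hκ
      rw [Finset.mem_coe, Finset.mem_Iic, Finsupp.le_def] at hκ
      rw [Finset.mem_coe, Fintype.mem_piFinset]
      intro i
      rw [Finset.mem_range]
      exact Nat.lt_succ_of_le (hκ i)
    · intro κ _ κ' _ h
      exact DFunLike.coe_injective h
  rw [Fintype.card_piFinset] at h3
  simpa using h3

/-- **Roth's lemma with a parameter of size `exp (-O(m log m))`**, by the product theorem. -/
theorem rothE_pt (m : ℕ) (hm : 0 < m) (σ : ℝ) (hσ : 0 < σ) (hσ1 : σ ≤ 1) :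
    RothE m σ (om2 m σ) := by
  classical
  intro r R hR hr hri hrR p q hpq hq hlog P hP hdeg hco
  by_contra hcon
  push Not at hcon
  set x : Fin m → ℚ := fun h => (p h : ℚ) / q h with hx
  have hom := om2_pos m σ hσ
  have htoQ : MvPolynomial.map (Int.castRingHom ℚ) P = toQ P := rfl
  rw [htoQ] at hcon
  have hPQ0 : toQ P ≠ 0 := by
    intro h
    apply hP
    exact (MvPolynomial.map_injective _ (RingHom.injective_int (Int.castRingHom ℚ)))
      (by rw [htoQ, h, map_zero])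
  have hPQdeg : ∀ a ∈ (toQ P).support, ∀ h, a h ≤ r h := by
    intro a ha h
    exact hdeg a (MvPolynomial.support_map_subset _ _ ha) h
  have hDDP : ∀ κ, toQ (DD κ P) = DD κ (toQ P) := fun κ => DD_map _ κ P
  set ε : ℝ := σ / (m + 1) with hε
  have hε0 : 0 < ε := by positivity
  have hmε : ((m : ℝ) + 1) * ε = σ := by rw [hε]; field_simp
  -- the predicate
  let Q : ℕ → ℕ → Prop := fun k e => ∃ I : Ideal (Pm m), I.IsPrime ∧ I ≤ Mx x ∧ tr I = e ∧
    ∀ κ, wt r κ < k * ε → DD κ (toQ P) ∈ I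
  have hQx : ∀ k, k ≤ m + 1 → Q k (tr (Mx x)) := by
    intro k hk
    refine ⟨Mx x, inferInstance, le_rfl, rfl, ?_⟩
    intro κ hκ
    rw [mem_Mx]
    apply hcon κ
    refine lt_of_lt_of_le hκ ?_
    rw [← hmε]
    apply mul_le_mul_of_nonneg_right _ hε0.le
    exact_mod_cast hk
  let e : ℕ → ℕ := fun k => Nat.findGreatest (Q k) m
  have he : ∀ k, k ≤ m + 1 → Q k (e k) := fun k hk =>
    Nat.findGreatest_spec (tr_le _) (hQx k hk)
  have hemax : ∀ (k : ℕ) (I : Ideal (Pm m)), I.IsPrime → I ≤ Mx x →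
      (∀ κ, wt r κ < k * ε → DD κ (toQ P) ∈ I) → tr I ≤ e k := fun k I h1 h2 h3 =>
    Nat.le_findGreatest (tr_le _) ⟨I, h1, h2, rfl, h3⟩
  have heanti : ∀ k, k + 1 ≤ m + 1 → e (k + 1) ≤ e k := by
    intro k hk
    obtain ⟨I, h1, h2, h3, h4⟩ := he (k + 1) hk
    rw [← h3]
    apply hemax k I h1 h2
    intro κ hκ
    apply h4
    refine lt_of_lt_of_le hκ ?_
    apply mul_le_mul_of_nonneg_right _ hε0.le
    push_cast; linarith
  have he1 : e 1 < m := by
    obtain ⟨I, h1, h2, h3, h4⟩ := he 1 (by omega)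
    rw [← h3]
    have h5 := h4 0 (by simp [wt]; exact hε0)
    rw [DD_zero'] at h5
    exact tr_lt_of_mem h1 h5 hPQ0
  obtain ⟨k, hk1, hkm, hke⟩ : ∃ k, 1 ≤ k ∧ k ≤ m ∧ e (k + 1) = e k := by
    by_contra hno
    push Not at hno
    have h1 : ∀ j, j ≤ m → e (j + 1) + j < m := by
      intro j
      induction j with
      | zero => intro _; simpa using he1
      | succ j ih =>
        intro hj
        have h2 := ih (by omega)
        have h3 := hno (j + 1) (by omega) hj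
        have h4 := heanti (j + 1) (by omega)
        omega
    have := h1 m le_rfl
    omega
  obtain ⟨I, hIp, hIx, hItr, hIJ⟩ := he (k + 1) (by omega)
  rw [hke] at hItr
  have hkle : e k < m := by
    have h1 : ∀ j, 1 ≤ j → j ≤ m + 1 → e j < m := by
      intro j
      induction j with
      | zero => intro h; omega
      | succ j ih =>
        intro _ hj
        rcases Nat.eq_zero_or_pos j with h0 | h0
        · subst h0; simpa using he1
        · exact (heanti j (by omega)).trans_lt (ih h0 (by omega))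
    exact h1 k hk1 (by omega)
  obtain ⟨s, hs⟩ : ∃ s, s = m - e k := ⟨_, rfl⟩
  have hs0 : 0 < s := by omega
  have hsm : s ≤ m := by omega
  have hes : e k + s = m := by omega
  -- the admissible polynomials
  set gR : ℝ := (∏ i, ((r i : ℝ) + 1)) * ((m : ℝ) ^ m * ∏ i, (r i : ℝ)) *
      (2 ^ (∑ i, r i) * ((∏ i, ((r i : ℝ) + 1)) * Real.exp (om2 m σ * R))) with hgR
  have hgR0 : 0 ≤ gR := by
    rw [hgR]
    have q0 : (0 : ℝ) ≤ ∏ i, ((r i : ℝ) + 1) := Finset.prod_nonneg (fun i _ => by positivity)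
    have q1 : (0 : ℝ) ≤ ∏ i, (r i : ℝ) := Finset.prod_nonneg (fun i _ => by positivity)
    positivity
  set g : ℕ := ⌈gR⌉₊ with hg
  have hgle : gR ≤ g := Nat.le_ceil _
  have hglt : (g : ℝ) < gR + 1 := Nat.ceil_lt_add_one hgR0
  let adm : Zm m → Prop := fun G => (∀ a ∈ G.support, ∀ i, a i ≤ r i) ∧ l1 G ≤ g ∧
    toQ G ∈ Je I r ε
  have hadm : ∀ G, adm G → (∀ a ∈ G.support, ∀ i, a i ≤ r i) ∧ l1 G ≤ g :=
    fun G hG => ⟨hG.1, hG.2.1⟩
  have hJe : ∀ G, adm G → toQ G ∈ Je I r ε := fun G hG => hG.2.2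
  let rf : Fin m →₀ ℕ := Finsupp.equivFunOnFinite.symm r
  let K : Finset (Fin m →₀ ℕ) := (Finset.Iic rf).filter (fun κ => wt r κ < k * ε)
  have hKmem : ∀ κ, κ ∈ K ↔ (∀ h, κ h ≤ r h) ∧ wt r κ < k * ε := by
    intro κ
    simp only [K, Finset.mem_filter, Finset.mem_Iic]
    rw [Finsupp.le_def]
    rfl
  have hKcard : (#K : ℝ) ≤ ∏ i, ((r i : ℝ) + 1) := by
    have h1 : #K ≤ #(Finset.Iic rf) := Finset.card_filter_le _ _
    have h2 : #(Finset.Iic rf) ≤ ∏ i, (r i + 1) := card_Iic_le r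
    have h3 : (#K : ℝ) ≤ ((∏ i, (r i + 1) : ℕ) : ℝ) := by exact_mod_cast h1.trans h2
    simpa using h3
  have hl1P : l1 P ≤ (∏ i, ((r i : ℝ) + 1)) * Real.exp (om2 m σ * R) := by
    unfold l1
    have hsub : P.support ⊆ Finset.Iic rf := by
      intro a ha
      rw [Finset.mem_Iic, Finsupp.le_def]
      exact fun h => hdeg a ha h
    have h2 : #(Finset.Iic rf) ≤ ∏ i, (r i + 1) := card_Iic_le r
    have h3 : (#P.support : ℝ) ≤ ∏ i, ((r i : ℝ) + 1) := by
      have h4 : (#P.support : ℝ) ≤ ((∏ i, (r i + 1) : ℕ) : ℝ) := by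
        exact_mod_cast (Finset.card_le_card hsub).trans h2
      simpa using h4
    calc ∑ a ∈ P.support, |((MvPolynomial.coeff a P : ℤ) : ℝ)|
        ≤ ∑ _a ∈ P.support, Real.exp (om2 m σ * R) := Finset.sum_le_sum (fun a _ => hco a)
      _ = #P.support * Real.exp (om2 m σ * R) := by rw [Finset.sum_const, nsmul_eq_mul]
      _ ≤ _ := mul_le_mul_of_nonneg_right h3 (Real.exp_pos _).le
  have hl1D : ∀ κ, l1 (DD κ P) ≤ 2 ^ (∑ i, r i) * ((∏ i, ((r i : ℝ) + 1)) *
      Real.exp (om2 m σ * R)) := by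
    intro κ
    refine (l1_DD κ P (∑ i, r i) (fun a ha => Finset.sum_le_sum (fun i _ => hdeg a ha i))).trans ?_
    exact mul_le_mul_of_nonneg_left hl1P (by positivity)
  have hcomb : ∀ c : (Fin m →₀ ℕ) → ℕ, (∀ κ, c κ ≤ m ^ m * ∏ i, r i) →
      adm (∑ κ ∈ K, (c κ : ℤ) • DD κ P) := by
    intro c hc
    refine ⟨?_, ?_, ?_⟩
    · intro a ha i
      obtain ⟨κ, hκ, hκa⟩ : ∃ κ ∈ K, a ∈ ((c κ : ℤ) • DD κ P).support := by
        have := MvPolynomial.support_sum ha
        rw [Finset.mem_biUnion] at this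
        exact this
      exact DD_support P r hdeg κ a (MvPolynomial.support_smul hκa) i
    · refine (l1_sum K _).trans ?_
      refine le_trans ?_ hgle
      have h1 : ∀ κ ∈ K, l1 ((c κ : ℤ) • DD κ P) ≤ ((m : ℝ) ^ m * ∏ i, (r i : ℝ)) *
          (2 ^ (∑ i, r i) * ((∏ i, ((r i : ℝ) + 1)) * Real.exp (om2 m σ * R))) := by
        intro κ _
        refine (l1_zsmul_nat _ _).trans ?_
        apply mul_le_mul _ (hl1D κ) (l1_nonneg _) (by positivity)
        exact_mod_cast hc κ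
      refine (Finset.sum_le_card_nsmul _ _ _ h1).trans ?_
      rw [nsmul_eq_mul, hgR, mul_assoc (∏ i, ((r i : ℝ) + 1))]
      apply mul_le_mul_of_nonneg_right hKcard
      have q0 : (0 : ℝ) ≤ ∏ i, ((r i : ℝ) + 1) := Finset.prod_nonneg (fun i _ => by positivity)
      have q1 : (0 : ℝ) ≤ ∏ i, (r i : ℝ) := Finset.prod_nonneg (fun i _ => by positivity)
      positivity
    · rw [toQ_smul_sum]
      apply Ideal.sum_mem
      intro κ hκ
      rw [MvPolynomial.smul_eq_C_mul]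
      apply Ideal.mul_mem_left
      rw [mem_Je]
      intro μ hμ
      rw [hDDP, DD_DD, MvPolynomial.smul_eq_C_mul]
      apply Ideal.mul_mem_left
      apply hIJ
      rw [wt_add]
      have h1 := ((hKmem κ).mp hκ).2
      push_cast
      linarith
  obtain ⟨IR, hIR⟩ := sel hr hadm s hsm K (fun κ => DD κ P) (by
      intro κ hκ
      rw [hDDP, mem_Mx]
      apply hcon κ
      refine lt_of_lt_of_le ((hKmem κ).mp hκ).2 ?_
      rw [← hmε]
      apply mul_le_mul_of_nonneg_right _ hε0.le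
      have : (k : ℝ) ≤ m := by exact_mod_cast hkm
      linarith) (by
      intro J hJ hJx htr
      by_contra hno
      push Not at hno
      have h1 : ∀ κ, wt r κ < k * ε → DD κ (toQ P) ∈ J := by
        intro κ hκ
        by_cases hle : ∀ h, κ h ≤ r h
        · rw [← hDDP]
          exact hno κ ((hKmem κ).mpr ⟨hle, hκ⟩)
        · push Not at hle
          rw [DD_eq_zero (toQ P) r hPQdeg κ hle]
          exact J.zero_mem
      have h2 := hemax k J hJ hJx h1
      omega) hcomb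
  obtain ⟨E, hE, hEc⟩ := exists_tr hIp.ne_top
  rw [hItr] at hEc
  have hEs : #E + s = m := by omega
  have htrE : tr I = #E := by rw [hItr, hEc]
  have hprodpos : ∀ S : Finset (Fin m), 0 < ∏ i ∈ S, (r i : ℝ) := fun S =>
    Finset.prod_pos (fun i _ => by exact_mod_cast hr i)
  have hprodε : ∀ S : Finset (Fin m), #S = s → ∏ i ∈ S, (ε / s * (r i : ℝ)) =
      (ε / s) ^ s * ∏ i ∈ S, (r i : ℝ) := by
    intro S hS
    rw [Finset.prod_mul_distrib, Finset.prod_const, hS]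
  have hgeo : ∀ E₀ E₁ : Finset (Fin m), Ind I E₀ → Ind I E₁ → #E₀ + s = m → #E₁ + s = m →
      (ε / s) ^ s * ∏ i ∈ E₁ᶜ, (r i : ℝ) ≤ ((s : ℝ) + 1) ^ m * ∏ i ∈ E₀ᶜ, (r i : ℝ) := by
    intro E₀ E₁ h0 h1 hc0 hc1
    have := geo_ineq hr hadm hIp hIx ε hε0 hJe s IR hIR E₀ E₁ h0 h1 hc0 hc1 (by omega) hs0
    rw [hprodε _ (by rw [Finset.card_compl, Fintype.card_fin]; omega)] at this
    exact this
  have hnum := num_geo m s hm hs0 hsm σ hσ hσ1
  rw [← hε] at hnum
  -- no exchange is possible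
  have hnoind : ∀ i, i ∉ E → ¬ Ind I {i} := by
    intro i hi hind
    obtain ⟨j, hj, hind2⟩ := ind_swap hIp E hE i hi htrE hind
    have hij : i ≠ j := fun h => hi (h ▸ hj)
    have hcard2 : #(insert i (E.erase j)) + s = m := by
      rw [Finset.card_insert_of_notMem (by
        rw [Finset.mem_erase]; intro h; exact hi h.2), Finset.card_erase_of_mem hj]
      have : 1 ≤ #E := Finset.card_pos.mpr ⟨j, hj⟩
      omega
    have hsw := prod_swap E i j hi hj (fun k => (r k : ℝ))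
    have hri0 : (0 : ℝ) < r i := by exact_mod_cast hr i
    have hrj0 : (0 : ℝ) < r j := by exact_mod_cast hr j
    have g1 := hgeo E (insert i (E.erase j)) hE hind2 hEs hcard2
    have g2 := hgeo (insert i (E.erase j)) E hind2 hE hcard2 hEs
    have hE0 := hprodpos Eᶜ
    have hε1 : 0 < (ε / s) ^ s := by
      have : (0 : ℝ) < s := by exact_mod_cast hs0
      positivity
    have k1 : (ε / s) ^ s * (r j : ℝ) ≤ ((s : ℝ) + 1) ^ m * r i := by
      have h1 : (ε / s) ^ s * ((∏ k ∈ (insert i (E.erase j))ᶜ, (r k : ℝ)) * r i) ≤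
          ((s : ℝ) + 1) ^ m * (∏ k ∈ Eᶜ, (r k : ℝ)) * r i := by
        calc _ = ((ε / s) ^ s * ∏ k ∈ (insert i (E.erase j))ᶜ, (r k : ℝ)) * r i := by ring
          _ ≤ _ := mul_le_mul_of_nonneg_right g1 hri0.le
      rw [hsw] at h1
      have h2 : ((ε / s) ^ s * (r j : ℝ)) * (∏ k ∈ Eᶜ, (r k : ℝ)) ≤
          (((s : ℝ) + 1) ^ m * r i) * (∏ k ∈ Eᶜ, (r k : ℝ)) := by
        calc _ = (ε / s) ^ s * ((∏ k ∈ Eᶜ, (r k : ℝ)) * r j) := by ring
          _ ≤ _ := h1
          _ = _ := by ring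
      exact le_of_mul_le_mul_right h2 hE0
    have k2 : (ε / s) ^ s * (r i : ℝ) ≤ ((s : ℝ) + 1) ^ m * r j := by
      have h1 : (ε / s) ^ s * (∏ k ∈ Eᶜ, (r k : ℝ)) * r i ≤
          ((s : ℝ) + 1) ^ m * ((∏ k ∈ (insert i (E.erase j))ᶜ, (r k : ℝ)) * r i) := by
        calc _ ≤ (((s : ℝ) + 1) ^ m * ∏ k ∈ (insert i (E.erase j))ᶜ, (r k : ℝ)) * r i :=
              mul_le_mul_of_nonneg_right g2 hri0.le
          _ = _ := by ring
      rw [hsw] at h1
      have h2 : ((ε / s) ^ s * (r i : ℝ)) * (∏ k ∈ Eᶜ, (r k : ℝ)) ≤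
          (((s : ℝ) + 1) ^ m * r j) * (∏ k ∈ Eᶜ, (r k : ℝ)) := by
        calc _ = (ε / s) ^ s * (∏ k ∈ Eᶜ, (r k : ℝ)) * r i := by ring
          _ ≤ _ := h1
          _ = _ := by ring
      exact le_of_mul_le_mul_right h2 hE0
    have hs1 : 0 ≤ ((s : ℝ) + 1) ^ m := by positivity
    rcases lt_or_gt_of_ne hij with hlt | hlt
    · have h1 := hri i j hlt
      have h2 : ((s : ℝ) + 1) ^ m * r i ≤ ((s : ℝ) + 1) ^ m * (om2 m σ * r j) :=
        mul_le_mul_of_nonneg_left h1 hs1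
      have h3 : (ε / s) ^ s * (r j : ℝ) ≤ (((s : ℝ) + 1) ^ m * om2 m σ) * r j := by
        calc _ ≤ _ := k1
          _ ≤ _ := h2
          _ = _ := by ring
      exact absurd (le_of_mul_le_mul_right h3 hrj0) (not_le.mpr hnum)
    · have h1 := hri j i hlt
      have h2 : ((s : ℝ) + 1) ^ m * r j ≤ ((s : ℝ) + 1) ^ m * (om2 m σ * r i) :=
        mul_le_mul_of_nonneg_left h1 hs1
      have h3 : (ε / s) ^ s * (r i : ℝ) ≤ (((s : ℝ) + 1) ^ m * om2 m σ) * r i := by
        calc _ ≤ _ := k2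
          _ ≤ _ := h2
          _ = _ := by ring
      exact absurd (le_of_mul_le_mul_right h3 hri0) (not_le.mpr hnum)
  obtain ⟨i₀, hi₀⟩ : ∃ i₀, i₀ ∉ E := by
    by_contra hall
    push Not at hall
    have : E = univ := Finset.eq_univ_iff_forall.mpr hall
    rw [this, Finset.card_univ, Fintype.card_fin] at hEs
    omega
  have hX := mem_of_not_ind hIp x hIx i₀ (hnoind i₀ hi₀)
  have har := arith_ineq hr hadm hIp hIx ε hε0 hJe s IR hIR E hE hEs htrE i₀ hi₀ (p i₀) (q i₀)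
    (hpq i₀) (hq i₀) hX
  have hcompl : #(Eᶜ) = s := by rw [Finset.card_compl, Fintype.card_fin]; omega
  rw [hprodε _ hcompl] at har
  have hL := num_gam m hm r hr (om2 m σ * R) hrR g (by rw [← hgR]; exact hglt)
  have hnum2 := num_arith m s hm hs0 hsm σ R hσ hσ1 hR (Real.log (2 * g + 1)) hL
  rw [← hε] at hnum2
  have hE0 := hprodpos Eᶜ
  have h1 : (ε / s) ^ s * R ≤ s * Real.log (2 * g + 1) * ((s : ℝ) + 1) ^ m := by
    have hε1 : 0 < (ε / s) ^ s := by
      have : (0 : ℝ) < s := by exact_mod_cast hs0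
      positivity
    have h2 : ((ε / s) ^ s * R) * (∏ i ∈ Eᶜ, (r i : ℝ)) ≤
        (s * Real.log (2 * g + 1) * ((s : ℝ) + 1) ^ m) * (∏ i ∈ Eᶜ, (r i : ℝ)) := by
      calc ((ε / s) ^ s * R) * (∏ i ∈ Eᶜ, (r i : ℝ))
          = ((ε / s) ^ s * ∏ i ∈ Eᶜ, (r i : ℝ)) * R := by ring
        _ ≤ ((ε / s) ^ s * ∏ i ∈ Eᶜ, (r i : ℝ)) *
            (r i₀ * Real.log (max |(p i₀ : ℝ)| |(q i₀ : ℝ)|)) :=
            mul_le_mul_of_nonneg_left (hlog i₀) (by positivity)
        _ ≤ _ := har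
        _ = _ := by ring
    exact le_of_mul_le_mul_right h2 hE0
  linarith

end Pool.Agent.H723.PT
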