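import Pool.Agent.H723.PT.Asm

set_option autoImplicit false

open Finset

namespace Pool.Agent.H723.PT

open Pool.Agent.H393R2.RothNS

/-- the comparison of the powers -/
theorem q_pow_le (m s : ℕ) (hm : 0 < m) (hs : 0 < s) (hsm : s ≤ m) (σ : ℝ) (hσ : 0 < σ)
    (hσ1 : σ ≤ 1) : (σ / (m * (m + 1))) ^ m ≤ (σ / (m + 1) / s) ^ s := by
  have hm0 : (0 : ℝ) < m := by exact_mod_cast hm
  have hm1 : (1 : ℝ) ≤ m := by exact_mod_cast hm
  have hs0 : (0 : ℝ) < s := by exact_mod_cast hs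
  have hsmR : (s : ℝ) ≤ m := by exact_mod_cast hsm
  have hq0 : 0 < σ / (m * (m + 1)) := by positivity
  have hq1 : σ / (m * (m + 1)) ≤ 1 := by
    rw [div_le_one (by positivity)]
    nlinarith
  have h1 : (σ / (m * (m + 1))) ^ m ≤ (σ / (m * (m + 1))) ^ s :=
    pow_le_pow_of_le_one hq0.le hq1 hsm
  refine h1.trans (pow_le_pow_left₀ hq0.le ?_ s)
  rw [div_div]
  apply div_le_div_of_nonneg_left hσ.le (by positivity)
  nlinarith

/-- first numerical contradiction -/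
theorem num_geo (m s : ℕ) (hm : 0 < m) (hs : 0 < s) (hsm : s ≤ m) (σ : ℝ) (hσ : 0 < σ)
    (hσ1 : σ ≤ 1) : ((s : ℝ) + 1) ^ m * om2 m σ < (σ / (m + 1) / s) ^ s := by
  have hm0 : (0 : ℝ) < m := by exact_mod_cast hm
  have hm1 : (1 : ℝ) ≤ m := by exact_mod_cast hm
  have hsmR : (s : ℝ) ≤ m := by exact_mod_cast hsm
  refine lt_of_lt_of_le ?_ (q_pow_le m s hm hs hsm σ hσ hσ1)
  have h1 : ((s : ℝ) + 1) ^ m ≤ ((m : ℝ) + 1) ^ m :=
    pow_le_pow_left₀ (by positivity) (by linarith) m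
  have h2 : ((m : ℝ) + 1) ^ m * (σ / ((m : ℝ) + 1) ^ 3) ^ m = (σ / ((m : ℝ) + 1) ^ 2) ^ m := by
    rw [← mul_pow]; congr 1; field_simp
  have h3 : (σ / ((m : ℝ) + 1) ^ 2) ^ m ≤ (σ / (m * (m + 1))) ^ m := by
    apply pow_le_pow_left₀ (by positivity)
    apply div_le_div_of_nonneg_left hσ.le (by positivity)
    nlinarith
  have h4 : 0 < (σ / (m * (m + 1))) ^ m := by positivity
  unfold om2
  calc ((s : ℝ) + 1) ^ m * ((σ / ((m : ℝ) + 1) ^ 3) ^ m / ((m : ℝ) + 2) ^ 3)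
      ≤ ((m : ℝ) + 1) ^ m * ((σ / ((m : ℝ) + 1) ^ 3) ^ m / ((m : ℝ) + 2) ^ 3) :=
        mul_le_mul_of_nonneg_right h1 (by positivity)
    _ = (σ / ((m : ℝ) + 1) ^ 2) ^ m / ((m : ℝ) + 2) ^ 3 := by rw [← h2]; ring
    _ ≤ (σ / (m * (m + 1))) ^ m / ((m : ℝ) + 2) ^ 3 :=
        div_le_div_of_nonneg_right h3 (by positivity)
    _ < (σ / (m * (m + 1))) ^ m := by
        rw [div_lt_iff₀ (by positivity)]
        have h5 : (1 : ℝ) < ((m : ℝ) + 2) ^ 3 := one_lt_pow₀ (by linarith) (by norm_num)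
        nlinarith

/-- second numerical contradiction -/
theorem num_arith (m s : ℕ) (hm : 0 < m) (hs : 0 < s) (hsm : s ≤ m) (σ R : ℝ) (hσ : 0 < σ)
    (hσ1 : σ ≤ 1) (hR : 0 < R) (L : ℝ) (hL : L ≤ ((m : ℝ) + 2) ^ 2 * (om2 m σ * R)) :
    s * L * ((s : ℝ) + 1) ^ m < (σ / (m + 1) / s) ^ s * R := by
  have hm0 : (0 : ℝ) < m := by exact_mod_cast hm
  have hm1 : (1 : ℝ) ≤ m := by exact_mod_cast hm
  have hs0 : (0 : ℝ) < s := by exact_mod_cast hs
  have hsmR : (s : ℝ) ≤ m := by exact_mod_cast hsm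
  have h0 := q_pow_le m s hm hs hsm σ hσ hσ1
  have h1 : ((s : ℝ) + 1) ^ m ≤ ((m : ℝ) + 1) ^ m :=
    pow_le_pow_left₀ (by positivity) (by linarith) m
  have h2 : ((m : ℝ) + 1) ^ m * (σ / ((m : ℝ) + 1) ^ 3) ^ m = (σ / ((m : ℝ) + 1) ^ 2) ^ m := by
    rw [← mul_pow]; congr 1; field_simp
  have h3 : (σ / ((m : ℝ) + 1) ^ 2) ^ m ≤ (σ / (m * (m + 1))) ^ m := by
    apply pow_le_pow_left₀ (by positivity)
    apply div_le_div_of_nonneg_left hσ.le (by positivity)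
    nlinarith
  have h4 : 0 < (σ / (m * (m + 1))) ^ m := by positivity
  have hom := om2_pos m σ hσ
  have hL' : s * L * ((s : ℝ) + 1) ^ m ≤
      s * (((m : ℝ) + 2) ^ 2 * (om2 m σ * R)) * ((m : ℝ) + 1) ^ m := by
    have h5 : s * L ≤ s * (((m : ℝ) + 2) ^ 2 * (om2 m σ * R)) :=
      mul_le_mul_of_nonneg_left hL hs0.le
    calc s * L * ((s : ℝ) + 1) ^ m ≤ s * (((m : ℝ) + 2) ^ 2 * (om2 m σ * R)) * ((s : ℝ) + 1) ^ m :=
          mul_le_mul_of_nonneg_right h5 (by positivity)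
      _ ≤ _ := mul_le_mul_of_nonneg_left h1 (by positivity)
  refine lt_of_le_of_lt hL' ?_
  have h6 : (s : ℝ) * (((m : ℝ) + 2) ^ 2 * (om2 m σ * R)) * ((m : ℝ) + 1) ^ m =
      s * R * (σ / ((m : ℝ) + 1) ^ 2) ^ m / ((m : ℝ) + 2) := by
    unfold om2
    rw [← h2]
    field_simp
  rw [h6]
  calc s * R * (σ / ((m : ℝ) + 1) ^ 2) ^ m / ((m : ℝ) + 2)
      ≤ m * R * (σ / (m * (m + 1))) ^ m / ((m : ℝ) + 2) := by
        apply div_le_div_of_nonneg_right _ (by positivity)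
        apply mul_le_mul _ h3 (by positivity) (by positivity)
        exact mul_le_mul_of_nonneg_right hsmR hR.le
    _ < (σ / (m * (m + 1))) ^ m * R := by
        rw [div_lt_iff₀ (by positivity)]
        have : 0 < (σ / (m * (m + 1))) ^ m * R := by positivity
        nlinarith
    _ ≤ _ := mul_le_mul_of_nonneg_right h0 hR.le

/-- the size of the coefficients -/
theorem num_gam (m : ℕ) (hm : 0 < m) (r : Fin m → ℕ) (hr : ∀ h, 0 < r h) (W : ℝ)
    (hW : ∀ h, (r h : ℝ) ≤ W) (g : ℕ)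
    (hg : (g : ℝ) < (∏ i, ((r i : ℝ) + 1)) * ((m : ℝ) ^ m * ∏ i, (r i : ℝ)) *
      (2 ^ (∑ i, r i) * ((∏ i, ((r i : ℝ) + 1)) * Real.exp W)) + 1) :
    Real.log (2 * g + 1) ≤ ((m : ℝ) + 2) ^ 2 * W := by
  have hm0 : (0 : ℝ) < m := by exact_mod_cast hm
  have hm1 : (1 : ℝ) ≤ m := by exact_mod_cast hm
  have hW1 : 1 ≤ W := by
    have h1 := hW ⟨0, hm⟩
    have h2 : (1 : ℝ) ≤ r ⟨0, hm⟩ := by exact_mod_cast hr _
    linarith
  have hS : ((∑ i, r i : ℕ) : ℝ) ≤ m * W := by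
    push_cast
    calc ∑ i, (r i : ℝ) ≤ ∑ _i : Fin m, W := Finset.sum_le_sum (fun i _ => hW i)
      _ = m * W := by rw [Finset.sum_const, Finset.card_univ, Fintype.card_fin, nsmul_eq_mul]
  obtain ⟨S, hSd⟩ : ∃ S, S = ∑ i, r i := ⟨_, rfl⟩
  rw [← hSd] at hS hg
  have h2pow : ∀ n : ℕ, (n : ℝ) + 1 ≤ 2 ^ n := by
    intro n
    have : n + 1 ≤ 2 ^ n := Nat.lt_two_pow_self
    exact_mod_cast this
  have hp1 : ∏ i, ((r i : ℝ) + 1) ≤ 2 ^ S := by
    rw [hSd, ← Finset.prod_pow_eq_pow_sum]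
    exact Finset.prod_le_prod (fun i _ => by positivity) (fun i _ => h2pow _)
  have hp2 : ∏ i, (r i : ℝ) ≤ 2 ^ S := by
    rw [hSd, ← Finset.prod_pow_eq_pow_sum]
    apply Finset.prod_le_prod (fun i _ => by positivity)
    intro i _
    have := h2pow (r i)
    linarith
  have hmm : (m : ℝ) ^ m ≤ Real.exp (m * m) := by
    rw [Real.exp_nat_mul]
    apply pow_le_pow_left₀ hm0.le
    have := Real.add_one_le_exp (m : ℝ)
    linarith
  have h2S : ((2 : ℝ) ^ S) ≤ Real.exp (S * (7 / 10)) := by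
    rw [Real.exp_nat_mul]
    apply pow_le_pow_left₀ (by norm_num)
    rw [← Real.log_le_iff_le_exp (by norm_num)]
    have := Real.log_two_lt_d9
    linarith
  have hbig : (∏ i, ((r i : ℝ) + 1)) * ((m : ℝ) ^ m * ∏ i, (r i : ℝ)) *
      (2 ^ S * ((∏ i, ((r i : ℝ) + 1)) * Real.exp W)) ≤
      Real.exp (m * m + 4 * (S * (7 / 10)) + W) := by
    have e1 : Real.exp (m * m + 4 * (S * (7 / 10)) + W) =
        (Real.exp (S * (7 / 10))) * (Real.exp (m * m) * Real.exp (S * (7 / 10))) *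
        (Real.exp (S * (7 / 10)) * (Real.exp (S * (7 / 10)) * Real.exp W)) := by
      simp only [← Real.exp_add]; congr 1; ring
    rw [e1]
    have q0 : (0 : ℝ) ≤ ∏ i, ((r i : ℝ) + 1) := Finset.prod_nonneg (fun i _ => by positivity)
    have q1 : (0 : ℝ) ≤ ∏ i, (r i : ℝ) := Finset.prod_nonneg (fun i _ => by positivity)
    apply mul_le_mul
    · apply mul_le_mul (hp1.trans h2S) _ (by positivity) (by positivity)
      exact mul_le_mul hmm (hp2.trans h2S) q1 (by positivity)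
    · apply mul_le_mul h2S _ (by positivity) (by positivity)
      exact mul_le_mul_of_nonneg_right (hp1.trans h2S) (Real.exp_pos _).le
    · positivity
    · positivity
  have hY : (1 : ℝ) ≤ Real.exp (m * m + 4 * (S * (7 / 10)) + W) :=
    Real.one_le_exp (by positivity)
  have h5 : (2 * (g : ℝ) + 1) ≤ Real.exp (m * m + 4 * (S * (7 / 10)) + W + 2) := by
    have h6 : Real.exp (m * m + 4 * (S * (7 / 10)) + W + 2) =
        Real.exp (m * m + 4 * (S * (7 / 10)) + W) * Real.exp 2 := by rw [Real.exp_add]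
    have h7 : (5 : ℝ) ≤ Real.exp 2 := by
      have h8 : Real.exp 2 = Real.exp 1 * Real.exp 1 := by rw [← Real.exp_add]; norm_num
      have h9 := Real.exp_one_gt_d9
      rw [h8]; nlinarith
    rw [h6]
    nlinarith
  have hpos : (0 : ℝ) < 2 * (g : ℝ) + 1 := by positivity
  calc Real.log (2 * g + 1) ≤ m * m + 4 * (S * (7 / 10)) + W + 2 := by
        rw [Real.log_le_iff_le_exp hpos]; exact h5
    _ ≤ ((m : ℝ) + 2) ^ 2 * W := by
        have hmm2 : (m : ℝ) * m ≤ m * m * W := le_mul_of_one_le_right (by positivity) hW1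
        nlinarith

end Pool.Agent.H723.PT
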