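import Pool.Agent.H723.PT.Chain

set_option autoImplicit false

open Finset

namespace Pool.Agent.H723.PT

open Pool.Agent.H393R2.RothNS

variable {m : ℕ}

theorem ass_facts {R : Type*} [CommRing R] [IsNoetherianRing R] (I : Ideal R) :
    ∃ PP : Finset (Ideal R), (∀ P ∈ PP, P.IsPrime ∧ ∃ u, u ∉ I ∧ ∀ c, c ∈ P ↔ c * u ∈ I) ∧
      ∀ z, (∀ P ∈ PP, z ∉ P) → Nz z I := by
  classical
  have hfin : (associatedPrimes R (R ⧸ I)).Finite := associatedPrimes.finite R (R ⧸ I)
  refine ⟨hfin.toFinset, ?_, ?_⟩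
  · intro P hP
    rw [Set.Finite.mem_toFinset] at hP
    have hP' : IsAssociatedPrime P (R ⧸ I) := hP
    rw [isAssociatedPrime_iff] at hP'
    obtain ⟨hprime, y, hy⟩ := hP'
    obtain ⟨u, rfl⟩ := Ideal.Quotient.mk_surjective y
    have key : ∀ c, c ∈ P ↔ c * u ∈ I := by
      intro c
      rw [hy, Submodule.mem_colon_singleton, Submodule.mem_bot]
      rw [← Ideal.Quotient.eq_zero_iff_mem, map_mul]
      rfl
    refine ⟨hprime, u, ?_, key⟩
    intro hu
    apply hprime.ne_top
    rw [Ideal.eq_top_iff_one, key, one_mul]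
    exact hu
  · intro z hz y hy
    by_contra hyI
    have h0 : (Ideal.Quotient.mk I y : R ⧸ I) ≠ 0 := by
      rwa [Ne, Ideal.Quotient.eq_zero_iff_mem]
    obtain ⟨P, hP, hle⟩ := exists_le_isAssociatedPrime_of_isNoetherianRing R (Ideal.Quotient.mk I y) h0
    refine hz P ?_ ?_
    · rw [Set.Finite.mem_toFinset]; exact hP
    · apply hle
      rw [Submodule.mem_colon_singleton, Submodule.mem_bot]
      have : z • (Ideal.Quotient.mk I y : R ⧸ I) = Ideal.Quotient.mk I (z * y) := by
        rw [map_mul]; rfl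
      rw [this, Ideal.Quotient.eq_zero_iff_mem]
      exact hy

theorem tr_chain {n : ℕ} (Q : Fin (n + 1) → Ideal (Pm m)) (hQ : StrictMono Q)
    (hP : ∀ i, (Q i).IsPrime) : n ≤ tr (Q 0) := by
  have key : ∀ k : ℕ, ∀ hk : k < n + 1, n - k ≤ tr (Q ⟨k, hk⟩) := by
    intro k
    induction h : n - k generalizing k with
    | zero => intro hk; omega
    | succ j ih =>
      intro hk
      have h1 := ih (k + 1) (by omega) (by omega)
      have h2 := tr_lt (hP ⟨k, hk⟩) (hP ⟨k + 1, by omega⟩) (hQ (by simp [Fin.lt_def]))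
      omega
  have := key 0 (by omega)
  simpa using this

theorem pb_prime {x : Fin m → ℚ} {P : Ideal (Rx x)} (hP : P.IsPrime) : (pb x P).IsPrime :=
  Ideal.comap_isPrime _ _

theorem pb_le_Mx {x : Fin m → ℚ} {P : Ideal (Rx x)} (hP : P ≠ ⊤) : pb x P ≤ Mx x := by
  intro f hf
  by_contra hfx
  apply hP
  rw [Ideal.eq_top_iff_one]
  have hu : IsUnit (algebraMap (Pm m) (Rx x) f) :=
    IsLocalization.map_units (Rx x) (⟨f, hfx⟩ : (Mx x).primeCompl)
  obtain ⟨u, hu⟩ := hu
  have : (1 : Rx x) = ↑u⁻¹ * algebraMap (Pm m) (Rx x) f := by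
    rw [← hu]; simp
  rw [this]
  exact Ideal.mul_mem_left _ _ hf

theorem pb_strictMono {x : Fin m → ℚ} {P Q : Ideal (Rx x)} (h : P < Q) : pb x P < pb x Q := by
  refine lt_of_le_of_ne (Ideal.comap_mono h.le) ?_
  intro heq
  apply h.ne
  have h1 := IsLocalization.map_under (Mx x).primeCompl (Rx x) P
  have h2 := IsLocalization.map_under (Mx x).primeCompl (Rx x) Q
  rw [← h1, ← h2]
  unfold pb at heq
  show Ideal.map _ (Ideal.comap _ P) = Ideal.map _ (Ideal.comap _ Q)
  rw [heq]

theorem tr_ass {x : Fin m → ℚ} {k : ℕ} {I : Ideal (Rx x)} (hI : Dp k I) {P : Ideal (Rx x)}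
    (hP : P.IsPrime) (u : Rx x) (hu : u ∉ I) (hPu : ∀ c, c ∈ P ↔ c * u ∈ I) :
    k ≤ tr (pb x P) := by
  obtain ⟨Q, hQ, hQp, hQ0⟩ := dp_chain k I hI P hP u hu hPu
  have := tr_chain (fun i => pb x (Q i)) (fun i j hij => pb_strictMono (hQ hij))
    (fun i => pb_prime (hQp i))
  simpa [hQ0] using this

/-- the number of incomparable primes over an ideal of a chain -/
theorem card_primes_le {x : Fin m → ℚ} {adm : Zm m → Prop} {d : Fin m → ℕ} {g : ℕ}
    (hd0 : ∀ i, 0 < d i)
    (hadm : ∀ G, adm G → (∀ a ∈ G.support, ∀ i, a i ≤ d i) ∧ l1 G ≤ g)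
    (j : ℕ) (hj : j ≤ m) (I : Ideal (Rx x)) (hI : Ch x adm j I) {ι : Type} [Fintype ι]
    (P : ι → Ideal (Pm m)) (hP : ∀ i, (P i).IsPrime) (hJ : ∀ i, pb x I ≤ P i)
    (hinc : ∀ i k, P i ≤ P k → i = k) (htr : ∀ i, m - j ≤ tr (P i)) :
    Fintype.card ι ≤ (j + 1) ^ m * ∏ i, d i := by
  classical
  choose E hE hEc using fun i => exists_tr (hP i).ne_top
  obtain ⟨D, hD⟩ := nu_ge_primes (pb x I) P hP hJ hinc E hE
  have key : ∀ t : ℕ, 1 ≤ t →
      ((Fintype.card ι : ℕ) : ℝ) * (t : ℝ) ^ m ≤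
        ∏ i : Fin m, ((((j + 1) * d i : ℕ) : ℝ) * t + ((D + 1 : ℕ) : ℝ)) := by
    intro t ht
    have h1 : ∀ h : ℕ, 1 ≤ h →
        h ^ ((∑ i, ∏ e ∈ E i, (t * d e + 1)) * t ^ j) ≤
          ((2 * g + 1) ^ (j * t) * D * h) ^ (∏ i, ((j + 1) * d i * t + (D + 1))) := by
      intro h hh
      have h2 := hD (fun e => t * d e) h hh
      have h3 : 1 ≤ D * h := by
        by_contra hcon
        have h4 : D * h = 0 := by omega
        have h5 : nu (pb x I) (fun i => t * d i + D) (D * h) = 0 := by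
          rw [h4]
          unfold nu
          have : Bx (m := m) (fun i => t * d i + D) 0 = ∅ := by
            ext f
            simp only [Set.mem_empty_iff_false, iff_false]
            intro hf
            have := hf.2 0
            push_cast at this
            omega
          rw [this]; simp
        rw [h5] at h2
        have h6 : 0 < h ^ (∑ i, ∏ e ∈ E i, (t * d e + 1)) := Nat.pow_pos (by omega)
        omega
      have h4 := ch_count hadm j I hI (fun i => t * d i + D) (D * h) h3 t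
      calc h ^ ((∑ i, ∏ e ∈ E i, (t * d e + 1)) * t ^ j)
          = (h ^ (∑ i, ∏ e ∈ E i, (t * d e + 1))) ^ (t ^ j) := by rw [pow_mul]
        _ ≤ (nu (pb x I) (fun i => t * d i + D) (D * h)) ^ (t ^ j) := Nat.pow_le_pow_left h2 _
        _ ≤ _ := h4
        _ = _ := by
            congr 1
            · ring
            · apply Finset.prod_congr rfl
              intro i _
              ring
    have h2 := le_of_pow_le _ _ _ h1
    have h3 : Fintype.card ι * t ^ m ≤ (∑ i, ∏ e ∈ E i, (t * d e + 1)) * t ^ j := by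
      have h4 : ∀ i : ι, t ^ (m - j) ≤ ∏ e ∈ E i, (t * d e + 1) := by
        intro i
        calc t ^ (m - j) ≤ t ^ (#(E i)) := by
              apply Nat.pow_le_pow_right ht
              rw [hEc]; exact htr i
          _ = ∏ e ∈ E i, t := by rw [Finset.prod_const]
          _ ≤ ∏ e ∈ E i, (t * d e + 1) := by
              apply Finset.prod_le_prod' 
              intro e _
              have := hd0 e
              nlinarith
      have h5 : Fintype.card ι * t ^ (m - j) ≤ ∑ i, ∏ e ∈ E i, (t * d e + 1) := by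
        calc Fintype.card ι * t ^ (m - j) = ∑ _i : ι, t ^ (m - j) := by
              rw [Finset.sum_const, Finset.card_univ, smul_eq_mul]
          _ ≤ _ := Finset.sum_le_sum (fun i _ => h4 i)
      calc Fintype.card ι * t ^ m = Fintype.card ι * t ^ (m - j) * t ^ j := by
            rw [mul_assoc, ← pow_add, Nat.sub_add_cancel hj]
        _ ≤ _ := Nat.mul_le_mul_right _ h5
    exact_mod_cast h3.trans h2
  have h2 := lead_le m _ _ _ (fun i => by positivity) (fun i => by positivity) key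
  have h3 : ∏ i : Fin m, (((j + 1) * d i : ℕ) : ℝ) = (((j + 1) ^ m * ∏ i, d i : ℕ) : ℝ) := by
    push_cast
    rw [Finset.prod_mul_distrib, Finset.prod_const, Finset.card_univ, Fintype.card_fin]
  rw [h3] at h2
  exact_mod_cast h2

end Pool.Agent.H723.PT
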