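import Pool.Agent.H723.PT.Sel

set_option autoImplicit false

open Finset

namespace Pool.Agent.H723.PT

open Pool.Agent.H393R2.RothNS

variable {m : ℕ}

theorem toQ_smul_sum {κ : Type*} (K : Finset κ) (c : κ → ℕ) (f : κ → Zm m) :
    toQ (∑ k ∈ K, (c k : ℤ) • f k) = ∑ k ∈ K, (c k : ℚ) • toQ (f k) := by
  rw [map_sum]
  apply Finset.sum_congr rfl
  intro k _
  rw [map_zsmul]
  rw [← Int.cast_smul_eq_zsmul ℚ]
  push_cast
  rfl

/-- a finite set of primes can be replaced by its maximal elements -/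
theorem exists_max_primes (PP : Finset (Ideal (Pm m))) :
    ∃ QQ : Finset (Ideal (Pm m)), QQ ⊆ PP ∧ (∀ P ∈ PP, ∃ Q ∈ QQ, P ≤ Q) ∧
      ∀ P ∈ QQ, ∀ Q ∈ QQ, P ≤ Q → P = Q := by
  classical
  refine ⟨PP.filter (fun P => ∀ Q ∈ PP, P ≤ Q → P = Q), Finset.filter_subset _ _, ?_, ?_⟩
  · intro P hP
    obtain ⟨Q, hPQ, hQ⟩ := PP.exists_le_maximal hP
    refine ⟨Q, ?_, hPQ⟩
    rw [Finset.mem_filter]
    refine ⟨hQ.prop, ?_⟩
    intro Q' hQ' hle
    exact le_antisymm hle (hQ.le_of_ge hQ' hle)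
  · intro P hP Q hQ hle
    exact (Finset.mem_filter.mp hP).2 Q (Finset.mem_filter.mp hQ).1 hle

/-- **One step of the selection of the regular sequence.** -/
theorem sel_step {x : Fin m → ℚ} {adm : Zm m → Prop} {d : Fin m → ℕ} {g : ℕ}
    (hd0 : ∀ i, 0 < d i)
    (hadm : ∀ G, adm G → (∀ a ∈ G.support, ∀ i, a i ≤ d i) ∧ l1 G ≤ g)
    (j : ℕ) (hj : j < m) (I : Ideal (Rx x)) (hI : Ch x adm j I) (hDp : Dp (m - j) I)
    {κ : Type} (K : Finset κ) (f : κ → Zm m) (hfx : ∀ k ∈ K, toQ (f k) ∈ Mx x)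
    (hex : ∀ q : Ideal (Pm m), q.IsPrime → q ≤ Mx x → m - j ≤ tr q → ∃ k ∈ K, toQ (f k) ∉ q)
    (hcomb : ∀ c : κ → ℕ, (∀ k, c k ≤ (j + 1) ^ m * ∏ i, d i) →
      adm (∑ k ∈ K, (c k : ℤ) • f k)) :
    ∃ I' : Ideal (Rx x), Ch x adm (j + 1) I' ∧ Dp (m - (j + 1)) I' := by
  classical
  obtain ⟨PP, hPP, hz⟩ := ass_facts I
  obtain ⟨QQ, hQP, hQmax, hQinc⟩ := exists_max_primes (PP.image (pb x))
  have hmem : ∀ q ∈ QQ, q.IsPrime ∧ q ≤ Mx x ∧ m - j ≤ tr q ∧ pb x I ≤ q := by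
    intro q hq
    obtain ⟨P, hP, rfl⟩ := Finset.mem_image.mp (hQP hq)
    obtain ⟨hprime, u, hu, huP⟩ := hPP P hP
    refine ⟨pb_prime hprime, pb_le_Mx hprime.ne_top, tr_ass hDp hprime u hu huP, ?_⟩
    apply Ideal.comap_mono
    intro c hc
    rw [huP]
    exact Ideal.mul_mem_right _ _ hc
  have hcard : #QQ ≤ (j + 1) ^ m * ∏ i, d i := by
    have := card_primes_le hd0 hadm j hj.le I hI (ι := QQ) (fun q => q.1)
      (fun q => (hmem q.1 q.2).1) (fun q => (hmem q.1 q.2).2.2.2)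
      (fun q q' h => Subtype.ext (hQinc q.1 q.2 q'.1 q'.2 h)) (fun q => (hmem q.1 q.2).2.2.1)
    simpa using this
  obtain ⟨c, hc, hcP⟩ := exists_comb K (fun k => toQ (f k)) QQ _ hcard (fun q hq =>
    hex q (hmem q hq).1 (hmem q hq).2.1 (hmem q hq).2.2.1)
  set G : Zm m := ∑ k ∈ K, (c k : ℤ) • f k with hG
  have hGQ : toQ G = ∑ k ∈ K, (c k : ℚ) • toQ (f k) := toQ_smul_sum K c f
  have hGadm : adm G := hcomb c hc
  have hGx : toQ G ∈ Mx x := by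
    rw [hGQ]
    apply Ideal.sum_mem
    intro k hk
    rw [MvPolynomial.smul_eq_C_mul]
    exact Ideal.mul_mem_left _ _ (hfx k hk)
  have hnz : Nz (algebraMap (Pm m) (Rx x) (toQ G)) I := by
    apply hz
    intro P hP hmemP
    obtain ⟨Q, hQ, hle⟩ := hQmax (pb x P) (Finset.mem_image_of_mem _ hP)
    apply hcP Q hQ
    rw [← hGQ]
    exact hle hmemP
  refine ⟨_, Ch.succ G hI hGadm hnz, ?_⟩
  have h1 : m - j = (m - (j + 1)) + 1 := by omega
  rw [h1] at hDp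
  apply dp_drop _ _ _ hDp _ hnz
  rw [← IsLocalization.AtPrime.map_eq_maximalIdeal (Mx x) (Rx x)]
  exact Ideal.mem_map_of_mem _ hGx

/-- **Selection of the regular sequence.** -/
theorem sel {x : Fin m → ℚ} {adm : Zm m → Prop} {d : Fin m → ℕ} {g : ℕ}
    (hd0 : ∀ i, 0 < d i)
    (hadm : ∀ G, adm G → (∀ a ∈ G.support, ∀ i, a i ≤ d i) ∧ l1 G ≤ g)
    (s : ℕ) (hs : s ≤ m) {κ : Type} (K : Finset κ) (f : κ → Zm m)
    (hfx : ∀ k ∈ K, toQ (f k) ∈ Mx x)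
    (hex : ∀ q : Ideal (Pm m), q.IsPrime → q ≤ Mx x → m - s < tr q → ∃ k ∈ K, toQ (f k) ∉ q)
    (hcomb : ∀ c : κ → ℕ, (∀ k, c k ≤ m ^ m * ∏ i, d i) →
      adm (∑ k ∈ K, (c k : ℤ) • f k)) :
    ∃ I : Ideal (Rx x), Ch x adm s I := by
  have key : ∀ j, j ≤ s → ∃ I : Ideal (Rx x), Ch x adm j I ∧ Dp (m - j) I := by
    intro j
    induction j with
    | zero =>
      intro _
      exact ⟨⊥, Ch.zero, by simpa using dp_point x⟩
    | succ j ih =>
      intro hj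
      obtain ⟨I, hI, hDp⟩ := ih (by omega)
      refine sel_step hd0 hadm j (by omega) I hI hDp K f hfx ?_ ?_
      · intro q hq hqx htr
        exact hex q hq hqx (by omega)
      · intro c hc
        apply hcomb
        intro k
        refine (hc k).trans (Nat.mul_le_mul_right _ ?_)
        exact Nat.pow_le_pow_left (by omega) _
  obtain ⟨I, hI, _⟩ := key s le_rfl
  exact ⟨I, hI⟩

end Pool.Agent.H723.PT
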