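import Pool.Agent.H723.PT.Defs

set_option autoImplicit false

open Finset

namespace Pool.Agent.H723.PT

open Pool.Agent.H393R2.RothNS

namespace DpDrop

theorem mem_adj {R : Type*} [CommRing R] {J : Ideal R} {z x : R} :
    x ∈ J ⊔ Ideal.span {z} ↔ ∃ v, x - z * v ∈ J := by
  rw [Submodule.mem_sup]
  constructor
  · rintro ⟨j, hj, y, hy, rfl⟩
    obtain ⟨a, rfl⟩ := Ideal.mem_span_singleton'.mp hy
    refine ⟨a, ?_⟩
    have : j + a * z - z * a = j := by ring
    rwa [this]
  · rintro ⟨v, hv⟩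
    exact ⟨_, hv, z * v, Ideal.mul_mem_right _ _ (Ideal.mem_span_singleton_self z), by ring⟩

/-- the maximal ideal is not associated to `R ⧸ I` -/
def No {R : Type*} [CommRing R] [IsLocalRing R] (I : Ideal R) : Prop :=
  ∀ u, (∀ c ∈ IsLocalRing.maximalIdeal R, c * u ∈ I) → u ∈ I

theorem no_of_nz {R : Type*} [CommRing R] [IsLocalRing R] {I : Ideal R} {z : R}
    (hz : z ∈ IsLocalRing.maximalIdeal R) (h : Nz z I) : No I :=
  fun u hu => h u (hu z hz)

theorem perm {R : Type*} [CommRing R] {J : Ideal R} {a b : R} (ha : Nz a (J ⊔ Ideal.span {b}))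
    (hb : Nz b J) : Nz b (J ⊔ Ideal.span {a}) := by
  intro y hy
  obtain ⟨v, hv⟩ := mem_adj.mp hy
  have h1 : a * v ∈ J ⊔ Ideal.span {b} := by
    refine mem_adj.mpr ⟨y, ?_⟩
    have : a * v - b * y = -(b * y - a * v) := by ring
    rw [this]
    exact J.neg_mem hv
  obtain ⟨v', hv'⟩ := mem_adj.mp (ha v h1)
  refine mem_adj.mpr ⟨v', hb _ ?_⟩
  have : b * (y - a * v') = (b * y - a * v) + a * (v - b * v') := by ring
  rw [this]
  exact J.add_mem hv (J.mul_mem_left _ hv')

theorem not_nz {R : Type*} [CommRing R] {I : Ideal R} {w : R} (h : ¬ Nz w I) :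
    w ∈ { r : R | ∃ x : R ⧸ I, x ≠ 0 ∧ r • x = 0 } := by
  unfold Nz at h
  push Not at h
  obtain ⟨y, hy1, hy2⟩ := h
  refine ⟨Ideal.Quotient.mk I y, ?_, ?_⟩
  · rwa [Ne, Ideal.Quotient.eq_zero_iff_mem]
  · have : w • (Ideal.Quotient.mk I y) = Ideal.Quotient.mk I (w * y) := by
      rw [← smul_eq_mul]; rfl
    rw [this, Ideal.Quotient.eq_zero_iff_mem]
    exact hy1

theorem not_assoc {R : Type*} [CommRing R] [IsLocalRing R] [IsNoetherianRing R] {I : Ideal R}
    (h : No I) : IsLocalRing.maximalIdeal R ∉ associatedPrimes R (R ⧸ I) := by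
  intro hm
  rw [AssociatedPrimes.mem_iff, isAssociatedPrime_iff] at hm
  obtain ⟨hp, x, hx⟩ := hm
  obtain ⟨u, rfl⟩ := Ideal.Quotient.mk_surjective x
  have h1 : u ∈ I := by
    refine h u (fun c hc => ?_)
    rw [hx, Submodule.mem_colon_singleton, Submodule.mem_bot] at hc
    have : c • (Ideal.Quotient.mk I u) = Ideal.Quotient.mk I (c * u) := by
      rw [← smul_eq_mul]; rfl
    rw [this, Ideal.Quotient.eq_zero_iff_mem] at hc
    exact hc
  have h2 : (1 : R) ∈ IsLocalRing.maximalIdeal R := by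
    rw [hx, Submodule.mem_colon_singleton, Submodule.mem_bot, Ideal.Quotient.eq_zero_iff_mem.mpr h1,
      smul_zero]
  exact hp.ne_top ((Ideal.eq_top_iff_one _).mpr h2)

theorem avoid {R : Type*} [CommRing R] [IsLocalRing R] [IsNoetherianRing R] {I1 I2 I3 : Ideal R}
    (h1 : No I1) (h2 : No I2) (h3 : No I3) :
    ∃ w ∈ IsLocalRing.maximalIdeal R, Nz w I1 ∧ Nz w I2 ∧ Nz w I3 := by
  classical
  by_contra hcon
  push Not at hcon
  have hf1 := associatedPrimes.finite R (R ⧸ I1)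
  have hf2 := associatedPrimes.finite R (R ⧸ I2)
  have hf3 := associatedPrimes.finite R (R ⧸ I3)
  let s : Finset (Ideal R) := hf1.toFinset ∪ hf2.toFinset ∪ hf3.toFinset
  have hs : ∀ p ∈ s, p ∈ associatedPrimes R (R ⧸ I1) ∨ p ∈ associatedPrimes R (R ⧸ I2) ∨
      p ∈ associatedPrimes R (R ⧸ I3) := by
    intro p hp
    simp only [s, mem_union, Set.Finite.mem_toFinset] at hp
    tauto
  have hpr : ∀ p ∈ s, p.IsPrime := by
    intro p hp
    rcases hs p hp with h | h | h <;> exact IsAssociatedPrime.isPrime h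
  have hsub : ((IsLocalRing.maximalIdeal R : Ideal R) : Set R) ⊆
      ⋃ i ∈ (↑s : Set (Ideal R)), ((id i : Ideal R) : Set R) := by
    intro w hw
    have key : ∀ {I : Ideal R}, ¬ Nz w I → (∀ p ∈ associatedPrimes R (R ⧸ I), p ∈ s) →
        w ∈ ⋃ i ∈ (↑s : Set (Ideal R)), ((id i : Ideal R) : Set R) := by
      intro I hI hIs
      have := not_nz hI
      rw [← biUnion_associatedPrimes_eq_zero_divisors] at this
      simp only [Set.mem_iUnion] at this ⊢
      obtain ⟨p, hp, hwp⟩ := this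
      exact ⟨p, hIs p hp, hwp⟩
    by_cases n1 : Nz w I1
    · by_cases n2 : Nz w I2
      · refine key (hcon w hw n1 n2) (fun p hp => ?_)
        simp only [s, mem_union, Set.Finite.mem_toFinset]
        exact Or.inr hp
      · refine key n2 (fun p hp => ?_)
        simp only [s, mem_union, Set.Finite.mem_toFinset]
        exact Or.inl (Or.inr hp)
    · refine key n1 (fun p hp => ?_)
      simp only [s, mem_union, Set.Finite.mem_toFinset]
      exact Or.inl (Or.inl hp)
  obtain ⟨p, hp, hle⟩ := (Ideal.subset_union_prime (s := s) (f := id) ⊥ ⊥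
    (fun i hi _ _ => hpr i hi)).mp hsub
  have hpm : IsLocalRing.maximalIdeal R = p :=
    (IsLocalRing.maximalIdeal.isMaximal R).eq_of_le (hpr p hp).ne_top hle
  rw [← hpm] at hp
  rcases hs _ hp with h | h | h
  · exact not_assoc h1 h
  · exact not_assoc h2 h
  · exact not_assoc h3 h

end DpDrop

open DpDrop in
/-- **Depth drops by one.**  Elementary, no Ext needed. -/
theorem dp_drop {R : Type*} [CommRing R] [IsLocalRing R] [IsNoetherianRing R] (n : ℕ)
    (J : Ideal R) (G : R) (hJ : Dp (n + 1) J) (hG : G ∈ IsLocalRing.maximalIdeal R)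
    (hz : Nz G J) : Dp n (J ⊔ Ideal.span {G}) := by
  induction n generalizing J G with
  | zero =>
    obtain ⟨z, hzm, hzJ, hd⟩ := hJ
    have hd' : J ⊔ Ideal.span {z} ≠ ⊤ := hd
    have hJt : J ≠ ⊤ := by
      rintro rfl
      exact hd' (by simp)
    have h1 : J ≤ IsLocalRing.maximalIdeal R := IsLocalRing.le_maximalIdeal hJt
    have h2 : J ⊔ Ideal.span {G} ≤ IsLocalRing.maximalIdeal R :=
      sup_le h1 ((Ideal.span_singleton_le_iff_mem _).mpr hG)
    show J ⊔ Ideal.span {G} ≠ ⊤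
    intro h
    rw [h] at h2
    exact (IsLocalRing.maximalIdeal.isMaximal R).ne_top (top_le_iff.mp h2)
  | succ n ih =>
    obtain ⟨z1, hz1m, hz1J, hd⟩ := hJ
    obtain ⟨z2, hz2m, hz2J, -⟩ := id hd
    have no1 : No J := no_of_nz hz1m hz1J
    have no2 : No (J ⊔ Ideal.span {z1}) := no_of_nz hz2m hz2J
    have no3 : No (J ⊔ Ideal.span {G}) := by
      intro u hu
      obtain ⟨v, hv⟩ := mem_adj.mp (hu z1 hz1m)
      have hvz : v ∈ J ⊔ Ideal.span {z1} := by
        refine no2 v (fun c hc => ?_)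
        obtain ⟨vc, hvc⟩ := mem_adj.mp (hu c hc)
        refine mem_adj.mpr ⟨vc, ?_⟩
        have h1 : G * (c * v - z1 * vc) ∈ J := by
          have : G * (c * v - z1 * vc) = z1 * (c * u - G * vc) - c * (z1 * u - G * v) := by ring
          rw [this]
          exact J.sub_mem (J.mul_mem_left _ hvc) (J.mul_mem_left _ hv)
        exact hz _ h1
      obtain ⟨v', hv'⟩ := mem_adj.mp hvz
      refine mem_adj.mpr ⟨v', hz1J _ ?_⟩
      have : z1 * (u - G * v') = (z1 * u - G * v) + G * (v - z1 * v') := by ring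
      rw [this]
      exact J.add_mem hv (J.mul_mem_left _ hv')
    obtain ⟨w, hwm, hw1, hw2, hw3⟩ := avoid no1 no2 no3
    have e1 : Dp n ((J ⊔ Ideal.span {z1}) ⊔ Ideal.span {w}) := ih _ w hd hwm hw2
    have e2 : Dp (n + 1) (J ⊔ Ideal.span {w}) := by
      refine ⟨z1, hz1m, perm hw2 hz1J, ?_⟩
      rwa [sup_right_comm]
    have e3 : Dp n ((J ⊔ Ideal.span {w}) ⊔ Ideal.span {G}) := ih _ G e2 hG (perm hw3 hz)
    refine ⟨w, hwm, hw3, ?_⟩
    rwa [sup_right_comm]

end Pool.Agent.H723.PT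

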