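import Pool.Agent.H723.PT.Defs

set_option autoImplicit false

open Finset

namespace Pool.Agent.H723.PT

open Pool.Agent.H393R2.RothNS

/-- the exponents -/
private noncomputable def T10S {m : ℕ} (n : Fin m → ℕ) : Finset (Fin m →₀ ℕ) :=
  (Fintype.piFinset fun i => range (n i + 1)).map Finsupp.equivFunOnFinite.symm.toEmbedding

private theorem T10_mem {m : ℕ} (n : Fin m → ℕ) (a : Fin m →₀ ℕ) :
    a ∈ T10S n ↔ ∀ i, a i ≤ n i := by
  unfold T10S
  rw [mem_map]
  constructor
  · rintro ⟨f, hf, rfl⟩ i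
    rw [Fintype.mem_piFinset] at hf
    have := hf i
    rw [mem_range] at this
    exact Nat.lt_succ_iff.1 this
  · intro h
    refine ⟨fun i => a i, ?_, ?_⟩
    · rw [Fintype.mem_piFinset]
      intro i
      rw [mem_range]
      exact Nat.lt_succ_iff.2 (h i)
    · ext i
      rfl

private theorem T10_card {m : ℕ} (n : Fin m → ℕ) : #(T10S n) = ∏ i, (n i + 1) := by
  unfold T10S
  rw [card_map, Fintype.card_piFinset]
  exact Finset.prod_congr rfl fun i _ => card_range _

/-- the polynomial with given coefficients -/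
private noncomputable def T10f {m h : ℕ} (n : Fin m → ℕ) (c : {a // a ∈ T10S n} → Fin h) : Zm m :=
  ∑ a : {a // a ∈ T10S n}, MvPolynomial.monomial (a : Fin m →₀ ℕ) (((c a : ℕ)) : ℤ)

private theorem T10_coeff {m h : ℕ} (n : Fin m → ℕ) (c : {a // a ∈ T10S n} → Fin h)
    (b : Fin m →₀ ℕ) (hb : b ∈ T10S n) : (T10f n c).coeff b = ((c ⟨b, hb⟩ : ℕ) : ℤ) := by
  classical
  unfold T10f
  rw [MvPolynomial.coeff_sum, Finset.sum_eq_single ⟨b, hb⟩]
  · rw [MvPolynomial.coeff_monomial, if_pos rfl]
  · intro a _ hne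
    rw [MvPolynomial.coeff_monomial, if_neg]
    intro h1
    exact hne (Subtype.ext h1)
  · intro h1
    exact absurd (mem_univ _) h1

private theorem T10_coeff' {m h : ℕ} (n : Fin m → ℕ) (c : {a // a ∈ T10S n} → Fin h)
    (b : Fin m →₀ ℕ) (hb : b ∉ T10S n) : (T10f n c).coeff b = 0 := by
  classical
  unfold T10f
  rw [MvPolynomial.coeff_sum]
  refine Finset.sum_eq_zero fun a _ => ?_
  rw [MvPolynomial.coeff_monomial, if_neg]
  rintro h1
  exact hb (h1 ▸ a.2)

private theorem T10_inj {m h : ℕ} (n : Fin m → ℕ) :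
    Function.Injective (T10f n : ({a // a ∈ T10S n} → Fin h) → Zm m) := by
  intro c c' hcc
  funext a
  have h1 := congrArg (MvPolynomial.coeff (a : Fin m →₀ ℕ)) hcc
  rw [T10_coeff n c a a.2, T10_coeff n c' a a.2] at h1
  exact Fin.ext (by exact_mod_cast h1)

/-- the polynomials in independent variables with coefficients in `[0, h)` -/
theorem psi_ind {m : ℕ} (q : Ideal (Pm m)) (E : Finset (Fin m)) (hE : Ind q E) (B : Fin m → ℕ)
    (h : ℕ) : ∃ Ψ : Finset (Zm m), (∀ ψ ∈ Ψ, ψ ∈ Bx (fun i => if i ∈ E then B i else 0) h) ∧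
      (∀ ψ ∈ Ψ, ∀ ψ' ∈ Ψ, ψ ≠ ψ' → toQ ψ - toQ ψ' ∉ q) ∧ #Ψ = h ^ (∏ i ∈ E, (B i + 1)) := by
  classical
  set n : Fin m → ℕ := fun i => if i ∈ E then B i else 0 with hn
  have hbx : ∀ c : {a // a ∈ T10S n} → Fin h, T10f n c ∈ Bx n h := by
    intro c
    refine ⟨?_, ?_⟩
    · intro a ha
      rw [MvPolynomial.mem_support_iff] at ha
      by_contra h1
      exact ha (T10_coeff' n c a fun h2 => h1 ((T10_mem n a).1 h2))
    · intro a
      by_cases ha : a ∈ T10S n
      · rw [T10_coeff n c a ha]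
        exact ⟨Int.natCast_nonneg _, by exact_mod_cast (c ⟨a, ha⟩).2⟩
      · rw [T10_coeff' n c a ha]
        have h0 : (0 : Fin m →₀ ℕ) ∈ T10S n := (T10_mem n 0).2 fun i => Nat.zero_le _
        have h1 := (c ⟨0, h0⟩).2
        refine ⟨le_rfl, ?_⟩
        have h2 : 0 < h := by omega
        exact_mod_cast h2
  refine ⟨univ.image (T10f n : ({a // a ∈ T10S n} → Fin h) → Zm m), ?_, ?_, ?_⟩
  · intro ψ hψ
    rw [mem_image] at hψ
    obtain ⟨c, -, rfl⟩ := hψ
    exact hbx c
  · intro ψ hψ ψ' hψ' hne hq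
    rw [mem_image] at hψ hψ'
    obtain ⟨c, -, rfl⟩ := hψ
    obtain ⟨c', -, rfl⟩ := hψ'
    rw [← map_sub] at hq
    have h1 := hE _ hq ?_
    · apply hne
      have h2 : T10f n c - T10f n c' = 0 := by
        refine MvPolynomial.map_injective (Int.castRingHom ℚ) Int.cast_injective ?_
        rw [map_zero]
        exact h1
      exact sub_eq_zero.1 h2
    · intro i hi
      rw [MvPolynomial.mem_vars_iff_mem_support] at hi
      obtain ⟨a, ha, hia⟩ := hi
      by_contra hiE
      have ha' : a ∉ T10S n := by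
        intro h3
        have h4 := (T10_mem n a).1 h3 i
        rw [hn] at h4
        simp only [if_neg hiE] at h4
        rw [Finsupp.mem_support_iff] at hia
        omega
      rw [MvPolynomial.mem_support_iff] at ha
      apply ha
      unfold toQ
      rw [MvPolynomial.coeff_map, MvPolynomial.coeff_sub, T10_coeff' n c a ha',
        T10_coeff' n c' a ha', sub_zero, map_zero]
  · rw [card_image_of_injective _ (T10_inj n), card_univ, Fintype.card_fun, Fintype.card_fin,
      Fintype.card_coe, T10_card]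
    congr 1
    rw [← Finset.prod_subset (Finset.subset_univ E)]
    · refine Finset.prod_congr rfl fun i hi => ?_
      rw [hn]
      simp only [if_pos hi]
    · intro i _ hi
      rw [hn]
      simp only [if_neg hi, zero_add]

end Pool.Agent.H723.PT
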