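import Pool.Agent.H723.PT.Defs

set_option autoImplicit false

open Finset

namespace Pool.Agent.H723.PT

open Pool.Agent.H393R2.RothNS

open Polynomial in
theorem T11_one (a b : ℤ) (hab : IsCoprime a b) (hb : b ≠ 0) (F : ℤ[X]) (hF : F ≠ 0)
    (h0 : (F.map (Int.castRingHom ℚ)).eval ((a : ℚ) / b) = 0) :
    ∃ t, max a.natAbs b.natAbs ≤ (F.coeff t).natAbs := by
  have hq' : (b : ℚ) ≠ 0 := by exact_mod_cast hb
  have hdvd : (X - C ((a : ℚ) / b)) ∣ F.map (Int.castRingHom ℚ) := by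
    rw [dvd_iff_isRoot]; exact h0
  have hdvd2 : (C b * X + C (-a) : ℤ[X]) ∣ F := by
    rw [Polynomial.IsPrimitive.Int.dvd_iff_map_cast_dvd_map_cast _ _ (lin_primitive a b hab)]
    have : ((C b * X + C (-a) : ℤ[X])).map (Int.castRingHom ℚ) =
        C (b : ℚ) * (X - C ((a : ℚ) / b)) := by
      rw [mul_sub, ← C_mul, mul_div_cancel₀ _ hq', sub_eq_add_neg, ← C_neg]
      simp
    rw [this]
    exact (IsUnit.mul_left_dvd (Polynomial.isUnit_C.mpr (isUnit_iff_ne_zero.mpr hq'))).mpr hdvd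
  obtain ⟨S, hS⟩ := hdvd2
  have hS0 : S ≠ 0 := by rintro rfl; rw [mul_zero] at hS; exact hF hS
  rcases le_total a.natAbs b.natAbs with h | h
  · refine ⟨F.natDegree, ?_⟩
    rw [max_eq_right h]
    have h1 : F.leadingCoeff = b * S.leadingCoeff := by
      rw [hS, leadingCoeff_mul, leadingCoeff_linear hb]
    rw [coeff_natDegree, h1, Int.natAbs_mul]
    exact Nat.le_mul_of_pos_right _ (Int.natAbs_pos.mpr (leadingCoeff_ne_zero.mpr hS0))
  · refine ⟨F.natTrailingDegree, ?_⟩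
    rw [max_eq_left h]
    have hb1 : 0 < b.natAbs := Int.natAbs_pos.mpr hb
    have ha : a ≠ 0 := by
      rintro rfl
      simp at h
      omega
    have h3 : (C b * X + C (-a) : ℤ[X]).trailingCoeff = -a := by
      unfold trailingCoeff
      have h4 : (C b * X + C (-a) : ℤ[X]).natTrailingDegree = 0 := by
        apply natTrailingDegree_eq_zero_of_constantCoeff_ne_zero
        simp [ha]
      rw [h4]
      simp
    have h1 : F.trailingCoeff = -a * S.trailingCoeff := by
      rw [hS, trailingCoeff_mul, h3]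
    have h2 : F.coeff F.natTrailingDegree = F.trailingCoeff := rfl
    rw [h2, h1, Int.natAbs_mul, Int.natAbs_neg]
    exact Nat.le_mul_of_pos_right _
      (Int.natAbs_pos.mpr (trailingCoeff_nonzero_iff_nonzero.mpr hS0))

/-- the substitution `X_{i₀} = r` -/
noncomputable def T11_sub {m : ℕ} (i₀ : Fin m) (r : ℚ) : Pm m →ₐ[ℚ] Pm m :=
  MvPolynomial.aeval (fun i => if i = i₀ then MvPolynomial.C r else MvPolynomial.X i)

theorem T11_sub_mem {m : ℕ} (q : Ideal (Pm m)) (i₀ : Fin m) (r : ℚ)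
    (hx : MvPolynomial.X i₀ - MvPolynomial.C r ∈ q) (f : Pm m) (hf : f ∈ q) :
    T11_sub i₀ r f ∈ q := by
  have key : (Ideal.Quotient.mkₐ ℚ q).comp (T11_sub i₀ r) = Ideal.Quotient.mkₐ ℚ q := by
    apply MvPolynomial.algHom_ext
    intro i
    rw [AlgHom.comp_apply]
    unfold T11_sub
    rw [MvPolynomial.aeval_X]
    split_ifs with h
    · rw [h]
      rw [Ideal.Quotient.mkₐ_eq_mk]
      exact ((Ideal.Quotient.eq (I := q)).mpr hx).symm
    · rfl
  have h1 := DFunLike.congr_fun key f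
  rw [AlgHom.comp_apply, Ideal.Quotient.mkₐ_eq_mk] at h1
  rw [Ideal.Quotient.eq_zero_iff_mem.mpr hf] at h1
  exact Ideal.Quotient.eq_zero_iff_mem.mp h1

theorem T11_sub_monomial {m : ℕ} (i₀ : Fin m) (r : ℚ) (κ : Fin m →₀ ℕ) (c : ℚ) :
    T11_sub i₀ r (MvPolynomial.monomial κ c) =
      MvPolynomial.monomial (κ.erase i₀) (c * r ^ κ i₀) := by
  have h1 : MvPolynomial.monomial κ c = MvPolynomial.monomial (κ.erase i₀) c *
      (MvPolynomial.X i₀ : Pm m) ^ (κ i₀) := by
    rw [MvPolynomial.X_pow_eq_monomial, MvPolynomial.monomial_mul, mul_one,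
      Finsupp.erase_add_single]
  rw [h1, map_mul, map_pow]
  have h2 : T11_sub i₀ r (MvPolynomial.X i₀) = MvPolynomial.C r := by
    unfold T11_sub
    rw [MvPolynomial.aeval_X, if_pos rfl]
  have h3 : T11_sub i₀ r (MvPolynomial.monomial (κ.erase i₀) c) =
      MvPolynomial.monomial (κ.erase i₀) c := by
    unfold T11_sub
    rw [MvPolynomial.aeval_monomial, MvPolynomial.monomial_eq (s := κ.erase i₀)]
    have h4 : ((κ.erase i₀).prod fun i k =>
        (if i = i₀ then MvPolynomial.C r else MvPolynomial.X i : Pm m) ^ k) =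
        ((κ.erase i₀).prod fun n e => (MvPolynomial.X n : Pm m) ^ e) := by
      apply Finset.prod_congr rfl
      intro i hi
      have : i ≠ i₀ := by
        rintro rfl
        rw [Finsupp.mem_support_iff, Finsupp.erase_same] at hi
        exact hi rfl
      simp only [if_neg this]
    rw [h4]
    rfl
  rw [h2, h3, ← map_pow, mul_comm (MvPolynomial.monomial _ c), MvPolynomial.C_mul_monomial,
    mul_comm c]

theorem T11_coeff {m : ℕ} (i₀ : Fin m) (r : ℚ) (δ : Zm m) (β : Fin m →₀ ℕ) :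
    (T11_sub i₀ r (toQ δ)).coeff β =
      ∑ κ ∈ δ.support.filter (fun κ => κ.erase i₀ = β), ((δ.coeff κ : ℤ) : ℚ) * r ^ κ i₀ := by
  have h1 : toQ δ = ∑ κ ∈ δ.support, MvPolynomial.monomial κ ((δ.coeff κ : ℤ) : ℚ) := by
    have h2 : toQ (∑ κ ∈ δ.support, MvPolynomial.monomial κ (δ.coeff κ)) =
        ∑ κ ∈ δ.support, MvPolynomial.monomial κ ((δ.coeff κ : ℤ) : ℚ) := by
      rw [map_sum]
      apply Finset.sum_congr rfl
      intro κ _
      unfold toQ
      rw [MvPolynomial.map_monomial]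
      rfl
    rw [← h2, MvPolynomial.support_sum_monomial_coeff]
  rw [h1, map_sum, MvPolynomial.coeff_sum, Finset.sum_filter]
  apply Finset.sum_congr rfl
  intro κ _
  rw [T11_sub_monomial, MvPolynomial.coeff_monomial]

/-- a nonzero integral polynomial in the variables `insert i₀ E` which vanishes modulo `q` has a
large coefficient -/
theorem T11_ker {m : ℕ} (q : Ideal (Pm m)) (E : Finset (Fin m)) (hE : Ind q E) (i₀ : Fin m)
    (a b : ℤ) (hab : IsCoprime a b) (hb : b ≠ 0)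
    (hx : MvPolynomial.X i₀ - MvPolynomial.C ((a : ℚ) / b) ∈ q) (δ : Zm m)
    (hδ : δ ≠ 0) (hs : ∀ κ ∈ δ.support, ∀ i, i ∉ insert i₀ E → κ i = 0) (hq : toQ δ ∈ q) :
    ∃ κ, max a.natAbs b.natAbs ≤ (δ.coeff κ).natAbs := by
  classical
  have h1 := T11_sub_mem q i₀ _ hx _ hq
  have h2 : T11_sub i₀ ((a : ℚ) / b) (toQ δ) = 0 := by
    apply hE _ h1
    intro i hi
    rw [MvPolynomial.mem_vars_iff_mem_support] at hi
    obtain ⟨β, hβ, hiβ⟩ := hi
    rw [MvPolynomial.mem_support_iff, T11_coeff] at hβ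
    obtain ⟨κ, hκ, -⟩ := Finset.exists_ne_zero_of_sum_ne_zero hβ
    rw [Finset.mem_filter] at hκ
    rw [← hκ.2, Finsupp.support_erase, Finset.mem_erase, Finsupp.mem_support_iff] at hiβ
    by_contra hiE
    apply hiβ.2
    apply hs κ hκ.1
    rw [Finset.mem_insert]
    push Not
    exact ⟨hiβ.1, hiE⟩
  obtain ⟨κ₀, hκ₀⟩ := MvPolynomial.ne_zero_iff.mp hδ
  set β := κ₀.erase i₀ with hβ
  set S := δ.support.filter (fun κ => κ.erase i₀ = β) with hS
  set F : Polynomial ℤ := ∑ κ ∈ S, Polynomial.monomial (κ i₀) (δ.coeff κ) with hF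
  have hcoef : ∀ t, F.coeff t = δ.coeff (β + Finsupp.single i₀ t) := by
    intro t
    rw [hF, Polynomial.finsetSum_coeff]
    simp only [Polynomial.coeff_monomial]
    rw [Finset.sum_eq_single (β + Finsupp.single i₀ t)]
    · rw [if_pos]
      simp [hβ]
    · intro κ hκ hne
      rw [if_neg]
      rintro rfl
      apply hne
      rw [hS, Finset.mem_filter] at hκ
      rw [← hκ.2, Finsupp.erase_add_single]
    · intro hn
      rw [if_pos (by simp [hβ])]
      by_contra hne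
      apply hn
      rw [hS, Finset.mem_filter, MvPolynomial.mem_support_iff]
      refine ⟨hne, ?_⟩
      ext i
      by_cases hi : i = i₀
      · rw [hi, Finsupp.erase_same, hβ, Finsupp.erase_same]
      · rw [Finsupp.erase_ne hi, Finsupp.add_apply, Finsupp.single_eq_of_ne hi, add_zero]
  have hF0 : F ≠ 0 := by
    intro h
    have := hcoef (κ₀ i₀)
    rw [h, Polynomial.coeff_zero, hβ, Finsupp.erase_add_single] at this
    exact hκ₀ this.symm
  have hev : (F.map (Int.castRingHom ℚ)).eval ((a : ℚ) / b) = 0 := by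
    have h3 := T11_coeff i₀ ((a : ℚ) / b) δ β
    rw [h2, MvPolynomial.coeff_zero] at h3
    rw [hF, Polynomial.map_sum, Polynomial.eval_finsetSum, h3]
    apply Finset.sum_congr rfl
    intro κ _
    rw [Polynomial.map_monomial, Polynomial.eval_monomial]
    rfl
  obtain ⟨t, ht⟩ := T11_one a b hab hb F hF0 hev
  exact ⟨_, by rw [← hcoef t]; exact ht⟩

/-- the polynomial with given coefficients in a box -/
noncomputable def T11_poly {m : ℕ} (s : Finset (Fin m →₀ ℕ)) (h : ℕ) (c : {κ // κ ∈ s} → Fin h) :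
    Zm m := ∑ κ : {κ // κ ∈ s}, MvPolynomial.monomial κ.1 ((c κ : ℕ) : ℤ)

theorem T11_poly_coeff {m : ℕ} (s : Finset (Fin m →₀ ℕ)) (h : ℕ) (c : {κ // κ ∈ s} → Fin h)
    (κ : Fin m →₀ ℕ) (hκ : κ ∈ s) : (T11_poly s h c).coeff κ = ((c ⟨κ, hκ⟩ : ℕ) : ℤ) := by
  classical
  unfold T11_poly
  rw [MvPolynomial.coeff_sum, Finset.sum_eq_single (⟨κ, hκ⟩ : {κ // κ ∈ s})]
  · rw [MvPolynomial.coeff_monomial, if_pos rfl]
  · intro κ' _ hne
    rw [MvPolynomial.coeff_monomial, if_neg]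
    intro h'
    exact hne (Subtype.ext h')
  · intro h'
    exact absurd (Finset.mem_univ _) h'

theorem T11_poly_coeff0 {m : ℕ} (s : Finset (Fin m →₀ ℕ)) (h : ℕ) (c : {κ // κ ∈ s} → Fin h)
    (κ : Fin m →₀ ℕ) (hκ : κ ∉ s) : (T11_poly s h c).coeff κ = 0 := by
  classical
  unfold T11_poly
  rw [MvPolynomial.coeff_sum]
  apply Finset.sum_eq_zero
  intro κ' _
  rw [MvPolynomial.coeff_monomial, if_neg]
  rintro rfl
  exact hκ κ'.2

theorem T11_poly_range {m : ℕ} (s : Finset (Fin m →₀ ℕ)) (h : ℕ) (hh : 0 < h)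
    (c : {κ // κ ∈ s} → Fin h)
    (κ : Fin m →₀ ℕ) : 0 ≤ (T11_poly s h c).coeff κ ∧ (T11_poly s h c).coeff κ < (h : ℤ) := by
  by_cases hκ : κ ∈ s
  · rw [T11_poly_coeff s h c κ hκ]
    exact ⟨by positivity, by exact_mod_cast (c ⟨κ, hκ⟩).2⟩
  · rw [T11_poly_coeff0 s h c κ hκ]
    exact ⟨le_refl _, by exact_mod_cast hh⟩

theorem T11_poly_inj {m : ℕ} (s : Finset (Fin m →₀ ℕ)) (h : ℕ) :
    Function.Injective (T11_poly s h) := by
  intro c c' hcc
  funext κ
  have h1 := T11_poly_coeff s h c κ.1 κ.2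
  have h2 := T11_poly_coeff s h c' κ.1 κ.2
  rw [hcc] at h1
  rw [h1] at h2
  apply Fin.ext
  exact_mod_cast h2

/-- the same with one more variable `X_{i₀} ≡ a / b` and `h = max (|a|, |b|)` -/
theorem psi_rat {m : ℕ} (q : Ideal (Pm m)) (E : Finset (Fin m)) (hE : Ind q E) (i₀ : Fin m)
    (hi : i₀ ∉ E) (a b : ℤ) (hab : IsCoprime a b) (hb : b ≠ 0)
    (hx : MvPolynomial.X i₀ - MvPolynomial.C ((a : ℚ) / b) ∈ q) (B : Fin m → ℕ) :
    ∃ Ψ : Finset (Zm m), (∀ ψ ∈ Ψ, ψ ∈ Bx (fun i => if i ∈ insert i₀ E then B i else 0)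
        (max a.natAbs b.natAbs)) ∧
      (∀ ψ ∈ Ψ, ∀ ψ' ∈ Ψ, ψ ≠ ψ' → toQ ψ - toQ ψ' ∉ q) ∧
      #Ψ = (max a.natAbs b.natAbs) ^ (∏ i ∈ insert i₀ E, (B i + 1)) := by
  classical
  set h := max a.natAbs b.natAbs with hh
  have hpos : 0 < h := lt_of_lt_of_le (Int.natAbs_pos.mpr hb) (le_max_right _ _)
  set n : Fin m → ℕ := fun i => if i ∈ insert i₀ E then B i else 0 with hn
  set s : Finset (Fin m →₀ ℕ) := (Fintype.piFinset (fun i => Finset.range (n i + 1))).map
    (Finsupp.equivFunOnFinite.symm.toEmbedding) with hs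
  have hmem : ∀ κ, κ ∈ s ↔ ∀ i, κ i ≤ n i := by
    intro κ
    rw [hs, Finset.mem_map_equiv, Fintype.mem_piFinset]
    simp only [Finset.mem_range, Nat.lt_succ_iff]
    rfl
  have hcard : #s = ∏ i ∈ insert i₀ E, (B i + 1) := by
    rw [hs, Finset.card_map, Fintype.card_piFinset]
    simp only [Finset.card_range]
    rw [← Finset.prod_subset (Finset.subset_univ (insert i₀ E))]
    · apply Finset.prod_congr rfl
      intro i hi'
      simp only [hn, if_pos hi']
    · intro i _ hi'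
      simp only [hn, if_neg hi', zero_add]
  refine ⟨Finset.univ.image (T11_poly s h), ?_, ?_, ?_⟩
  · intro ψ hψ
    rw [Finset.mem_image] at hψ
    obtain ⟨c, -, rfl⟩ := hψ
    refine ⟨?_, fun κ => T11_poly_range s h hpos c κ⟩
    intro κ hκ
    rw [MvPolynomial.mem_support_iff] at hκ
    by_contra hcon
    exact hκ (T11_poly_coeff0 s h c κ (fun h' => hcon ((hmem κ).mp h')))
  · intro ψ hψ ψ' hψ' hne hq
    rw [Finset.mem_image] at hψ hψ'
    obtain ⟨c, -, rfl⟩ := hψ
    obtain ⟨c', -, rfl⟩ := hψ'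
    rw [← map_sub] at hq
    have hsup : ∀ κ ∈ (T11_poly s h c - T11_poly s h c').support, ∀ i, i ∉ insert i₀ E →
        κ i = 0 := by
      intro κ hκ i hi'
      by_contra hcon
      rw [MvPolynomial.mem_support_iff, MvPolynomial.coeff_sub] at hκ
      have hk : κ ∉ s := by
        intro h'
        have := (hmem κ).mp h' i
        simp only [hn, if_neg hi'] at this
        omega
      rw [T11_poly_coeff0 s h c κ hk, T11_poly_coeff0 s h c' κ hk, sub_zero] at hκ
      exact hκ rfl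
    obtain ⟨κ, hκ⟩ := T11_ker q E hE i₀ a b hab hb hx (T11_poly s h c - T11_poly s h c')
      (sub_ne_zero.mpr hne) hsup hq
    rw [MvPolynomial.coeff_sub] at hκ
    have h1 := T11_poly_range s h hpos c κ
    have h2 := T11_poly_range s h hpos c' κ
    rw [← hh] at hκ
    omega
  · rw [Finset.card_image_of_injective _ (T11_poly_inj s h), Finset.card_univ, Fintype.card_fun,
      Fintype.card_fin, Fintype.card_coe, hcard]

end Pool.Agent.H723.PT
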