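import Pool.Agent.H723.PT.Defs

set_option autoImplicit false

open Finset

namespace Pool.Agent.H723.PT

open Pool.Agent.H393R2.RothNS

namespace T12

variable {m : ℕ}

/-- clearing the denominators -/
theorem clear (p : Pm m) : ∃ N : ℤ, N ≠ 0 ∧ ∃ p' : Zm m, toQ p' = MvPolynomial.C (N : ℚ) * p := by
  induction p using MvPolynomial.induction_on with
  | C c =>
    refine ⟨c.den, by exact_mod_cast c.den_nz, MvPolynomial.C c.num, ?_⟩
    unfold toQ
    rw [MvPolynomial.map_C, ← MvPolynomial.C_mul]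
    congr 1
    rw [Int.cast_natCast, mul_comm, Rat.mul_den_eq_num]
    rfl
  | add p q hp hq =>
    obtain ⟨N1, h1, p1, e1⟩ := hp
    obtain ⟨N2, h2, p2, e2⟩ := hq
    refine ⟨N1 * N2, mul_ne_zero h1 h2, MvPolynomial.C N2 * p1 + MvPolynomial.C N1 * p2, ?_⟩
    have hC : ∀ N : ℤ, (toQ (MvPolynomial.C N) : Pm m) = MvPolynomial.C (N : ℚ) := by
      intro N
      unfold toQ
      rw [MvPolynomial.map_C]
      rfl
    rw [map_add, map_mul, map_mul, e1, e2, hC, hC, Int.cast_mul, MvPolynomial.C_mul]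
    ring
  | mul_X p i hp =>
    obtain ⟨N1, h1, p1, e1⟩ := hp
    refine ⟨N1, h1, p1 * MvPolynomial.X i, ?_⟩
    have hX : (toQ (MvPolynomial.X i) : Pm m) = MvPolynomial.X i := by
      unfold toQ
      rw [MvPolynomial.map_X]
    rw [map_mul, e1, hX, mul_assoc]

theorem toQ_inj : Function.Injective (toQ : Zm m → Pm m) :=
  MvPolynomial.map_injective _ Int.cast_injective

theorem coeff_toQ (f : Zm m) (a : Fin m →₀ ℕ) : (toQ f).coeff a = ((MvPolynomial.coeff a f : ℤ) : ℚ) := by
  unfold toQ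
  rw [MvPolynomial.coeff_map]
  rfl

/-- the box of exponents -/
noncomputable def box (n : Fin m → ℕ) : Finset (Fin m →₀ ℕ) :=
  Finset.Icc 0 (Finsupp.equivFunOnFinite.symm n)

theorem mem_box (n : Fin m → ℕ) (a : Fin m →₀ ℕ) : a ∈ box n ↔ ∀ i, a i ≤ n i := by
  unfold box
  rw [Finset.mem_Icc, Finsupp.le_def, Finsupp.le_def]
  constructor
  · intro h i
    exact h.2 i
  · intro h
    exact ⟨fun i => Nat.zero_le _, h⟩

theorem finite_Bx (n : Fin m → ℕ) (H : ℕ) : (Bx n H).Finite := by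
  classical
  have h1 : Bx n H ⊆ Set.range (fun g : {a // a ∈ box n} → Fin H =>
      ∑ a : {a // a ∈ box n}, MvPolynomial.monomial (a : Fin m →₀ ℕ) ((g a : ℕ) : ℤ)) := by
    rintro f ⟨hf1, hf2⟩
    rw [Set.mem_range]
    have hlt : ∀ a, (f.coeff a).toNat < H := by
      intro a
      have := hf2 a
      omega
    refine ⟨fun a => ⟨(f.coeff a).toNat, hlt a⟩, ?_⟩
    ext b
    rw [MvPolynomial.coeff_sum]
    simp only [MvPolynomial.coeff_monomial]
    by_cases hb : b ∈ box n
    · rw [Finset.sum_eq_single (⟨b, hb⟩ : {a // a ∈ box n})]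
      · rw [if_pos rfl]
        exact Int.toNat_of_nonneg (hf2 b).1
      · intro a _ hab
        rw [if_neg]
        intro h
        exact hab (Subtype.ext h)
      · intro h
        exact absurd (Finset.mem_univ _) h
    · rw [Finset.sum_eq_zero]
      · symm
        by_contra hne
        apply hb
        rw [mem_box]
        exact hf1 b (MvPolynomial.mem_support_iff.2 hne)
      · intro a _
        rw [if_neg]
        intro h
        exact hb (h ▸ a.2)
  exact (Set.finite_range _).subset h1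

/-- the sum of the absolute values of the coefficients -/
noncomputable def nl (f : Zm m) : ℤ := ∑ x ∈ f.support, |f.coeff x|

theorem nl_nonneg (f : Zm m) : 0 ≤ nl f := Finset.sum_nonneg fun _ _ => abs_nonneg _

theorem coeff_mul_bound (f g : Zm m) (h : ℤ) (hh : 0 ≤ h) (hg : ∀ a, |g.coeff a| ≤ h)
    (a : Fin m →₀ ℕ) : |(f * g).coeff a| ≤ nl f * h := by
  classical
  have e1 : f * g = ∑ x ∈ f.support, MvPolynomial.monomial x (f.coeff x) * g := by
    rw [← Finset.sum_mul, MvPolynomial.support_sum_monomial_coeff]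
  rw [e1, MvPolynomial.coeff_sum]
  refine (Finset.abs_sum_le_sum_abs _ _).trans ?_
  unfold nl
  rw [Finset.sum_mul]
  refine Finset.sum_le_sum fun x _ => ?_
  rw [MvPolynomial.coeff_monomial_mul']
  split_ifs with h1
  · rw [abs_mul]
    exact mul_le_mul_of_nonneg_left (hg _) (abs_nonneg _)
  · rw [abs_zero]
    exact mul_nonneg (abs_nonneg _) hh

/-- the extension of an exponent by zero -/
noncomputable def ex {E : Finset (Fin m)} {B : Fin m → ℕ}
    (a : (e : {e // e ∈ E}) → Fin (B e + 1)) : Fin m →₀ ℕ :=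
  Finsupp.equivFunOnFinite.symm (fun j => if hj : j ∈ E then (a ⟨j, hj⟩ : ℕ) else 0)

theorem ex_apply {E : Finset (Fin m)} {B : Fin m → ℕ}
    (a : (e : {e // e ∈ E}) → Fin (B e + 1)) (j : Fin m) :
    ex a j = if hj : j ∈ E then (a ⟨j, hj⟩ : ℕ) else 0 := rfl

theorem ex_inj {E : Finset (Fin m)} {B : Fin m → ℕ} :
    Function.Injective (ex : ((e : {e // e ∈ E}) → Fin (B e + 1)) → (Fin m →₀ ℕ)) := by
  intro a b h
  funext e
  have h1 := DFunLike.congr_fun h (e : Fin m)
  rw [ex_apply, ex_apply, dif_pos e.2, dif_pos e.2] at h1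
  exact Fin.ext h1

theorem ex_le {E : Finset (Fin m)} {B : Fin m → ℕ}
    (a : (e : {e // e ∈ E}) → Fin (B e + 1)) (j : Fin m) : ex a j ≤ B j := by
  rw [ex_apply]
  split_ifs with hj
  · exact Nat.lt_succ_iff.1 (a ⟨j, hj⟩).2
  · exact Nat.zero_le _

/-- the polynomials with given coefficients -/
noncomputable def ps {E : Finset (Fin m)} {B : Fin m → ℕ} {h : ℕ}
    (c : ((e : {e // e ∈ E}) → Fin (B e + 1)) → Fin h) : Zm m :=
  ∑ a : (e : {e // e ∈ E}) → Fin (B e + 1), MvPolynomial.monomial (ex a) ((c a : ℕ) : ℤ)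

theorem coeff_ps {E : Finset (Fin m)} {B : Fin m → ℕ} {h : ℕ}
    (c : ((e : {e // e ∈ E}) → Fin (B e + 1)) → Fin h)
    (a : (e : {e // e ∈ E}) → Fin (B e + 1)) : (ps c).coeff (ex a) = ((c a : ℕ) : ℤ) := by
  classical
  unfold ps
  rw [MvPolynomial.coeff_sum]
  simp only [MvPolynomial.coeff_monomial]
  rw [Finset.sum_eq_single a]
  · rw [if_pos rfl]
  · intro b _ hb
    rw [if_neg]
    intro h1
    exact hb (ex_inj h1)
  · intro h1
    exact absurd (Finset.mem_univ _) h1

theorem coeff_ps_zero {E : Finset (Fin m)} {B : Fin m → ℕ} {h : ℕ}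
    (c : ((e : {e // e ∈ E}) → Fin (B e + 1)) → Fin h) (b : Fin m →₀ ℕ)
    (hb : ∀ a : (e : {e // e ∈ E}) → Fin (B e + 1), ex a ≠ b) : (ps c).coeff b = 0 := by
  classical
  unfold ps
  rw [MvPolynomial.coeff_sum]
  simp only [MvPolynomial.coeff_monomial]
  exact Finset.sum_eq_zero fun a _ => if_neg (hb a)

theorem ps_bound {E : Finset (Fin m)} {B : Fin m → ℕ} {h : ℕ}
    (c : ((e : {e // e ∈ E}) → Fin (B e + 1)) → Fin h) (b : Fin m →₀ ℕ) :
    |(ps c).coeff b| ≤ h := by
  by_cases hb : ∃ a : (e : {e // e ∈ E}) → Fin (B e + 1), ex a = b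
  · obtain ⟨a, rfl⟩ := hb
    rw [coeff_ps, abs_of_nonneg (by positivity)]
    exact_mod_cast (c a).2.le
  · push Not at hb
    rw [coeff_ps_zero c b hb, abs_zero]
    positivity

theorem ps_deg {E : Finset (Fin m)} {B : Fin m → ℕ} {h : ℕ}
    (c : ((e : {e // e ∈ E}) → Fin (B e + 1)) → Fin h) (j : Fin m) :
    MvPolynomial.degreeOf j (ps c) ≤ B j := by
  rw [MvPolynomial.degreeOf_le_iff]
  intro b hb
  rw [MvPolynomial.mem_support_iff] at hb
  by_cases hb2 : ∃ a : (e : {e // e ∈ E}) → Fin (B e + 1), ex a = b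
  · obtain ⟨a, rfl⟩ := hb2
    exact ex_le a j
  · push Not at hb2
    exact absurd (coeff_ps_zero c b hb2) hb

theorem ps_eq_of_mem {q : Ideal (Pm m)} {E : Finset (Fin m)} (hE : Ind q E) {B : Fin m → ℕ} {h : ℕ}
    (c c' : ((e : {e // e ∈ E}) → Fin (B e + 1)) → Fin h) (hq : toQ (ps c - ps c') ∈ q) :
    c = c' := by
  classical
  have h1 := hE _ hq (by
    intro j hj
    rw [MvPolynomial.mem_vars_iff_mem_support] at hj
    obtain ⟨b, hb, hbj⟩ := hj
    rw [MvPolynomial.mem_support_iff, coeff_toQ, MvPolynomial.coeff_sub] at hb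
    by_cases hb2 : ∃ a : (e : {e // e ∈ E}) → Fin (B e + 1), ex a = b
    · obtain ⟨a, rfl⟩ := hb2
      rw [Finsupp.mem_support_iff, ex_apply] at hbj
      by_contra hne
      rw [dif_neg hne] at hbj
      exact hbj rfl
    · push Not at hb2
      rw [coeff_ps_zero c b hb2, coeff_ps_zero c' b hb2] at hb
      exact absurd (by simp) hb)
  have h2 : ps c - ps c' = 0 := toQ_inj (by rw [h1, map_zero])
  funext a
  have h3 := congrArg (fun f => MvPolynomial.coeff (ex a) f) h2
  simp only [MvPolynomial.coeff_sub, coeff_ps, MvPolynomial.coeff_zero] at h3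
  apply Fin.ext
  omega

end T12

open T12

/-- **Lower bound for the number of classes modulo an ideal in many primes.** -/
theorem nu_ge_primes {m : ℕ} (J : Ideal (Pm m)) {ι : Type} [Fintype ι] (P : ι → Ideal (Pm m))
    (hP : ∀ i, (P i).IsPrime) (hJ : ∀ i, J ≤ P i) (hinc : ∀ i j, P i ≤ P j → i = j)
    (E : ι → Finset (Fin m)) (hE : ∀ i, Ind (P i) (E i)) :
    ∃ D : ℕ, ∀ (B : Fin m → ℕ) (h : ℕ), 1 ≤ h →
      h ^ (∑ i, ∏ e ∈ E i, (B e + 1)) ≤ nu J (fun i => B i + D) (D * h) := by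
  classical
  -- the separating elements
  have hsep : ∀ i k, k ≠ i → ∃ a, a ∈ P k ∧ a ∉ P i := by
    intro i k hki
    by_contra hcon
    push Not at hcon
    exact hki (hinc k i hcon)
  have he : ∀ i, ∃ ε : Zm m, (∀ k, k ≠ i → toQ ε ∈ P k) ∧ toQ ε ∉ P i := by
    intro i
    obtain ⟨a, ha⟩ : ∃ a : ι → Pm m, ∀ k, k ≠ i → a k ∈ P k ∧ a k ∉ P i := by
      refine ⟨fun k => if hk : k ≠ i then (hsep i k hk).choose else 0, fun k hk => ?_⟩
      simp only [dif_pos hk]
      exact (hsep i k hk).choose_spec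
    obtain ⟨N, hN, ε, hε⟩ := clear (∏ k ∈ univ.erase i, a k)
    refine ⟨ε, fun k hk => ?_, ?_⟩
    · rw [hε]
      apply Ideal.mul_mem_left
      rw [← Finset.mul_prod_erase (univ.erase i) a (Finset.mem_erase.2 ⟨hk, Finset.mem_univ k⟩)]
      exact Ideal.mul_mem_right _ _ (ha k hk).1
    · rw [hε]
      intro hmem
      rcases (hP i).mem_or_mem hmem with h1 | h1
      · apply (hP i).ne_top
        refine Ideal.eq_top_of_isUnit_mem _ h1 ?_
        have hu : IsUnit ((N : ℤ) : ℚ) := isUnit_iff_ne_zero.2 (by exact_mod_cast hN)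
        exact hu.map MvPolynomial.C
      · rw [(hP i).prod_mem_iff] at h1
        obtain ⟨k, hk, hk2⟩ := h1
        exact (ha k (Finset.mem_erase.1 hk).1).2 hk2
  choose ε hε1 hε2 using he
  -- the constant
  obtain ⟨Λ, hΛ⟩ : ∃ Λ : ℕ, (Λ : ℤ) = ∑ i, nl (ε i) :=
    ⟨(∑ i, nl (ε i)).toNat, Int.toNat_of_nonneg (Finset.sum_nonneg fun i _ => nl_nonneg _)⟩
  obtain ⟨D0, hD0⟩ : ∃ D0 : ℕ, ∀ i j, MvPolynomial.degreeOf j (ε i) ≤ D0 :=
    ⟨∑ i, ∑ j, MvPolynomial.degreeOf j (ε i), fun i j =>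
      (Finset.single_le_sum (f := fun j => MvPolynomial.degreeOf j (ε i))
        (fun _ _ => Nat.zero_le _) (Finset.mem_univ j)).trans
      (Finset.single_le_sum (f := fun i => ∑ j, MvPolynomial.degreeOf j (ε i))
        (fun _ _ => Nat.zero_le _) (Finset.mem_univ i))⟩
  refine ⟨2 * Λ + 1 + D0, fun B h hh => ?_⟩
  set D := 2 * Λ + 1 + D0 with hD
  set n : Fin m → ℕ := fun i => B i + D with hn
  -- the families
  let Fam : Type := (i : ι) → ((e : {e // e ∈ E i}) → Fin (B e + 1)) → Fin h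
  let M : Zm m := ∑ b ∈ box n, MvPolynomial.monomial b ((Λ : ℤ) * h)
  let Fc : Fam → Zm m := fun c => (∑ i, ε i * ps (c i)) + M
  have hM : ∀ a, M.coeff a = if a ∈ box n then (Λ : ℤ) * h else 0 := by
    intro a
    show (∑ b ∈ box n, MvPolynomial.monomial b ((Λ : ℤ) * h)).coeff a = _
    rw [MvPolynomial.coeff_sum]
    simp only [MvPolynomial.coeff_monomial]
    rw [Finset.sum_ite_eq' (box n) a (fun _ => (Λ : ℤ) * h)]
  have hsupp : ∀ (c : Fam) a, (∑ i, ε i * ps (c i)).coeff a ≠ 0 → a ∈ box n := by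
    intro c a ha
    rw [MvPolynomial.coeff_sum] at ha
    obtain ⟨i, _, hi⟩ := Finset.exists_ne_zero_of_sum_ne_zero ha
    rw [mem_box]
    intro j
    have h1 := MvPolynomial.monomial_le_degreeOf j (MvPolynomial.mem_support_iff.2 hi)
    have h2 := MvPolynomial.degreeOf_mul_le j (ε i) (ps (c i))
    have h3 := hD0 i j
    have h4 := ps_deg (c i) j
    show a j ≤ B j + D
    omega
  have hbd : ∀ (c : Fam) a, |(∑ i, ε i * ps (c i)).coeff a| ≤ (Λ : ℤ) * h := by
    intro c a
    rw [MvPolynomial.coeff_sum, hΛ, Finset.sum_mul]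
    refine (Finset.abs_sum_le_sum_abs _ _).trans (Finset.sum_le_sum fun i _ => ?_)
    exact coeff_mul_bound _ _ _ (by positivity) (ps_bound (c i)) a
  have hFB : ∀ c, Fc c ∈ Bx n (D * h) := by
    intro c
    constructor
    · intro a ha
      rw [← mem_box]
      rw [MvPolynomial.mem_support_iff] at ha
      have e1 : (Fc c).coeff a = (∑ i, ε i * ps (c i)).coeff a + M.coeff a :=
        MvPolynomial.coeff_add _ _ _
      by_contra hne
      apply ha
      rw [e1, hM, if_neg hne, add_zero]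
      by_contra h1
      exact hne (hsupp c a h1)
    · intro a
      have e1 : (Fc c).coeff a = (∑ i, ε i * ps (c i)).coeff a + M.coeff a :=
        MvPolynomial.coeff_add _ _ _
      have h1 := hbd c a
      rw [abs_le] at h1
      have h2 : ((D * h : ℕ) : ℤ) = 2 * (Λ * h) + h + D0 * h := by
        rw [hD]
        push_cast
        ring
      have h3 : (0 : ℤ) < h := by exact_mod_cast hh
      have h4 : (0 : ℤ) ≤ D0 * h := by positivity
      have h5 : (0 : ℤ) ≤ (Λ : ℤ) * h := by positivity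
      rw [e1, hM, h2]
      split_ifs with h6
      · constructor <;> linarith
      · have h7 : (∑ i, ε i * ps (c i)).coeff a = 0 := by
          by_contra h8
          exact h6 (hsupp c a h8)
        rw [h7]
        constructor <;> linarith
  have hinj : Function.Injective (fun c : Fam => Ideal.Quotient.mk J (toQ (Fc c))) := by
    intro c c' hcc
    simp only at hcc
    rw [Ideal.Quotient.eq, ← map_sub] at hcc
    have e1 : Fc c - Fc c' = ∑ i, ε i * (ps (c i) - ps (c' i)) := by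
      show (∑ i, ε i * ps (c i)) + M - ((∑ i, ε i * ps (c' i)) + M) = _
      rw [add_sub_add_right_eq_sub, ← Finset.sum_sub_distrib]
      exact Finset.sum_congr rfl fun i _ => by ring
    rw [e1, map_sum] at hcc
    funext i
    have h1 := hJ i hcc
    rw [← Finset.add_sum_erase _ _ (Finset.mem_univ i)] at h1
    have h2 : ∑ k ∈ univ.erase i, toQ (ε k * (ps (c k) - ps (c' k))) ∈ P i := by
      refine Ideal.sum_mem _ fun k hk => ?_
      rw [map_mul]
      exact Ideal.mul_mem_right _ _ (hε1 k i (Ne.symm (Finset.mem_erase.1 hk).1))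
    have h3 := (Ideal.add_mem_iff_left (P i) h2).1 h1
    rw [map_mul] at h3
    have h4 := ((hP i).mem_or_mem h3).resolve_left (hε2 i)
    exact ps_eq_of_mem (hE i) _ _ h4
  -- the count
  have hcard : Nat.card Fam = h ^ (∑ i, ∏ e ∈ E i, (B e + 1)) := by
    rw [Nat.card_eq_fintype_card, Fintype.card_pi]
    rw [← Finset.prod_pow_eq_pow_sum]
    refine Finset.prod_congr rfl fun i _ => ?_
    rw [Fintype.card_fun, Fintype.card_fin, Fintype.card_pi]
    congr 1
    rw [← Finset.prod_coe_sort (E i) (fun e => B e + 1)]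
    exact Finset.prod_congr rfl fun e _ => Fintype.card_fin _
  rw [← hcard, ← Nat.card_range_of_injective hinj, Nat.card_coe_set_eq]
  unfold nu
  refine Set.ncard_le_ncard ?_ ((finite_Bx n (D * h)).image _)
  rintro x ⟨c, rfl⟩
  exact ⟨Fc c, hFB c, rfl⟩

end Pool.Agent.H723.PT
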