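import Pool.Agent.H723.PT.Defs

set_option autoImplicit false

open Finset

namespace Pool.Agent.H723.PT

open Pool.Agent.H393R2.RothNS

theorem comb_qmem {m : ℕ} {P : Ideal (Pm m)} {x : Pm m} (q : ℚ) (hx : x ∈ P) : q • x ∈ P := by
  rw [MvPolynomial.smul_eq_C_mul]
  exact P.mul_mem_left _ hx

/-- **Avoiding finitely many ideals with small coefficients.** -/
theorem exists_comb {m : ℕ} {κ : Type*} (K : Finset κ) (f : κ → Pm m)
    (PP : Finset (Ideal (Pm m))) (r : ℕ) (hr : #PP ≤ r) (h : ∀ P ∈ PP, ∃ k ∈ K, f k ∉ P) :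
    ∃ c : κ → ℕ, (∀ k, c k ≤ r) ∧ ∀ P ∈ PP, ∑ k ∈ K, (c k : ℚ) • f k ∉ P := by
  classical
  have key : ∀ K' : Finset κ, ∃ c : κ → ℕ, (∀ k, c k ≤ r) ∧
      ∀ P ∈ PP, (∃ k ∈ K', f k ∉ P) → ∑ k ∈ K', (c k : ℚ) • f k ∉ P := by
    intro K'
    induction K' using Finset.induction_on with
    | empty =>
      refine ⟨fun _ => 0, fun _ => Nat.zero_le _, ?_⟩
      rintro P _ ⟨k, hk, _⟩
      exact absurd hk (Finset.notMem_empty k)
    | insert k0 K' hk0 ih =>
      obtain ⟨c, hc, hcP⟩ := ih
      have hgood : ∃ a ∈ Finset.range (r + 1), ∀ P ∈ PP, (∃ k ∈ insert k0 K', f k ∉ P) →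
          (a : ℚ) • f k0 + ∑ k ∈ K', (c k : ℚ) • f k ∉ P := by
        by_contra hcon
        push Not at hcon
        have hP : ∀ a, ∃ P, a ∈ Finset.range (r + 1) → (P ∈ PP ∧ (∃ k ∈ insert k0 K', f k ∉ P) ∧
            (a : ℚ) • f k0 + ∑ k ∈ K', (c k : ℚ) • f k ∈ P) := by
          intro a
          by_cases ha : a ∈ Finset.range (r + 1)
          · obtain ⟨P, h1, h2, h3⟩ := hcon a ha
            exact ⟨P, fun _ => ⟨h1, h2, h3⟩⟩
          · exact ⟨⊤, fun h => absurd h ha⟩
        choose Pf hPf using hP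
        obtain ⟨a, ha, b, hb, hab, hPab⟩ := Finset.exists_ne_map_eq_of_card_lt_of_maps_to
          (s := Finset.range (r + 1)) (t := PP) (f := Pf)
          (by rw [Finset.card_range]; omega) (fun a ha => (hPf a ha).1)
        obtain ⟨h1, h2, h3⟩ := hPf a ha
        obtain ⟨_, _, h4⟩ := hPf b hb
        rw [← hPab] at h4
        have h5 : ((a : ℚ) - b) • f k0 ∈ Pf a := by
          have := (Pf a).sub_mem h3 h4
          have e : (a : ℚ) • f k0 + ∑ k ∈ K', (c k : ℚ) • f k -
              ((b : ℚ) • f k0 + ∑ k ∈ K', (c k : ℚ) • f k) = ((a : ℚ) - b) • f k0 := by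
            rw [sub_smul]
            ring
          rwa [e] at this
        have hne : ((a : ℚ) - b) ≠ 0 := by
          rw [sub_ne_zero]
          exact_mod_cast hab
        have h6 : f k0 ∈ Pf a := by
          have := comb_qmem ((a : ℚ) - b)⁻¹ h5
          rwa [smul_smul, inv_mul_cancel₀ hne, one_smul] at this
        have h7 : ∑ k ∈ K', (c k : ℚ) • f k ∈ Pf a := by
          have := (Pf a).sub_mem h3 (comb_qmem (a : ℚ) h6)
          rwa [add_sub_cancel_left] at this
        obtain ⟨k, hk, hkP⟩ := h2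
        rw [Finset.mem_insert] at hk
        rcases hk with rfl | hk
        · exact hkP h6
        · exact hcP (Pf a) h1 ⟨k, hk, hkP⟩ h7
      obtain ⟨a, ha, haP⟩ := hgood
      refine ⟨Function.update c k0 a, ?_, ?_⟩
      · intro k
        by_cases hk : k = k0
        · rw [hk, Function.update_self]
          have := Finset.mem_range.1 ha
          omega
        · rw [Function.update_of_ne hk]
          exact hc k
      · intro P hP hex
        rw [Finset.sum_insert hk0, Function.update_self]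
        have e : ∑ k ∈ K', ((Function.update c k0 a k : ℕ) : ℚ) • f k =
            ∑ k ∈ K', (c k : ℚ) • f k := by
          apply Finset.sum_congr rfl
          intro k hk
          have : k ≠ k0 := fun h => hk0 (h ▸ hk)
          rw [Function.update_of_ne this]
        rw [e]
        exact haP P hP hex
  obtain ⟨c, hc, hcP⟩ := key K
  exact ⟨c, hc, fun P hP => hcP P hP (h P hP)⟩

/-- the exponents supported in `S` of weight less than `ε`: at least `∏ (ε d_i / #S)` -/
theorem exists_Cs {m : ℕ} (d : Fin m → ℕ) (hd : ∀ i, 0 < d i) (ε : ℝ) (hε : 0 < ε)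
    (S : Finset (Fin m)) (hS : S.Nonempty) :
    ∃ Cs : Finset (Fin m →₀ ℕ), (∀ c ∈ Cs, c.support ⊆ S ∧ wt d c < ε) ∧
      ∏ i ∈ S, (ε / #S * d i) ≤ (#Cs : ℝ) := by
  classical
  have hSc : (0 : ℝ) < #S := by exact_mod_cast hS.card_pos
  let N : Fin m → ℕ := fun i => ⌈ε / #S * d i⌉₊
  let A : Finset (Fin m → ℕ) := Fintype.piFinset fun i => if i ∈ S then range (N i) else {0}
  have hAc : #A = ∏ i ∈ S, N i := by
    show #(Fintype.piFinset fun i => if i ∈ S then range (N i) else {0}) = _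
    rw [Fintype.card_piFinset]
    have h1 : ∀ i : Fin m, #(if i ∈ S then range (N i) else {0}) = if i ∈ S then N i else 1 := by
      intro i
      split_ifs
      · rw [Finset.card_range]
      · rw [Finset.card_singleton]
    rw [Finset.prod_congr rfl fun i _ => h1 i, Finset.prod_ite_mem, Finset.univ_inter]
  refine ⟨A.map Finsupp.equivFunOnFinite.symm.toEmbedding, ?_, ?_⟩
  · intro c hc
    rw [Finset.mem_map] at hc
    obtain ⟨g, hg, rfl⟩ := hc
    have hg' : ∀ i, g i ∈ (if i ∈ S then range (N i) else {0} : Finset ℕ) :=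
      Fintype.mem_piFinset.1 hg
    have hv : ∀ i, (Finsupp.equivFunOnFinite.symm.toEmbedding g : Fin m →₀ ℕ) i = g i :=
      fun i => rfl
    have hz : ∀ i, i ∉ S → g i = 0 := by
      intro i hi
      have := hg' i
      rw [if_neg hi, Finset.mem_singleton] at this
      exact this
    constructor
    · intro i hi
      rw [Finsupp.mem_support_iff, hv] at hi
      by_contra hiS
      exact hi (hz i hiS)
    · have h1 : wt d (Finsupp.equivFunOnFinite.symm.toEmbedding g) =
          ∑ i ∈ S, (g i : ℝ) / d i := by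
        unfold wt
        symm
        apply Finset.sum_subset (Finset.subset_univ S)
        intro i _ hi
        rw [hz i hi]
        simp
      rw [h1]
      have h2 : ∀ i ∈ S, (g i : ℝ) / d i < ε / #S := by
        intro i hi
        have h3 := hg' i
        rw [if_pos hi, Finset.mem_range, Nat.lt_ceil] at h3
        rw [div_lt_iff₀ (by exact_mod_cast hd i)]
        exact h3
      have h3 := Finset.sum_lt_sum_of_nonempty hS h2
      rw [Finset.sum_const, nsmul_eq_mul, mul_div_cancel₀ _ hSc.ne'] at h3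
      exact h3
  · rw [Finset.card_map, hAc, Nat.cast_prod]
    apply Finset.prod_le_prod
    · intro i _
      positivity
    · intro i _
      exact Nat.le_ceil _

/-- comparison of exponents -/
theorem le_of_pow_le (X Y K : ℕ) (H : ∀ h : ℕ, 1 ≤ h → h ^ X ≤ (K * h) ^ Y) : X ≤ Y := by
  by_contra hXY
  have h1 := H (K ^ Y + 1) (Nat.le_add_left _ _)
  have h2 : (K ^ Y + 1) ^ (Y + 1) ≤ (K ^ Y + 1) ^ X :=
    Nat.pow_le_pow_right (Nat.succ_pos _) (by omega)
  have h3 : (K ^ Y + 1) * (K ^ Y + 1) ^ Y ≤ K ^ Y * (K ^ Y + 1) ^ Y := by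
    calc (K ^ Y + 1) * (K ^ Y + 1) ^ Y = (K ^ Y + 1) ^ (Y + 1) := by ring
      _ ≤ (K ^ Y + 1) ^ X := h2
      _ ≤ (K * (K ^ Y + 1)) ^ Y := h1
      _ = K ^ Y * (K ^ Y + 1) ^ Y := mul_pow _ _ _
  have h4 := Nat.le_of_mul_le_mul_right h3 (Nat.pow_pos (Nat.succ_pos _))
  omega

/-- comparison of leading coefficients -/
theorem lead_le (m : ℕ) (c : ℝ) (a b : Fin m → ℝ) (ha : ∀ i, 0 ≤ a i) (hb : ∀ i, 0 ≤ b i)
    (H : ∀ t : ℕ, 1 ≤ t → c * (t : ℝ) ^ m ≤ ∏ i, (a i * t + b i)) : c ≤ ∏ i, a i := by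
  have h1 : Filter.Tendsto (fun t : ℕ => ∏ i, (a i + b i / (t : ℝ))) Filter.atTop
      (nhds (∏ i, (a i + 0))) := by
    apply tendsto_finsetProd
    intro i _
    exact tendsto_const_nhds.add (tendsto_const_div_atTop_nhds_zero_nat (b i))
  simp only [add_zero] at h1
  apply ge_of_tendsto h1
  filter_upwards [Filter.eventually_ge_atTop 1] with t ht
  have ht0 : (0 : ℝ) < t := by exact_mod_cast ht
  have h2 := H t ht
  have h3 : ∏ i, (a i * (t : ℝ) + b i) = (∏ i, (a i + b i / (t : ℝ))) * (t : ℝ) ^ m := by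
    have e : (t : ℝ) ^ m = ∏ _i : Fin m, (t : ℝ) := by
      rw [Finset.prod_const, Finset.card_univ, Fintype.card_fin]
    rw [e, ← Finset.prod_mul_distrib]
    apply Finset.prod_congr rfl
    intro i _
    field_simp
  rw [h3] at h2
  exact le_of_mul_le_mul_right h2 (by positivity)

end Pool.Agent.H723.PT
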