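import Pool.Agent.H723.PT.Defs

set_option autoImplicit false

open Finset

namespace Pool.Agent.H723.PT

open Pool.Agent.H393R2.RothNS

/-- **An associated prime of an ideal of depth `n` has coheight at least `n`.** -/
theorem dp_chain {R : Type*} [CommRing R] [IsLocalRing R] [IsNoetherianRing R] (n : ℕ)
    (J : Ideal R) (hJ : Dp n J) (P : Ideal R) (hP : P.IsPrime) (u : R) (hu : u ∉ J)
    (hPu : ∀ c, c ∈ P ↔ c * u ∈ J) :
    ∃ Q : Fin (n + 1) → Ideal R, StrictMono Q ∧ (∀ i, (Q i).IsPrime) ∧ Q 0 = P := by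
  induction n generalizing J P u with
  | zero =>
    refine ⟨fun _ => P, ?_, fun _ => hP, rfl⟩
    intro i j hij
    exact absurd hij (by omega)
  | succ n ih =>
    obtain ⟨z, hz, hNz, hD⟩ := hJ
    let U : Ideal R :=
      { carrier := {x | ∀ c ∈ P, c * x ∈ J}
        zero_mem' := by intro c _; rw [mul_zero]; exact J.zero_mem
        add_mem' := by
          intro a b ha hb c hc
          rw [mul_add]; exact J.add_mem (ha c hc) (hb c hc)
        smul_mem' := by
          intro a x hx c hc
          rw [smul_eq_mul, mul_left_comm]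
          exact J.mul_mem_left _ (hx c hc) }
    have hUm : ∀ x, x ∈ U ↔ ∀ c ∈ P, c * x ∈ J := fun x => Iff.rfl
    have huU : u ∈ U := by
      intro c hc
      exact (hPu c).1 hc
    have hclaim : ¬ U ≤ J ⊔ Ideal.span {z} := by
      intro hle
      have h1 : U ≤ J ⊔ IsLocalRing.maximalIdeal R • U := by
        intro x hx
        obtain ⟨j, hj, w, hw, rfl⟩ := Submodule.mem_sup.1 (hle hx)
        obtain ⟨v, rfl⟩ := Ideal.mem_span_singleton'.1 hw
        have hv : v ∈ U := by
          intro c hc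
          apply hNz
          have h2 := (hUm _).1 hx c hc
          have h3 : z * (c * v) = c * (j + v * z) - c * j := by ring
          rw [h3]
          exact J.sub_mem h2 (J.mul_mem_left _ hj)
        refine Submodule.add_mem_sup hj ?_
        rw [mul_comm]
        exact Submodule.smul_mem_smul hz hv
      have h2 : U ≤ J :=
        Submodule.le_of_le_smul_of_le_jacobson_bot (IsNoetherian.noetherian U)
          (by rw [IsLocalRing.jacobson_eq_maximalIdeal ⊥ bot_ne_top]) h1
      exact hu (h2 huU)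
    obtain ⟨u1, hu1U, hu1⟩ := Set.not_subset.1 hclaim
    have hx : (Ideal.Quotient.mk (J ⊔ Ideal.span {z}) u1) ≠ 0 := by
      intro h
      exact hu1 (Ideal.Quotient.eq_zero_iff_mem.1 h)
    obtain ⟨Q1, hQ1, hcol⟩ := exists_le_isAssociatedPrime_of_isNoetherianRing R
      (M := R ⧸ (J ⊔ Ideal.span {z})) (Ideal.Quotient.mk (J ⊔ Ideal.span {z}) u1) hx
    rw [isAssociatedPrime_iff] at hQ1
    obtain ⟨hQp, y, hy⟩ := hQ1
    obtain ⟨u2, rfl⟩ := Ideal.Quotient.mk_surjective y
    have hmem : ∀ (a c : R), c ∈ (⊥ : Submodule R (R ⧸ (J ⊔ Ideal.span {z}))).colon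
        {Ideal.Quotient.mk (J ⊔ Ideal.span {z}) a} ↔ c * a ∈ J ⊔ Ideal.span {z} := by
      intro a c
      rw [Submodule.mem_colon_singleton, Submodule.mem_bot]
      rw [← Ideal.Quotient.eq_zero_iff_mem, map_mul]
      rfl
    have hQm : ∀ c, c ∈ Q1 ↔ c * u2 ∈ J ⊔ Ideal.span {z} := by
      intro c
      rw [hy, hmem]
    have hu2 : u2 ∉ J ⊔ Ideal.span {z} := by
      intro h
      apply hQp.ne_top
      rw [Ideal.eq_top_iff_one, hQm, one_mul]
      exact h
    have hPQ : P ≤ Q1 := by
      intro c hc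
      apply hcol
      rw [hmem]
      exact Submodule.mem_sup_left ((hUm _).1 hu1U c hc)
    have hzQ : z ∈ Q1 := by
      rw [hQm]
      exact Submodule.mem_sup_right (Ideal.mem_span_singleton'.2 ⟨u2, mul_comm _ _⟩)
    have hzP : z ∉ P := by
      intro h
      exact hu (hNz u ((hPu z).1 h))
    obtain ⟨Q, hQmono, hQprime, hQ0⟩ := ih (J ⊔ Ideal.span {z}) hD Q1 hQp u2 hu2 hQm
    refine ⟨Fin.cons P Q, ?_, ?_, ?_⟩
    · rw [Fin.strictMono_iff_lt_succ]
      intro i
      refine Fin.cases ?_ ?_ i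
      · rw [Fin.castSucc_zero, Fin.cons_zero, Fin.cons_succ, hQ0]
        exact lt_of_le_of_ne hPQ (fun h => hzP (h ▸ hzQ))
      · intro k
        rw [Fin.cons_succ, ← Fin.succ_castSucc, Fin.cons_succ]
        exact hQmono (Fin.castSucc_lt_succ)
    · intro i
      refine Fin.cases ?_ ?_ i
      · exact hP
      · intro k; exact hQprime k
    · rfl

end Pool.Agent.H723.PT
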