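import Pool.Agent.H723.PT.Defs

set_option autoImplicit false

open Finset

namespace Pool.Agent.H723.PT

open Pool.Agent.H393R2.RothNS

/-- the ideal generated by the first `j` of the elements `X_i - x_i` -/
noncomputable def dp_I {m : ℕ} (x : Fin m → ℚ) (j : ℕ) : Ideal (Pm m) :=
  Ideal.span ((fun i : Fin m => (MvPolynomial.X i - MvPolynomial.C (x i) : Pm m)) ''
    {i | (i : ℕ) < j})

/-- the substitution `X_i ↦ x_i` for `i < j` -/
noncomputable def dp_pi {m : ℕ} (x : Fin m → ℚ) (j : ℕ) : Pm m →ₐ[ℚ] Pm m :=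
  MvPolynomial.aeval (fun i : Fin m => if (i : ℕ) < j then (MvPolynomial.C (x i) : Pm m)
    else MvPolynomial.X i)

theorem dp_pi_X {m : ℕ} (x : Fin m → ℚ) (j : ℕ) (i : Fin m) :
    dp_pi x j (MvPolynomial.X i) = if (i : ℕ) < j then (MvPolynomial.C (x i) : Pm m)
      else MvPolynomial.X i := by
  rw [dp_pi, MvPolynomial.aeval_X]

theorem dp_pi_C {m : ℕ} (x : Fin m → ℚ) (j : ℕ) (c : ℚ) :
    dp_pi x j (MvPolynomial.C c) = MvPolynomial.C c := by
  rw [dp_pi, MvPolynomial.aeval_C]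
  rfl

theorem dp_sub_mem {m : ℕ} (x : Fin m → ℚ) (j : ℕ) (f : Pm m) : f - dp_pi x j f ∈ dp_I x j := by
  induction f using MvPolynomial.induction_on with
  | C c =>
    rw [dp_pi_C, sub_self]
    exact Ideal.zero_mem _
  | add p q hp hq =>
    rw [map_add]
    have h : p + q - (dp_pi x j p + dp_pi x j q) = (p - dp_pi x j p) + (q - dp_pi x j q) := by ring
    rw [h]
    exact Ideal.add_mem _ hp hq
  | mul_X p i hp =>
    rw [map_mul]
    have h : p * MvPolynomial.X i - dp_pi x j p * dp_pi x j (MvPolynomial.X i) =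
        MvPolynomial.X i * (p - dp_pi x j p) +
          dp_pi x j p * (MvPolynomial.X i - dp_pi x j (MvPolynomial.X i)) := by ring
    rw [h]
    refine Ideal.add_mem _ (Ideal.mul_mem_left _ _ hp) (Ideal.mul_mem_left _ _ ?_)
    rw [dp_pi_X]
    split_ifs with hi
    · exact Ideal.subset_span ⟨i, hi, rfl⟩
    · rw [sub_self]
      exact Ideal.zero_mem _

theorem dp_mem_iff {m : ℕ} (x : Fin m → ℚ) (j : ℕ) (f : Pm m) : f ∈ dp_I x j ↔ dp_pi x j f = 0 := by
  constructor
  · intro hf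
    have h : dp_I x j ≤ RingHom.ker (dp_pi x j).toRingHom := by
      rw [dp_I, Ideal.span_le]
      rintro _ ⟨i, hi, rfl⟩
      show (MvPolynomial.X i - MvPolynomial.C (x i) : Pm m) ∈ RingHom.ker (dp_pi x j).toRingHom
      rw [RingHom.mem_ker]
      show dp_pi x j (MvPolynomial.X i - MvPolynomial.C (x i)) = 0
      have hi' : (i : ℕ) < j := hi
      rw [map_sub, dp_pi_X, dp_pi_C, if_pos hi', sub_self]
    exact RingHom.mem_ker.1 (h hf)
  · intro hf
    have h := dp_sub_mem x j f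
    rwa [hf, sub_zero] at h

instance dp_prime {m : ℕ} (x : Fin m → ℚ) (j : ℕ) : (dp_I x j).IsPrime := by
  have h : dp_I x j = RingHom.ker (dp_pi x j).toRingHom := by
    ext f
    rw [RingHom.mem_ker, dp_mem_iff]
    rfl
  rw [h]
  exact RingHom.ker_isPrime _

theorem dp_le {m : ℕ} (x : Fin m → ℚ) (j : ℕ) : dp_I x j ≤ Mx x := by
  rw [dp_I, Ideal.span_le]
  rintro _ ⟨i, _, rfl⟩
  show (MvPolynomial.X i - MvPolynomial.C (x i) : Pm m) ∈ Mx x
  rw [mem_Mx, map_sub, MvPolynomial.eval_X, MvPolynomial.eval_C, sub_self]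

theorem dp_disj {m : ℕ} (x : Fin m → ℚ) (j : ℕ) :
    Disjoint ((Mx x).primeCompl : Set (Pm m)) (dp_I x j : Set (Pm m)) := by
  rw [Set.disjoint_left]
  intro f hf hf'
  exact hf (dp_le x j hf')

theorem dp_succ {m : ℕ} (x : Fin m → ℚ) (j : Fin m) :
    dp_I x (j + 1) = dp_I x j ⊔ Ideal.span {(MvPolynomial.X j - MvPolynomial.C (x j) : Pm m)} := by
  rw [dp_I, dp_I, ← Ideal.span_union]
  congr 1
  have h : {i : Fin m | (i : ℕ) < j + 1} = {i : Fin m | (i : ℕ) < j} ∪ {j} := by
    ext i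
    simp only [Set.mem_ofPred_eq, Set.mem_union, Set.mem_singleton_iff, Fin.ext_iff]
    omega
  rw [h, Set.image_union, Set.image_singleton]

theorem dp_notMem {m : ℕ} (x : Fin m → ℚ) (j : Fin m) :
    (MvPolynomial.X j - MvPolynomial.C (x j) : Pm m) ∉ dp_I x j := by
  rw [dp_mem_iff, map_sub, dp_pi_X, dp_pi_C, if_neg (lt_irrefl _)]
  intro h
  have h1 := congrArg (MvPolynomial.eval (fun _ => x j + 1)) h
  rw [map_sub, MvPolynomial.eval_X, MvPolynomial.eval_C, map_zero] at h1
  norm_num at h1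

theorem dp_main {m : ℕ} (x : Fin m → ℚ) (k : ℕ) : ∀ j : ℕ, j + k = m →
    Dp k ((dp_I x j).map (algebraMap (Pm m) (Rx x))) := by
  induction k with
  | zero =>
    intro j _
    exact (IsLocalization.isPrime_of_isPrime_disjoint (Mx x).primeCompl (Rx x) (dp_I x j)
      (dp_prime x j) (dp_disj x j)).ne_top
  | succ k ih =>
    intro j hj
    obtain ⟨j', rfl⟩ : ∃ j' : Fin m, (j' : ℕ) = j := ⟨⟨j, by omega⟩, rfl⟩
    have hp := IsLocalization.isPrime_of_isPrime_disjoint (Mx x).primeCompl (Rx x) (dp_I x j')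
      (dp_prime x j') (dp_disj x j')
    refine ⟨algebraMap (Pm m) (Rx x) (MvPolynomial.X j' - MvPolynomial.C (x j')), ?_, ?_, ?_⟩
    · rw [IsLocalization.AtPrime.to_map_mem_maximal_iff (Rx x) (Mx x)]
      rw [mem_Mx, map_sub, MvPolynomial.eval_X, MvPolynomial.eval_C, sub_self]
    · intro y hy
      rcases hp.mem_or_mem hy with h | h
      · exfalso
        have h1 : (MvPolynomial.X j' - MvPolynomial.C (x j') : Pm m) ∈
            Ideal.under (Pm m) ((dp_I x j').map (algebraMap (Pm m) (Rx x))) := h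
        rw [IsLocalization.under_map_of_isPrime_disjoint (Mx x).primeCompl (Rx x)
          (dp_prime x j') (dp_disj x j')] at h1
        exact dp_notMem x j' h1
      · exact h
    · have h1 := ih (j' + 1) (by omega)
      rw [dp_succ, Ideal.map_sup, Ideal.map_span, Set.image_singleton] at h1
      exact h1

/-- **The local ring at a rational point has depth `m`** (regular sequence `X_i - x_i`). -/
theorem dp_point {m : ℕ} (x : Fin m → ℚ) : Dp m (⊥ : Ideal (Rx x)) := by
  have h := dp_main x m 0 (by omega)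
  have h0 : dp_I x 0 = ⊥ := by
    rw [dp_I, Ideal.span_eq_bot]
    rintro _ ⟨i, hi, rfl⟩
    exact absurd hi (Nat.not_lt_zero _)
  rwa [h0, Ideal.map_bot] at h

end Pool.Agent.H723.PT
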