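import Pool.Agent.H723.PT.Defs

set_option autoImplicit false

open Finset

namespace Pool.Agent.H723.PT

open Pool.Agent.H393R2.RothNS

/-- **Exchange property** for independent sets of variables modulo a prime. -/
theorem ind_exchange {m : ℕ} {q : Ideal (Pm m)} (hq : q.IsPrime) (E₁ E₂ : Finset (Fin m))
    (h1 : Ind q E₁) (h2 : Ind q E₂) (h : #E₁ < #E₂) :
    ∃ i ∈ E₂, i ∉ E₁ ∧ Ind q (insert i E₁) := by
  classical
  haveI := hq
  rw [ind_iff] at h1 h2
  set x : Fin m → (Pm m ⧸ q) := fun i => Ideal.Quotient.mk q (MvPolynomial.X i) with hx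
  have aux : ∀ E : Finset (Fin m), AlgebraicIndependent ℚ (fun i : {i // i ∈ E} => x i) →
      Set.InjOn x (E : Set (Fin m)) := by
    intro E hE a ha b hb hab
    have := hE.injective (a₁ := ⟨a, ha⟩) (a₂ := ⟨b, hb⟩) hab
    simpa using this
  have hinj : Function.Injective (algebraMap ℚ (Pm m ⧸ q)) := (algebraMap ℚ (Pm m ⧸ q)).injective
  haveI : FaithfulSMul ℚ (Pm m ⧸ q) := (faithfulSMul_iff_algebraMap_injective _ _).mpr hinj
  have e1 : AlgebraicIndependent ℚ (fun y : x '' (E₁ : Set (Fin m)) => (y : Pm m ⧸ q)) :=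
    (algebraicIndependent_image (aux E₁ h1)).mp h1
  have e2 : AlgebraicIndependent ℚ (fun y : x '' (E₂ : Set (Fin m)) => (y : Pm m ⧸ q)) :=
    (algebraicIndependent_image (aux E₂ h2)).mp h2
  have c1 : (x '' (E₁ : Set (Fin m))).encard = #E₁ := by
    rw [(aux E₁ h1).encard_image, Set.encard_coe_eq_coe_finsetCard]
  have c2 : (x '' (E₂ : Set (Fin m))).encard = #E₂ := by
    rw [(aux E₂ h2).encard_image, Set.encard_coe_eq_coe_finsetCard]
  have m1 : (AlgebraicIndependent.matroid ℚ (Pm m ⧸ q)).Indep (x '' (E₁ : Set (Fin m))) :=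
    AlgebraicIndependent.matroid_indep_iff.mpr e1
  have m2 : (AlgebraicIndependent.matroid ℚ (Pm m ⧸ q)).Indep (x '' (E₂ : Set (Fin m))) :=
    AlgebraicIndependent.matroid_indep_iff.mpr e2
  obtain ⟨e, he, hI⟩ := m1.augment m2 (by rw [c1, c2]; exact_mod_cast h)
  obtain ⟨⟨i, hi, rfl⟩, hne⟩ := he
  have hiE : i ∉ E₁ := fun hc => hne ⟨i, hc, rfl⟩
  refine ⟨i, hi, hiE, ?_⟩
  rw [ind_iff]
  have hinj' : Set.InjOn x ((insert i E₁ : Finset (Fin m)) : Set (Fin m)) := by
    rw [Finset.coe_insert, Set.injOn_insert (by exact_mod_cast hiE)]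
    exact ⟨aux E₁ h1, hne⟩
  have hI' := AlgebraicIndependent.matroid_indep_iff.mp hI
  refine (algebraicIndependent_image (R := ℚ) hinj').mpr ?_
  rw [Finset.coe_insert, Set.image_insert_eq]
  exact hI'

end Pool.Agent.H723.PT
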