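import Pool.Agent.H723.PT.Defs

set_option autoImplicit false

open Finset

namespace Pool.Agent.H723.PT

open Pool.Agent.H393R2.RothNS

/-- **The transcendence degree drops along a proper inclusion of primes.** -/
theorem tr_lt {m : ℕ} {p q : Ideal (Pm m)} (hp : p.IsPrime) (hq : q.IsPrime) (hpq : p < q) :
    tr q < tr p := by
  classical
  have := hp
  obtain ⟨E, hE, hcard⟩ := exists_tr hq.ne_top
  by_contra hlt
  rw [not_lt] at hlt
  have hEp : Ind p E := hE.anti hpq.le
  let x : Fin m → Pm m ⧸ p := fun i => Ideal.Quotient.mk p (MvPolynomial.X i)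
  let S : Subalgebra ℚ (Pm m ⧸ p) := Algebra.adjoin ℚ (x '' (E : Set (Fin m)))
  have hind : AlgebraicIndepOn ℚ x (E : Set (Fin m)) := (ind_iff p E).mp hEp
  have halg : ∀ i, IsAlgebraic S (x i) := by
    intro i
    by_contra h
    by_cases hi : i ∈ E
    · apply h
      exact isAlgebraic_algebraMap
        (⟨x i, Algebra.subset_adjoin ⟨i, hi, rfl⟩⟩ : S)
    · have h1 : AlgebraicIndepOn ℚ x (insert i (E : Set (Fin m))) := hind.insert h
      rw [← Finset.coe_insert] at h1
      have h2 : Ind p (insert i E) := (ind_iff p _).mpr h1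
      have h3 := card_le_tr h2
      rw [Finset.card_insert_of_notMem hi] at h3
      omega
  have hall : ∀ b : Pm m ⧸ p, IsAlgebraic S b := by
    have h1 : (Algebra.adjoin S (Set.range x)).IsAlgebraic :=
      Algebra.isAlgebraic_adjoin_iff.mpr (by rintro _ ⟨i, rfl⟩; exact halg i)
    intro b
    apply h1
    obtain ⟨f, rfl⟩ := Ideal.Quotient.mk_surjective b
    induction f using MvPolynomial.induction_on with
    | C c =>
      have h2 : (Ideal.Quotient.mk p (MvPolynomial.C c)) =
          algebraMap S (Pm m ⧸ p) (algebraMap ℚ S c) := rfl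
      rw [h2]
      exact Subalgebra.algebraMap_mem _ _
    | add f g hf hg => rw [map_add]; exact Subalgebra.add_mem _ hf hg
    | mul_X f i hf =>
      rw [map_mul]
      exact Subalgebra.mul_mem _ hf (Algebra.subset_adjoin ⟨i, rfl⟩)
  obtain ⟨f, hfq, hfp⟩ := SetLike.exists_of_lt hpq
  have hf0 : Ideal.Quotient.mk p f ≠ 0 := by
    rwa [Ne, Ideal.Quotient.eq_zero_iff_mem]
  obtain ⟨r, hr, hdvd⟩ := (hall (Ideal.Quotient.mk p f)).exists_nonzero_dvd
    (mem_nonZeroDivisors_of_ne_zero hf0)
  obtain ⟨g, hgv, hg⟩ : ∃ g : Pm m, g.vars ⊆ E ∧ Ideal.Quotient.mk p g = (r : Pm m ⧸ p) := by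
    have key : ∀ b ∈ Algebra.adjoin ℚ (x '' (E : Set (Fin m))),
        ∃ g : Pm m, g.vars ⊆ E ∧ Ideal.Quotient.mk p g = b := by
      intro b hb
      induction hb using Algebra.adjoin_induction with
      | mem b hb =>
        obtain ⟨i, hi, rfl⟩ := hb
        refine ⟨MvPolynomial.X i, ?_, rfl⟩
        rw [MvPolynomial.vars_X]
        exact Finset.singleton_subset_iff.mpr hi
      | algebraMap c =>
        refine ⟨MvPolynomial.C c, ?_, rfl⟩
        rw [MvPolynomial.vars_C]
        exact Finset.empty_subset _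
      | add a b _ _ ha hb =>
        obtain ⟨g, hg1, hg2⟩ := ha
        obtain ⟨h, hh1, hh2⟩ := hb
        refine ⟨g + h, (MvPolynomial.vars_add_subset g h).trans (Finset.union_subset hg1 hh1), ?_⟩
        rw [map_add, hg2, hh2]
      | mul a b _ _ ha hb =>
        obtain ⟨g, hg1, hg2⟩ := ha
        obtain ⟨h, hh1, hh2⟩ := hb
        refine ⟨g * h, (MvPolynomial.vars_mul g h).trans (Finset.union_subset hg1 hh1), ?_⟩
        rw [map_mul, hg2, hh2]
    exact key r.1 r.2
  have hgp : g ∉ p := by
    intro h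
    apply hr
    apply Subtype.ext
    rw [← hg, Ideal.Quotient.eq_zero_iff_mem.mpr h]
    rfl
  have hgq : g ∈ q := by
    obtain ⟨c, hc⟩ := hdvd
    obtain ⟨d, rfl⟩ := Ideal.Quotient.mk_surjective c
    have h1 : Ideal.Quotient.mk p g = Ideal.Quotient.mk p (f * d) := by
      rw [hg, map_mul, ← hc]
      rfl
    rw [Ideal.Quotient.eq] at h1
    have h2 : g = (g - f * d) + f * d := by ring
    rw [h2]
    exact q.add_mem (hpq.le h1) (q.mul_mem_right _ hfq)
  apply hgp
  rw [hE g hgq hgv]
  exact p.zero_mem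

end Pool.Agent.H723.PT
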