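import Pool.Agent.H723.PT.Defs

set_option autoImplicit false

open Finset

namespace Pool.Agent.H723.PT

open Pool.Agent.H393R2.RothNS

/-- If `X_i` is algebraic modulo a prime through the rational point `x` then `X_i - x_i` is in the
prime. -/
theorem mem_of_not_ind {m : ℕ} {q : Ideal (Pm m)} (hq : q.IsPrime) (x : Fin m → ℚ)
    (hqx : q ≤ Mx x) (i : Fin m) (h : ¬ Ind q {i}) :
    MvPolynomial.X i - MvPolynomial.C (x i) ∈ q := by
  unfold Ind at h
  push Not at h
  obtain ⟨f, hf, hv, hf0⟩ := h
  have h1 : f ∈ MvPolynomial.supported ℚ ({i} : Set (Fin m)) := by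
    rw [MvPolynomial.mem_supported]
    intro j hj
    have := hv hj
    rw [Finset.mem_singleton] at this
    exact this
  have h2 : f ∈ (Polynomial.aeval (R := ℚ) (MvPolynomial.X i : Pm m)).range := by
    rw [← Algebra.adjoin_singleton_eq_range_aeval, ← Set.image_singleton]
    exact h1
  obtain ⟨F, hF⟩ := h2
  have hF' : Polynomial.aeval (MvPolynomial.X i : Pm m) F = f := hF
  have hF0 : F ≠ 0 := by
    rintro rfl
    rw [map_zero] at hF'
    exact hf0 hF'.symm
  obtain ⟨G, hG, hnd⟩ := Polynomial.exists_eq_pow_rootMultiplicity_mul_and_not_dvd F hF0 (x i)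
  have h3 : Polynomial.aeval (MvPolynomial.X i : Pm m) (Polynomial.X - Polynomial.C (x i)) =
      MvPolynomial.X i - MvPolynomial.C (x i) := by
    rw [map_sub, Polynomial.aeval_X, Polynomial.aeval_C]
    rfl
  rw [hG, map_mul, map_pow, h3] at hF'
  rw [← hF'] at hf
  rcases hq.mem_or_mem hf with h4 | h4
  · exact hq.mem_of_pow_mem _ h4
  · exfalso
    have h5 := (mem_Mx x _).1 (hqx h4)
    apply hnd
    rw [Polynomial.dvd_iff_isRoot, Polynomial.IsRoot.def]
    rw [Polynomial.aeval_def, Polynomial.hom_eval₂, MvPolynomial.eval_X] at h5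
    have h6 : (MvPolynomial.eval x).comp (algebraMap ℚ (MvPolynomial (Fin m) ℚ)) =
        RingHom.id ℚ := RingHom.ext fun r => by simp [MvPolynomial.algebraMap_eq]
    rw [h6] at h5
    exact h5

end Pool.Agent.H723.PT
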