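import Pool.Agent.H723.PT.Defs

set_option autoImplicit false

open Finset

namespace Pool.Agent.H723.PT

open Pool.Agent.H393R2.RothNS

theorem ch_single {m : ℕ} (a : Fin m →₀ ℕ) (i : Fin m) : ch a (Finsupp.single i 1) = a i := by
  classical
  unfold ch
  rw [Finset.prod_eq_single i]
  · rw [Finsupp.single_eq_same, Nat.choose_one_right]
  · intro j _ hj
    rw [Finsupp.single_apply, if_neg (fun h => hj h.symm), Nat.choose_zero_right]
  · intro h
    exact absurd (Finset.mem_univ i) h

theorem clear_den {m : ℕ} (f : Pm m) : ∃ (c : ℚ) (g : Zm m), c ≠ 0 ∧ toQ g = c • f := by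
  classical
  obtain ⟨b, hb⟩ := IsLocalization.exist_integer_multiples_of_finset (nonZeroDivisors ℤ)
    (f.support.image (fun a => f.coeff a))
  have hz : ∀ a ∈ f.support, ∃ z : ℤ, (z : ℚ) = ((b : ℤ) : ℚ) * f.coeff a := by
    intro a ha
    obtain ⟨z, hz⟩ := hb (f.coeff a) (Finset.mem_image_of_mem _ ha)
    refine ⟨z, ?_⟩
    have h1 : (z : ℚ) = (b : ℤ) • f.coeff a := by
      rw [← hz]
      rfl
    rw [h1, zsmul_eq_mul]
  choose! z hz using hz
  refine ⟨((b : ℤ) : ℚ), ∑ a ∈ f.support, MvPolynomial.monomial a (z a), ?_, ?_⟩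
  · have := nonZeroDivisors.ne_zero b.2
    exact_mod_cast this
  · unfold toQ
    rw [map_sum]
    conv_rhs => rw [f.as_sum, Finset.smul_sum]
    apply Finset.sum_congr rfl
    intro a ha
    rw [MvPolynomial.map_monomial, MvPolynomial.smul_monomial, smul_eq_mul, ← hz a ha]
    rfl

/-- A separating relation: if `X_i` is algebraic over the independent variables `E` modulo the
prime `q` then there is an integral relation `g ∈ q` in `X_i` and the variables of `E` whose
`X_i`-derivative is not in `q`. -/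
theorem exists_g {m : ℕ} {q : Ideal (Pm m)} (hq : q.IsPrime) (E : Finset (Fin m)) (hE : Ind q E)
    (i : Fin m) (hi : i ∉ E) (h : ¬ Ind q (insert i E)) :
    ∃ g : Zm m, toQ g ∈ q ∧ DD (Finsupp.single i 1) (toQ g) ∉ q ∧ g.vars ⊆ insert i E := by
  classical
  unfold Ind at h
  push Not at h
  obtain ⟨f0, hf0, hv0, hn0⟩ := h
  -- minimal degree
  have hex : ∃ n, ∃ f : Pm m, f ∈ q ∧ f.vars ⊆ insert i E ∧ f ≠ 0 ∧ f.degreeOf i = n :=
    ⟨_, f0, hf0, hv0, hn0, rfl⟩
  obtain ⟨f, hfq, hfv, hfn, hfd⟩ := Nat.find_spec hex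
  have hmin : ∀ g : Pm m, g ∈ q → g.vars ⊆ insert i E → g ≠ 0 →
      f.degreeOf i ≤ g.degreeOf i := by
    intro g h1 h2 h3
    rw [hfd]
    exact Nat.find_min' hex ⟨g, h1, h2, h3, rfl⟩
  have hif : i ∈ f.vars := by
    by_contra hni
    apply hfn
    apply hE f hfq
    intro j hj
    rcases Finset.mem_insert.1 (hfv hj) with e | e
    · exact absurd (e ▸ hj) hni
    · exact e
  obtain ⟨a, ha, hia⟩ := (MvPolynomial.mem_vars i).1 hif
  have hai : a i ≠ 0 := Finsupp.mem_support_iff.1 hia
  have hle : Finsupp.single i 1 ≤ a := by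
    rw [Finsupp.single_le_iff]
    exact Nat.one_le_iff_ne_zero.2 hai
  have hD0 : DD (Finsupp.single i 1) f ≠ 0 := by
    intro h0
    have h1 := coeff_DD (Finsupp.single i 1) (a - Finsupp.single i 1) f
    rw [h0, MvPolynomial.coeff_zero, tsub_add_cancel_of_le hle, ch_single] at h1
    have h2 := MvPolynomial.mem_support_iff.1 ha
    exact (mul_ne_zero (by exact_mod_cast hai) h2) h1.symm
  have hsup : ∀ κ ∈ (DD (Finsupp.single i 1) f).support, κ + Finsupp.single i 1 ∈ f.support := by
    intro κ hκ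
    rw [MvPolynomial.mem_support_iff, coeff_DD] at hκ
    rw [MvPolynomial.mem_support_iff]
    exact right_ne_zero_of_mul hκ
  have hDv : (DD (Finsupp.single i 1) f).vars ⊆ insert i E := by
    intro j hj
    obtain ⟨κ, hκ, hj⟩ := (MvPolynomial.mem_vars j).1 hj
    apply hfv
    rw [MvPolynomial.mem_vars]
    refine ⟨_, hsup κ hκ, ?_⟩
    rw [Finsupp.mem_support_iff] at hj ⊢
    rw [Finsupp.add_apply]
    omega
  have hDd : (DD (Finsupp.single i 1) f).degreeOf i < f.degreeOf i := by
    have hpos : 0 < f.degreeOf i := by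
      have := MvPolynomial.monomial_le_degreeOf i ha
      omega
    rw [MvPolynomial.degreeOf_lt_iff hpos]
    intro κ hκ
    have := MvPolynomial.monomial_le_degreeOf i (hsup κ hκ)
    rw [Finsupp.add_apply, Finsupp.single_eq_same] at this
    omega
  have hDq : DD (Finsupp.single i 1) f ∉ q := fun hD =>
    absurd (hmin _ hD hDv hD0) (not_le.2 hDd)
  obtain ⟨c, g, hc, hg⟩ := clear_den f
  refine ⟨g, ?_, ?_, ?_⟩
  · rw [hg, MvPolynomial.smul_eq_C_mul]
    exact q.mul_mem_left _ hfq
  · rw [hg, map_smul]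
    intro hin
    apply hDq
    have : DD (Finsupp.single i 1) f = MvPolynomial.C c⁻¹ * (c • DD (Finsupp.single i 1) f) := by
      rw [MvPolynomial.smul_eq_C_mul, ← mul_assoc, ← map_mul, inv_mul_cancel₀ hc, map_one, one_mul]
    rw [this]
    exact q.mul_mem_left _ hin
  · have h1 : (toQ g).vars = g.vars :=
      MvPolynomial.vars_map_of_injective g (RingHom.injective_int (Int.castRingHom ℚ))
    rw [← h1, hg, MvPolynomial.smul_eq_C_mul, MvPolynomial.vars_C_mul c hc]
    exact hfv

end Pool.Agent.H723.PT
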