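import Pool.Agent.H723.PT.Defs

set_option autoImplicit false

open Finset

namespace Pool.Agent.H723.PT

open Pool.Agent.H393R2.RothNS

namespace NuStep

/-- the exponent with entries `e i` -/
noncomputable def ex {m : ℕ} {n : Fin m → ℕ} (e : (i : Fin m) → Fin (n i + 1)) : Fin m →₀ ℕ :=
  Finsupp.equivFunOnFinite.symm fun i => (e i : ℕ)

theorem ex_apply {m : ℕ} {n : Fin m → ℕ} (e : (i : Fin m) → Fin (n i + 1)) (i : Fin m) :
    ex e i = (e i : ℕ) := rfl

theorem coeff_eq_zero {m : ℕ} {n : Fin m → ℕ} {H : ℕ} {f : Zm m} (hf : f ∈ Bx n H)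
    {a : Fin m →₀ ℕ} (ha : ¬ ∀ i, a i ≤ n i) : f.coeff a = 0 := by
  by_contra h
  exact ha (hf.1 a (MvPolynomial.mem_support_iff.2 h))

/-- the table of the coefficients -/
noncomputable def tb {m : ℕ} (n : Fin m → ℕ) (H : ℕ) (f : Bx n H) :
    ((i : Fin m) → Fin (n i + 1)) → Fin H :=
  fun e => ⟨((f : Zm m).coeff (ex e)).toNat, by
    have h := f.2.2 (ex e)
    omega⟩

theorem tb_injective {m : ℕ} (n : Fin m → ℕ) (H : ℕ) : Function.Injective (tb n H) := by
  intro f f' h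
  apply Subtype.ext
  ext a
  by_cases ha : ∀ i, a i ≤ n i
  · have h1 := congrFun h (fun i => ⟨a i, Nat.lt_succ_of_le (ha i)⟩)
    have h2 := congrArg Fin.val h1
    have h3 : ex (n := n) (fun i => ⟨a i, Nat.lt_succ_of_le (ha i)⟩) = a := by
      ext i
      rw [ex_apply]
    simp only [tb] at h2
    rw [h3] at h2
    have h4 := f.2.2 a
    have h5 := f'.2.2 a
    omega
  · rw [coeff_eq_zero f.2 ha, coeff_eq_zero f'.2 ha]

theorem finite_Bx {m : ℕ} (n : Fin m → ℕ) (H : ℕ) : Finite (Bx n H) :=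
  Finite.of_injective _ (tb_injective n H)

theorem ncard_Bx_le {m : ℕ} (n : Fin m → ℕ) (H : ℕ) :
    (Bx n H).ncard ≤ H ^ (∏ i, (n i + 1)) := by
  have h := Nat.card_le_card_of_injective _ (tb_injective n H)
  rw [Nat.card_coe_set_eq, Nat.card_eq_fintype_card] at h
  simpa [Fintype.card_pi] using h

theorem abs_coeff_mul_le {m : ℕ} (G u : Zm m) (H : ℝ) (hu : ∀ a, |((u.coeff a : ℤ) : ℝ)| ≤ H)
    (hH : 0 ≤ H) (a : Fin m →₀ ℕ) : |(((G * u).coeff a : ℤ) : ℝ)| ≤ l1 G * H := by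
  have h1 : (G * u).coeff a = ∑ b ∈ G.support,
      if b ≤ a then G.coeff b * u.coeff (a - b) else 0 := by
    conv_lhs => rw [G.as_sum, Finset.sum_mul, MvPolynomial.coeff_sum]
    exact Finset.sum_congr rfl fun b _ => MvPolynomial.coeff_monomial_mul' _ _ _ _
  rw [h1, Int.cast_sum, l1, Finset.sum_mul]
  refine (Finset.abs_sum_le_sum_abs _ _).trans (Finset.sum_le_sum fun b _ => ?_)
  split_ifs with h
  · rw [Int.cast_mul, abs_mul]
    exact mul_le_mul_of_nonneg_left (hu _) (abs_nonneg _)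
  · rw [Int.cast_zero, abs_zero]
    positivity

theorem exp_mul {m : ℕ} {G u : Zm m} {d n : Fin m → ℕ} (hd : ∀ a ∈ G.support, ∀ i, a i ≤ d i)
    (hn : ∀ a ∈ u.support, ∀ i, a i ≤ n i) (a : Fin m →₀ ℕ) (ha : a ∈ (G * u).support)
    (i : Fin m) : a i ≤ n i + d i := by
  classical
  have h1 := MvPolynomial.support_mul G u ha
  obtain ⟨b, hb, c, hc, rfl⟩ := Finset.mem_add.1 h1
  have h2 := hd b hb i
  have h3 := hn c hc i
  rw [Finsupp.add_apply]
  omega

/-- the sum of all monomials in the box -/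
noncomputable def EE {m : ℕ} (n : Fin m → ℕ) : Zm m :=
  ∑ a ∈ Finset.Iic (Finsupp.equivFunOnFinite.symm n), MvPolynomial.monomial a 1

open Classical in
theorem coeff_EE {m : ℕ} (n : Fin m → ℕ) (a : Fin m →₀ ℕ) :
    (EE n).coeff a = if ∀ i, a i ≤ n i then 1 else 0 := by
  have h0 : a ∈ Finset.Iic (Finsupp.equivFunOnFinite.symm n) ↔ ∀ i, a i ≤ n i := by
    rw [Finset.mem_Iic]
    exact Iff.rfl
  unfold EE
  rw [MvPolynomial.coeff_sum]
  simp only [MvPolynomial.coeff_monomial]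
  rw [Finset.sum_ite_eq']
  simp only [h0]

theorem mem_big {m : ℕ} {G v u : Zm m} {d n : Fin m → ℕ} {g H : ℕ}
    (hd : ∀ a ∈ G.support, ∀ i, a i ≤ d i) (hg : l1 G ≤ g) (hH : 0 < H)
    (hv : v ∈ Bx (n + d) H) (hu : u ∈ Bx n H) :
    v + G * u + MvPolynomial.C ((g * H : ℕ) : ℤ) * EE (n + d) ∈
      Bx (n + d) ((2 * g + 1) * H) := by
  classical
  have hc : ∀ a, (v + G * u + MvPolynomial.C ((g * H : ℕ) : ℤ) * EE (n + d)).coeff a =
      v.coeff a + (G * u).coeff a +
        ((g * H : ℕ) : ℤ) * (if ∀ i, a i ≤ (n + d) i then 1 else 0) := by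
    intro a
    rw [MvPolynomial.coeff_add, MvPolynomial.coeff_add, MvPolynomial.coeff_C_mul, coeff_EE]
  have hout : ∀ a : Fin m →₀ ℕ, ¬ (∀ i, a i ≤ (n + d) i) → v.coeff a = 0 ∧
      (G * u).coeff a = 0 := by
    intro a ha
    refine ⟨coeff_eq_zero hv ha, ?_⟩
    by_contra h
    exact ha (exp_mul hd hu.1 a (MvPolynomial.mem_support_iff.2 h))
  constructor
  · intro a ha
    by_contra h
    obtain ⟨h1, h2⟩ := hout a h
    rw [MvPolynomial.mem_support_iff, hc, h1, h2, if_neg h] at ha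
    simp at ha
  · intro a
    rw [hc]
    have hpos : (0 : ℤ) < (((2 * g + 1) * H : ℕ) : ℤ) := by
      exact_mod_cast Nat.mul_pos (by omega) hH
    split_ifs with h
    · have hu' : ∀ b, |((u.coeff b : ℤ) : ℝ)| ≤ H := by
        intro b
        have h3 := hu.2 b
        rw [abs_of_nonneg (by exact_mod_cast h3.1)]
        exact_mod_cast h3.2.le
      have h4 := abs_coeff_mul_le G u H hu' (by positivity) a
      have h5 : |(((G * u).coeff a : ℤ) : ℝ)| ≤ g * H :=
        h4.trans (mul_le_mul_of_nonneg_right hg (by positivity))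
      have h6 : |(G * u).coeff a| ≤ ((g * H : ℕ) : ℤ) := by
        have : ((|(G * u).coeff a| : ℤ) : ℝ) ≤ (((g * H : ℕ) : ℤ) : ℝ) := by
          push_cast
          exact h5
        exact_mod_cast this
      have h7 := abs_le.1 h6
      have h8 := hv.2 a
      have h9 : (((2 * g + 1) * H : ℕ) : ℤ) = 2 * ((g * H : ℕ) : ℤ) + (H : ℤ) := by
        push_cast
        ring
      rw [h9]
      constructor
      · linarith
      · linarith
    · obtain ⟨h1, h2⟩ := hout a h
      rw [h1, h2]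
      simpa using hpos

end NuStep

/-- the box is finite, and `nu` is at most its number of elements -/
theorem Bx_finite {m : ℕ} (n : Fin m → ℕ) (H : ℕ) : (Bx n H).Finite :=
  haveI := NuStep.finite_Bx n H
  Set.toFinite _

theorem nu_le {m : ℕ} (J : Ideal (Pm m)) (n : Fin m → ℕ) (H : ℕ) :
    nu J n H ≤ H ^ (∏ i, (n i + 1)) :=
  (Set.ncard_image_le (Bx_finite n H)).trans (NuStep.ncard_Bx_le n H)

theorem nu_mono {m : ℕ} {J J' : Ideal (Pm m)} (hJ : J ≤ J') {n n' : Fin m → ℕ}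
    (hn : ∀ i, n i ≤ n' i) {H H' : ℕ} (hH : H ≤ H') : nu J' n H ≤ nu J n' H' := by
  have h1 : (fun f : Zm m => Ideal.Quotient.mk J' (toQ f)) '' Bx n H =
      (Ideal.Quotient.factor hJ) '' ((fun f : Zm m => Ideal.Quotient.mk J (toQ f)) '' Bx n H) := by
    rw [Set.image_image]
    refine Set.image_congr fun f _ => ?_
    exact (Ideal.Quotient.factor_mk hJ _).symm
  have h2 : Bx n H ⊆ Bx n' H' := by
    intro f hf
    refine ⟨fun a ha i => (hf.1 a ha i).trans (hn i), fun a => ⟨(hf.2 a).1, (hf.2 a).2.trans_le ?_⟩⟩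
    exact_mod_cast hH
  unfold nu
  rw [h1]
  refine (Set.ncard_image_le ((Bx_finite n H).image _)).trans ?_
  exact Set.ncard_le_ncard (Set.image_mono h2) ((Bx_finite n' H').image _)

/-- **Counting step (arithmetic Bezout by pigeonhole).** -/
theorem nu_step {m : ℕ} (J J' : Ideal (Pm m)) (G : Zm m) (d n : Fin m → ℕ) (g H : ℕ)
    (hd : ∀ a ∈ G.support, ∀ i, a i ≤ d i) (hg : l1 G ≤ g) (hz : Nz (toQ G) J) (hJ : J ≤ J')
    (hG : toQ G ∈ J') :
    nu J' (n + d) H * nu J n H ≤ nu J (n + d) ((2 * g + 1) * H) := by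
  classical
  rcases Nat.eq_zero_or_pos H with hH | hH
  · subst hH
    have h0 := nu_le J n 0
    rw [zero_pow (Finset.prod_ne_zero_iff.2 fun i _ => Nat.succ_ne_zero _)] at h0
    have h1 : nu J n 0 = 0 := Nat.le_zero.1 h0
    rw [h1, mul_zero]
    exact Nat.zero_le _
  · have hv : ∀ α ∈ (fun f : Zm m => Ideal.Quotient.mk J' (toQ f)) '' Bx (n + d) H,
        ∃ v ∈ Bx (n + d) H, Ideal.Quotient.mk J' (toQ v) = α := fun α h => h
    have hu : ∀ β ∈ (fun f : Zm m => Ideal.Quotient.mk J (toQ f)) '' Bx n H,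
        ∃ u ∈ Bx n H, Ideal.Quotient.mk J (toQ u) = β := fun β h => h
    choose! v hv1 hv2 using hv
    choose! u hu1 hu2 using hu
    unfold nu
    rw [← Set.ncard_prod]
    refine Set.ncard_le_ncard_of_injOn (fun x => Ideal.Quotient.mk J (toQ (v x.1 + G * u x.2 +
      MvPolynomial.C ((g * H : ℕ) : ℤ) * NuStep.EE (n + d)))) ?_ ?_ ((Bx_finite _ _).image _)
    · rintro ⟨α, β⟩ hx
      obtain ⟨hα, hβ⟩ := Set.mem_prod.1 hx
      exact ⟨_, NuStep.mem_big hd hg hH (hv1 α hα) (hu1 β hβ), rfl⟩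
    · rintro ⟨α, β⟩ hx ⟨α', β'⟩ hx' h
      obtain ⟨hα, hβ⟩ := Set.mem_prod.1 hx
      obtain ⟨hα', hβ'⟩ := Set.mem_prod.1 hx'
      simp only at hα hβ hα' hβ' h
      rw [Ideal.Quotient.mk_eq_mk_iff_sub_mem] at h
      simp only [map_add, map_mul] at h
      have h1 : toQ (v α) - toQ (v α') + toQ G * (toQ (u β) - toQ (u β')) ∈ J := by
        have e : toQ (v α) + toQ G * toQ (u β) +
            toQ (MvPolynomial.C ((g * H : ℕ) : ℤ)) * toQ (NuStep.EE (n + d)) -
            (toQ (v α') + toQ G * toQ (u β') +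
            toQ (MvPolynomial.C ((g * H : ℕ) : ℤ)) * toQ (NuStep.EE (n + d))) =
            toQ (v α) - toQ (v α') + toQ G * (toQ (u β) - toQ (u β')) := by ring
        rw [← e]
        exact h
      have h2 : toQ (v α) - toQ (v α') ∈ J' := by
        have h3 := J'.sub_mem (hJ h1) (J'.mul_mem_right (toQ (u β) - toQ (u β')) hG)
        rwa [add_sub_cancel_right] at h3
      have h4 : α = α' := by
        rw [← hv2 α hα, ← hv2 α' hα']
        exact Ideal.Quotient.mk_eq_mk_iff_sub_mem _ _ |>.2 h2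
      subst h4
      rw [sub_self, zero_add] at h1
      have h5 := hz _ h1
      have h6 : β = β' := by
        rw [← hu2 β hβ, ← hu2 β' hβ']
        exact Ideal.Quotient.mk_eq_mk_iff_sub_mem _ _ |>.2 h5
      rw [h6]

end Pool.Agent.H723.PT
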