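import Pool.Agent.H723.PT.Defs

set_option autoImplicit false

open Finset

namespace Pool.Agent.H723.PT

open Pool.Agent.H393R2.RothNS

namespace T9

variable {m : ℕ}

theorem bx_finite (n : Fin m → ℕ) (H : ℕ) : (Bx (m := m) n H).Finite := by
  classical
  let N : Fin m →₀ ℕ := Finsupp.equivFunOnFinite.symm n
  let g : ((Finset.Iic N) → Fin H) → Zm m := fun w =>
    ∑ e : (Finset.Iic N), MvPolynomial.monomial (e : Fin m →₀ ℕ) (((w e : Fin H) : ℕ) : ℤ)
  apply (Set.finite_range g).subset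
  intro f hf
  obtain ⟨h1, h2⟩ := hf
  refine ⟨fun e => ⟨(f.coeff (e : Fin m →₀ ℕ)).toNat, ?_⟩, ?_⟩
  · have := h2 (e : Fin m →₀ ℕ)
    omega
  · change ∑ e : (Finset.Iic N), MvPolynomial.monomial (e : Fin m →₀ ℕ)
      (((f.coeff (e : Fin m →₀ ℕ)).toNat : ℕ) : ℤ) = f
    rw [Finset.sum_coe_sort (Finset.Iic N)
      (fun e => MvPolynomial.monomial e (((f.coeff e).toNat : ℕ) : ℤ))]
    ext a
    rw [MvPolynomial.coeff_sum]
    simp only [MvPolynomial.coeff_monomial]
    rw [Finset.sum_ite_eq']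
    split_ifs with ha
    · exact Int.toNat_of_nonneg (h2 a).1
    · symm
      by_contra hne
      apply ha
      rw [Finset.mem_Iic]
      intro i
      exact h1 a (MvPolynomial.mem_support_iff.2 hne) i

/-- kill the variables outside `S` -/
noncomputable def ES {R : Type*} [CommRing R] (S : Finset (Fin m)) :
    MvPolynomial (Fin m) R →ₐ[R] MvPolynomial (Fin m) R :=
  MvPolynomial.aeval (fun j => if j ∈ S then MvPolynomial.X j else 0)

theorem ES_monomial {R : Type*} [CommRing R] (S : Finset (Fin m)) (a : Fin m →₀ ℕ) (r : R) :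
    ES S (MvPolynomial.monomial a r) = if a.support ⊆ S then MvPolynomial.monomial a r else 0 := by
  classical
  unfold ES
  rw [MvPolynomial.aeval_monomial]
  split_ifs with h
  · rw [MvPolynomial.monomial_eq, MvPolynomial.algebraMap_eq]
    congr 1
    apply Finsupp.prod_congr
    intro i hi
    rw [if_pos (h hi)]
  · obtain ⟨j, hj, hjS⟩ := Finset.not_subset.1 h
    have h0 : (a.prod fun i k => (if i ∈ S then (MvPolynomial.X i : MvPolynomial (Fin m) R)
        else 0) ^ k) = 0 := by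
      apply Finset.prod_eq_zero hj
      change (if j ∈ S then (MvPolynomial.X j : MvPolynomial (Fin m) R) else 0) ^ (a j) = 0
      rw [if_neg hjS]
      exact zero_pow (Finsupp.mem_support_iff.1 hj)
    rw [h0, mul_zero]

theorem coeff_ES {R : Type*} [CommRing R] (S : Finset (Fin m)) (P : MvPolynomial (Fin m) R)
    (κ : Fin m →₀ ℕ) : (ES S P).coeff κ = if κ.support ⊆ S then P.coeff κ else 0 := by
  classical
  induction P using MvPolynomial.induction_on' with
  | monomial u a =>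
    rw [ES_monomial]
    by_cases hu : u = κ
    · subst hu
      split_ifs with h
      · rfl
      · rfl
    · rw [MvPolynomial.coeff_monomial, if_neg hu]
      split_ifs with h h' h'
      · rw [MvPolynomial.coeff_monomial, if_neg hu]
      · rw [MvPolynomial.coeff_monomial, if_neg hu]
      · rfl
      · rfl
  | add p q hp hq =>
    rw [map_add, MvPolynomial.coeff_add, MvPolynomial.coeff_add, hp, hq]
    split_ifs with h
    · rfl
    · rw [add_zero]

/-- the Taylor expansion modulo `p` in the directions of `S` -/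
noncomputable def Tht (p : Ideal (Pm m)) (S : Finset (Fin m)) :
    Pm m →+* MvPolynomial (Fin m) (Pm m ⧸ p) :=
  (ES S).toRingHom.comp ((MvPolynomial.map (Ideal.Quotient.mk p)).comp Th)

theorem coeff_Tht (p : Ideal (Pm m)) (S : Finset (Fin m)) (f : Pm m) (κ : Fin m →₀ ℕ) :
    (Tht p S f).coeff κ = if κ.support ⊆ S then Ideal.Quotient.mk p (DD κ f) else 0 := by
  have h1 : Tht p S f = ES S (MvPolynomial.map (Ideal.Quotient.mk p) (Th f)) := rfl
  rw [h1, coeff_ES, MvPolynomial.coeff_map, coeff_Th]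

theorem key (p : Ideal (Pm m)) (hp : p.IsPrime) (d : Fin m → ℕ) (ε : ℝ) (S : Finset (Fin m))
    (G : Fin m → Pm m) (hg1 : ∀ i ∈ S, G i ∈ p)
    (hg2 : ∀ i ∈ S, DD (Finsupp.single i 1) (G i) ∉ p)
    (hg3 : ∀ i ∈ S, ∀ j ∈ S, j ≠ i → ∀ a : Fin m →₀ ℕ, a j ≠ 0 → (G i).coeff a = 0)
    (Cs : Finset (Fin m →₀ ℕ)) (hC : ∀ c ∈ Cs, c.support ⊆ S ∧ wt d c < ε)
    (φ : (Fin m →₀ ℕ) → Pm m) (hφ : ∀ c ∈ Cs, φ c = 0 ∨ φ c ∉ p)
    (hF : ∑ c ∈ Cs, φ c * ∏ i ∈ S, (G i) ^ (c i) ∈ Je p d ε) : ∀ c ∈ Cs, φ c = 0 := by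
  classical
  by_contra hcon
  push Not at hcon
  obtain ⟨c1, hc1, hc1'⟩ := hcon
  have hTne : (Cs.filter (fun c => φ c ≠ 0)).Nonempty := ⟨c1, Finset.mem_filter.2 ⟨hc1, hc1'⟩⟩
  obtain ⟨c0, hc0⟩ := Finset.exists_minimal hTne
  have hc0m := Finset.mem_filter.1 hc0.prop
  have hmin : ∀ c ∈ Cs, c ≤ c0 → c ≠ c0 → φ c = 0 := by
    intro c hc hle hne
    by_contra h
    exact hne (le_antisymm hle (hc0.le_of_le (Finset.mem_filter.2 ⟨hc, h⟩) hle))
  have : IsDomain (Pm m ⧸ p) := Ideal.Quotient.isDomain p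
  have hH : ∀ i ∈ S, ∃ Hi : MvPolynomial (Fin m) (Pm m ⧸ p),
      Tht p S (G i) = MvPolynomial.X i * Hi ∧ Hi.coeff 0 ≠ 0 := by
    intro i hi
    have hd : (MvPolynomial.X i : MvPolynomial (Fin m) (Pm m ⧸ p)) ∣ Tht p S (G i) := by
      rw [MvPolynomial.X_dvd_iff_modMonomial_eq_zero]
      ext κ
      rw [MvPolynomial.coeff_zero]
      by_cases hle : Finsupp.single i 1 ≤ κ
      · exact MvPolynomial.coeff_modMonomial_of_le _ hle
      · rw [MvPolynomial.coeff_modMonomial_of_not_le _ hle, coeff_Tht]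
        have hκi : κ i = 0 := by
          by_contra hne
          apply hle
          rw [Finsupp.single_le_iff]
          omega
        split_ifs with hκS
        · rw [Ideal.Quotient.eq_zero_iff_mem]
          by_cases hκ0 : κ = 0
          · rw [hκ0, DD_zero']
            exact hg1 i hi
          · obtain ⟨j, hj⟩ := Finsupp.ne_iff.1 hκ0
            rw [Finsupp.coe_zero, Pi.zero_apply] at hj
            have hji : j ≠ i := by
              intro h
              rw [h] at hj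
              exact hj hκi
            have hjS : j ∈ S := hκS (Finsupp.mem_support_iff.2 hj)
            have hz : DD κ (G i) = 0 := by
              ext a
              rw [coeff_DD, hg3 i hi j hjS hji (a + κ) (by
                rw [Finsupp.add_apply]
                omega), mul_zero, MvPolynomial.coeff_zero]
            rw [hz]
            exact p.zero_mem
        · rfl
    obtain ⟨Hi, hHi⟩ := hd
    refine ⟨Hi, hHi, ?_⟩
    have h1 : (Tht p S (G i)).coeff (Finsupp.single i 1) = Hi.coeff 0 := by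
      rw [hHi]
      have h2 := MvPolynomial.coeff_X_mul (0 : Fin m →₀ ℕ) i Hi
      rw [add_zero] at h2
      exact h2
    rw [← h1, coeff_Tht, if_pos (by
      intro j hj
      have := Finsupp.support_single_subset hj
      rw [Finset.mem_singleton] at this
      rw [this]
      exact hi)]
    intro h
    exact hg2 i hi (Ideal.Quotient.eq_zero_iff_mem.1 h)
  choose! H hH1 hH2 using hH
  have hU : ∀ c ∈ Cs, Tht p S (∏ i ∈ S, (G i) ^ (c i)) =
      MvPolynomial.monomial c 1 * ∏ i ∈ S, (H i) ^ (c i) := by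
    intro c hc
    rw [map_prod]
    have h1 : ∀ i ∈ S, Tht p S ((G i) ^ (c i)) =
        (MvPolynomial.X i) ^ (c i) * (H i) ^ (c i) := by
      intro i hi
      rw [map_pow, hH1 i hi, mul_pow]
    rw [Finset.prod_congr rfl h1, Finset.prod_mul_distrib]
    congr 1
    rw [MvPolynomial.monomial_eq, map_one, one_mul]
    symm
    exact Finsupp.prod_of_support_subset c (hC c hc).1 _ (fun i _ => pow_zero _)
  have hz : (Tht p S (∑ c ∈ Cs, φ c * ∏ i ∈ S, (G i) ^ (c i))).coeff c0 = 0 := by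
    rw [coeff_Tht, if_pos (hC c0 hc0m.1).1, Ideal.Quotient.eq_zero_iff_mem]
    exact hF c0 (hC c0 hc0m.1).2
  rw [map_sum, MvPolynomial.coeff_sum, Finset.sum_eq_single_of_mem c0 hc0m.1] at hz
  · rw [map_mul, hU c0 hc0m.1, ← mul_assoc, mul_comm (Tht p S (φ c0)), mul_assoc,
      MvPolynomial.coeff_monomial_mul', if_pos le_rfl, one_mul, tsub_self] at hz
    have h1 : (Tht p S (φ c0) * ∏ i ∈ S, (H i) ^ (c0 i)).coeff 0 =
        Ideal.Quotient.mk p (φ c0) * ∏ i ∈ S, ((H i).coeff 0) ^ (c0 i) := by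
      have h2 : ∀ P : MvPolynomial (Fin m) (Pm m ⧸ p), P.coeff 0 =
          MvPolynomial.constantCoeff P := fun P => rfl
      rw [h2, map_mul, map_prod]
      congr 1
      · rw [← h2, coeff_Tht, if_pos (by simp), DD_zero']
      · apply Finset.prod_congr rfl
        intro i _
        rw [map_pow, ← h2]
    rw [h1, mul_eq_zero] at hz
    rcases hz with hz | hz
    · rw [Ideal.Quotient.eq_zero_iff_mem] at hz
      rcases hφ c0 hc0m.1 with h | h
      · exact hc0m.2 h
      · exact h hz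
    · rw [Finset.prod_eq_zero_iff] at hz
      obtain ⟨i, hi, hz⟩ := hz
      exact pow_ne_zero _ (hH2 i hi) hz
  · intro c hc hne
    by_cases hle : c ≤ c0
    · rw [hmin c hc hle hne, zero_mul, map_zero, MvPolynomial.coeff_zero]
    · rw [map_mul, hU c hc, ← mul_assoc, mul_comm (Tht p S (φ c)), mul_assoc,
        MvPolynomial.coeff_monomial_mul', if_neg hle]

theorem coeff_mul_sum (ψ u : Zm m) (e : Fin m →₀ ℕ) :
    (ψ * u).coeff e = ∑ a ∈ u.support, if a ≤ e then ψ.coeff (e - a) * u.coeff a else 0 := by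
  classical
  conv_lhs => rw [u.as_sum]
  rw [Finset.mul_sum, MvPolynomial.coeff_sum]
  apply Finset.sum_congr rfl
  intro a _
  rw [MvPolynomial.coeff_mul_monomial']

theorem coeff_mul_abs (ψ u : Zm m) (B : Fin m → ℕ) (h : ℕ) (hψ : ψ ∈ Bx B h)
    (e : Fin m →₀ ℕ) :
    |(ψ * u).coeff e| ≤ (h : ℤ) * ((∑ a ∈ u.support, (u.coeff a).natAbs : ℕ) : ℤ) := by
  classical
  rw [coeff_mul_sum]
  refine (Finset.abs_sum_le_sum_abs _ _).trans ?_
  rw [Nat.cast_sum, Finset.mul_sum]
  apply Finset.sum_le_sum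
  intro a _
  split_ifs with hle
  · rw [abs_mul, Int.natCast_natAbs]
    apply mul_le_mul_of_nonneg_right _ (abs_nonneg _)
    have := hψ.2 (e - a)
    rw [abs_of_nonneg this.1]
    exact this.2.le
  · rw [abs_zero]
    positivity

theorem coeff_mul_zero (ψ u : Zm m) (B : Fin m → ℕ) (h : ℕ) (hψ : ψ ∈ Bx B h) (E : ℕ)
    (hE : ∀ a ∈ u.support, ∀ i, a i ≤ E) (e : Fin m →₀ ℕ) (he : ¬ ∀ i, e i ≤ B i + E) :
    (ψ * u).coeff e = 0 := by
  classical
  rw [coeff_mul_sum]
  apply Finset.sum_eq_zero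
  intro a ha
  split_ifs with hle
  · have h0 : ψ.coeff (e - a) = 0 := by
      by_contra hne
      apply he
      intro i
      have h1 := hψ.1 (e - a) (MvPolynomial.mem_support_iff.2 hne) i
      have h2 := hE a ha i
      rw [Finsupp.tsub_apply] at h1
      omega
    rw [h0, zero_mul]
  · rfl

end T9

/-- **Lower bound for the number of classes modulo `Je p d ε`** -/
theorem nu_Je_ge {m : ℕ} (p : Ideal (Pm m)) (hp : p.IsPrime) (d : Fin m → ℕ) (ε : ℝ)
    (S : Finset (Fin m)) (g : Fin m → Zm m) (hg1 : ∀ i ∈ S, toQ (g i) ∈ p)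
    (hg2 : ∀ i ∈ S, DD (Finsupp.single i 1) (toQ (g i)) ∉ p)
    (hg3 : ∀ i ∈ S, ∀ j ∈ S, j ≠ i → j ∉ (g i).vars)
    (Cs : Finset (Fin m →₀ ℕ)) (hC : ∀ c ∈ Cs, c.support ⊆ S ∧ wt d c < ε) :
    ∃ D : ℕ, ∀ (B : Fin m → ℕ) (h : ℕ), 1 ≤ h → ∀ Ψ : Finset (Zm m), (∀ ψ ∈ Ψ, ψ ∈ Bx B h) →
      (∀ ψ ∈ Ψ, ∀ ψ' ∈ Ψ, ψ ≠ ψ' → toQ ψ - toQ ψ' ∉ p) →
      #Ψ ^ #Cs ≤ nu (Je p d ε) (fun i => B i + D) (D * h) := by
  classical
  let u : (Fin m →₀ ℕ) → Zm m := fun c => ∏ i ∈ S, (g i) ^ (c i)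
  let L : ℕ := ∑ c ∈ Cs, ∑ a ∈ (u c).support, ((u c).coeff a).natAbs
  let E : ℕ := ∑ c ∈ Cs, ∑ a ∈ (u c).support, ∑ i, a i
  have hE : ∀ c ∈ Cs, ∀ a ∈ (u c).support, ∀ i, a i ≤ E := by
    intro c hc a ha i
    calc a i ≤ ∑ i, a i := Finset.single_le_sum (fun j _ => Nat.zero_le (a j)) (Finset.mem_univ i)
      _ ≤ ∑ a ∈ (u c).support, ∑ i, a i :=
        Finset.single_le_sum (f := fun a : Fin m →₀ ℕ => ∑ i, a i) (fun _ _ => Nat.zero_le _) ha
      _ ≤ E := Finset.single_le_sum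
        (f := fun c => ∑ a ∈ (u c).support, ∑ i, a i) (fun _ _ => Nat.zero_le _) hc
  refine ⟨2 * L + 1 + E, ?_⟩
  intro B h hh Ψ hΨ1 hΨ2
  let N : Fin m →₀ ℕ := Finsupp.equivFunOnFinite.symm (fun i => B i + (2 * L + 1 + E))
  let M : Zm m := ∑ e ∈ Finset.Iic N, MvPolynomial.monomial e ((h * L : ℕ) : ℤ)
  have hMin : ∀ e : Fin m →₀ ℕ, (∀ i, e i ≤ B i + (2 * L + 1 + E)) → M.coeff e = ((h * L : ℕ) : ℤ) := by
    intro e he
    simp only [M, MvPolynomial.coeff_sum, MvPolynomial.coeff_monomial]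
    rw [Finset.sum_ite_eq', if_pos (Finset.mem_Iic.2 he)]
  have hMout : ∀ e : Fin m →₀ ℕ, (¬ ∀ i, e i ≤ B i + (2 * L + 1 + E)) → M.coeff e = 0 := by
    intro e he
    simp only [M, MvPolynomial.coeff_sum, MvPolynomial.coeff_monomial]
    rw [Finset.sum_ite_eq', if_neg (fun h => he (Finset.mem_Iic.1 h))]
  let F : (Cs → Ψ) → Zm m := fun w => ∑ c : Cs, ((w c : Ψ) : Zm m) * u c + M
  have hFB : ∀ w, F w ∈ Bx (fun i => B i + (2 * L + 1 + E)) ((2 * L + 1 + E) * h) := by
    intro w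
    have habs : ∀ e, |(∑ c : Cs, ((w c : Ψ) : Zm m) * u c).coeff e| ≤ ((h * L : ℕ) : ℤ) := by
      intro e
      rw [MvPolynomial.coeff_sum]
      refine (Finset.abs_sum_le_sum_abs _ _).trans ?_
      have h1 : ∀ c : Cs, |(((w c : Ψ) : Zm m) * u c).coeff e| ≤
          (h : ℤ) * ((∑ a ∈ (u c).support, ((u c).coeff a).natAbs : ℕ) : ℤ) := fun c =>
        T9.coeff_mul_abs _ _ B h (hΨ1 _ (w c).2) e
      refine (Finset.sum_le_sum (fun c _ => h1 c)).trans (le_of_eq ?_)
      rw [← Finset.mul_sum, Nat.cast_mul]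
      congr 1
      rw [Finset.sum_coe_sort Cs
        (fun c => ((∑ a ∈ (u c).support, ((u c).coeff a).natAbs : ℕ) : ℤ)), ← Nat.cast_sum]
    have hout : ∀ e : Fin m →₀ ℕ, (¬ ∀ i, e i ≤ B i + (2 * L + 1 + E)) → (F w).coeff e = 0 := by
      intro e he
      change (∑ c : Cs, ((w c : Ψ) : Zm m) * u c + M).coeff e = 0
      rw [MvPolynomial.coeff_add, hMout e he, add_zero, MvPolynomial.coeff_sum]
      apply Finset.sum_eq_zero
      intro c _
      apply T9.coeff_mul_zero _ _ B h (hΨ1 _ (w c).2) E (hE c c.2)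
      intro h'
      apply he
      intro i
      have := h' i
      omega
    constructor
    · intro a ha
      by_contra hcon
      exact (MvPolynomial.mem_support_iff.1 ha) (hout a hcon)
    · intro a
      by_cases hin : ∀ i, a i ≤ B i + (2 * L + 1 + E)
      · have h2 : (F w).coeff a = (∑ c : Cs, ((w c : Ψ) : Zm m) * u c).coeff a +
            ((h * L : ℕ) : ℤ) := by
          change (∑ c : Cs, ((w c : Ψ) : Zm m) * u c + M).coeff a = _
          rw [MvPolynomial.coeff_add, hMin a hin]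
        have h3 := abs_le.1 (habs a)
        have h4 : 2 * (h * L) < (2 * L + 1 + E) * h := by nlinarith
        have h5 : ((2 * (h * L) : ℕ) : ℤ) < (((2 * L + 1 + E) * h : ℕ) : ℤ) := by exact_mod_cast h4
        push_cast at h5 h3 h2 ⊢
        rw [h2]
        constructor
        · linarith [h3.1]
        · linarith [h3.2]
      · rw [hout a hin]
        refine ⟨le_rfl, ?_⟩
        have : 0 < (2 * L + 1 + E) * h := by positivity
        exact_mod_cast this
  have hinj : Function.Injective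
      (fun w => Ideal.Quotient.mk (Je p d ε) (toQ (F w))) := by
    intro w w' hww
    have h1 : toQ (F w) - toQ (F w') ∈ Je p d ε := by
      rw [← Ideal.Quotient.eq]
      exact hww
    let ψ : (Fin m →₀ ℕ) → Zm m := fun c => if hc : c ∈ Cs then ((w ⟨c, hc⟩ : Ψ) : Zm m) else 0
    let ψ' : (Fin m →₀ ℕ) → Zm m := fun c => if hc : c ∈ Cs then ((w' ⟨c, hc⟩ : Ψ) : Zm m) else 0
    have hψ : ∀ c : Cs, ψ c = ((w c : Ψ) : Zm m) := fun c => dif_pos c.2
    have hψ' : ∀ c : Cs, ψ' c = ((w' c : Ψ) : Zm m) := fun c => dif_pos c.2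
    have hFw : F w = ∑ c ∈ Cs, ψ c * u c + M := by
      change ∑ c : Cs, ((w c : Ψ) : Zm m) * u c + M = _
      congr 1
      rw [← Finset.sum_coe_sort Cs (fun c => ψ c * u c)]
      exact Finset.sum_congr rfl (fun c _ => by rw [hψ c])
    have hFw' : F w' = ∑ c ∈ Cs, ψ' c * u c + M := by
      change ∑ c : Cs, ((w' c : Ψ) : Zm m) * u c + M = _
      congr 1
      rw [← Finset.sum_coe_sort Cs (fun c => ψ' c * u c)]
      exact Finset.sum_congr rfl (fun c _ => by rw [hψ' c])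
    have h2 : toQ (F w) - toQ (F w') =
        ∑ c ∈ Cs, (toQ (ψ c) - toQ (ψ' c)) * ∏ i ∈ S, (toQ (g i)) ^ (c i) := by
      rw [hFw, hFw', map_add, map_add, add_sub_add_right_eq_sub, map_sum, map_sum,
        ← Finset.sum_sub_distrib]
      apply Finset.sum_congr rfl
      intro c _
      rw [map_mul, map_mul, ← sub_mul]
      congr 1
      change toQ (∏ i ∈ S, (g i) ^ (c i)) = _
      rw [map_prod]
      exact Finset.prod_congr rfl (fun i _ => map_pow _ _ _)
    rw [h2] at h1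
    have hφ : ∀ c ∈ Cs, toQ (ψ c) - toQ (ψ' c) = 0 ∨ toQ (ψ c) - toQ (ψ' c) ∉ p := by
      intro c hc
      by_cases he : ψ c = ψ' c
      · left
        rw [he, sub_self]
      · right
        have e1 := hψ ⟨c, hc⟩
        have e2 := hψ' ⟨c, hc⟩
        have e1' : ψ c ∈ Ψ := by
          rw [show ψ c = _ from e1]
          exact (w ⟨c, hc⟩).2
        have e2' : ψ' c ∈ Ψ := by
          rw [show ψ' c = _ from e2]
          exact (w' ⟨c, hc⟩).2
        exact hΨ2 _ e1' _ e2' he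
    have h3 := T9.key p hp d ε S (fun i => toQ (g i)) hg1 hg2 (by
      intro i hi j hj hji a ha
      have h4 : (toQ (g i)).coeff a = (((g i).coeff a : ℤ) : ℚ) := MvPolynomial.coeff_map _ _ _
      rw [h4]
      have h5 : (g i).coeff a = 0 := by
        by_contra hne
        apply hg3 i hi j hj hji
        rw [MvPolynomial.mem_vars_iff_mem_support]
        exact ⟨a, MvPolynomial.mem_support_iff.2 hne, Finsupp.mem_support_iff.2 ha⟩
      rw [h5, Int.cast_zero]) Cs hC (fun c => toQ (ψ c) - toQ (ψ' c)) hφ h1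
    funext c
    apply Subtype.ext
    rw [← hψ c, ← hψ' c]
    by_contra hne
    have h6 := h3 c c.2
    have e1' : ψ c ∈ Ψ := by
      rw [hψ c]
      exact (w c).2
    have e2' : ψ' c ∈ Ψ := by
      rw [hψ' c]
      exact (w' c).2
    apply hΨ2 _ e1' _ e2' hne
    rw [h6]
    exact p.zero_mem
  have hcard : #Ψ ^ #Cs = (Set.univ : Set (Cs → Ψ)).ncard := by
    rw [Set.ncard_univ, Nat.card_eq_fintype_card, Fintype.card_fun, Fintype.card_coe,
      Fintype.card_coe]
  rw [hcard, ← Set.ncard_image_of_injective Set.univ hinj]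
  unfold nu
  apply Set.ncard_le_ncard _ ((T9.bx_finite _ _).image _)
  rintro _ ⟨w, -, rfl⟩
  exact ⟨F w, hFB w, rfl⟩

end Pool.Agent.H723.PT
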