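import Pool.Agent.H723.PT.Defs
import Pool.Agent.H723.PT.T1
import Pool.Agent.H723.PT.T2
import Pool.Agent.H723.PT.T3
import Pool.Agent.H723.PT.T4
import Pool.Agent.H723.PT.T5
import Pool.Agent.H723.PT.T6
import Pool.Agent.H723.PT.T7
import Pool.Agent.H723.PT.T8
import Pool.Agent.H723.PT.T9
import Pool.Agent.H723.PT.T10
import Pool.Agent.H723.PT.T11
import Pool.Agent.H723.PT.T12
import Pool.Agent.H723.PT.T13
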